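import Pool.Agent.H21.TC.Defs
import Pool.Agent.H51.TB.Core
import Pool.Agent.H51.TB.UPt

/-!
# TC16: the core theorem, `e = 0` (cones)

`GM_face`: a form with exponents `α`, `α_last = 0` is a form in the first `r` variables
(`α ∘ Fin.castSucc`); take the positions of `h` extended by `0` (or anything) in the last variable; only the
conditions `β` with `β_last = 0` are needed (`tcr` is a product, `Fin.prod_univ_castSucc`, the last factor is
`1`).  `GM` is an existence statement over index types: see `GM_iff`, `GM_equiv` in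
`Pool/Agent/H51/TB/Ridx.lean` for how to deal with it.

`core_cone`: the point of multiplicity `d` is put at the coordinate point of the last variable (`GM_cons`,
`Pool/Agent/H51/TB/UPt.lean`), then `GM_face` and `core` (`Pool/Agent/H51/TB/Core.lean`) for `r - 1` with
`m₀ := M`, `η := η / 2`.  `lam r 0 m = ell r m - ell r (m - 1) = ell (r - 1) m` for `m ≥ 1`, `r ≥ 2` (`ell_succ`), and
`ell r (d + 1) - ell r d = ell (r - 1) (d + 1)`.  The mass: `ell r μ * r = ell (r - 1) μ * (μ + r - 1)`, so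
`ell (r - 1) μ ≥ ell r μ / 2` for `r ≥ d`, and `ell (r - 1) (d + 1) ≤ ell r (d + 1)`.
-/

namespace Pool.Agent.H21.TC

open Finset Pool.Agent.H18.Ex Pool.Agent.H21.NX Pool.Agent.H18.Ta Pool.Agent.H51.TB

private theorem AllT_sum {r : ℕ} (a : Fin r → ℕ) :
    ∑ i, (Fin.snoc a 0 : Fin (r + 1) → ℕ) i = ∑ i, a i := by
  rw [Fin.sum_univ_castSucc]
  simp only [Fin.snoc_castSucc, Fin.snoc_last, add_zero]

private theorem AllT_tcr {r : ℕ} (q : Fin r → ℂ) (a b : Fin r → ℕ) :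
    tcr (Fin.snoc q 0 : Fin (r + 1) → ℂ) (Fin.snoc a 0 : Fin (r + 1) → ℕ)
      (Fin.snoc b 0 : Fin (r + 1) → ℕ) = tcr q a b := by
  unfold tcr
  rw [Fin.prod_univ_castSucc]
  simp only [Fin.snoc_castSucc, Fin.snoc_last, Nat.choose_self, Nat.cast_one, Nat.sub_self,
    pow_zero, mul_one]

theorem GM_face {r d : ℕ} (S : Multiset ℕ) (h : GM (Sx (Fin r) d) (S.map Kind.free)) :
    GM ((Sx (Fin (r + 1)) d).filter fun α => α (Fin.last r) + d ≤ d) (S.map Kind.free) := by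
  obtain ⟨m, t, rfl⟩ := multi_exists_fin S
  rw [Multiset.map_map, GM_iff] at h ⊢
  obtain ⟨pos, hpos⟩ := h
  refine ⟨fun i => (Fin.snoc (pos i) 0 : Fin (r + 1) → ℂ), fun f hf α hα => ?_⟩
  have hmem : ∀ a : Fin r → ℕ, (Fin.snoc a 0 : Fin (r + 1) → ℕ) ∈
      (Sx (Fin (r + 1)) d).filter (fun α => α (Fin.last r) + d ≤ d) ↔ a ∈ Sx (Fin r) d := by
    intro a
    rw [mem_filter, mem_Sx, mem_Sx, AllT_sum, Fin.snoc_last]
    omega
  have hback : ∀ α : Fin (r + 1) → ℕ, α ∈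
      (Sx (Fin (r + 1)) d).filter (fun α => α (Fin.last r) + d ≤ d) →
      (Fin.snoc (Fin.init α) 0 : Fin (r + 1) → ℕ) = α := by
    intro α hα
    rw [mem_filter] at hα
    have h0 : α (Fin.last r) = 0 := by omega
    have h1 := Fin.snoc_init_self α
    rw [h0] at h1
    exact h1
  have key : ∀ a ∈ Sx (Fin r) d,
      (fun a : Fin r → ℕ => f (Fin.snoc a 0 : Fin (r + 1) → ℕ)) a = 0 := by
    refine hpos _ fun i b hb => ?_
    have hb' : ∑ j, b j < t i := hb
    have h1 : ∑ a ∈ (Sx (Fin (r + 1)) d).filter (fun α => α (Fin.last r) + d ≤ d),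
        f a * tcr (Fin.snoc (pos i) 0 : Fin (r + 1) → ℂ) a
          (Fin.snoc b 0 : Fin (r + 1) → ℕ) = 0 := by
      refine hf i (Fin.snoc b 0 : Fin (r + 1) → ℕ) ?_
      show ∑ j, (Fin.snoc b 0 : Fin (r + 1) → ℕ) j < t i
      rw [AllT_sum]
      exact hb'
    rw [← h1]
    show ∑ a ∈ Sx (Fin r) d, f (Fin.snoc a 0 : Fin (r + 1) → ℕ) * tcr (pos i) a b = _
    refine Finset.sum_bij (fun a _ => (Fin.snoc a 0 : Fin (r + 1) → ℕ))
      (fun a ha => (hmem a).2 ha) (fun a _ c _ hac => ?_)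
      (fun α hα => ⟨Fin.init α, ?_, hback α hα⟩) (fun a _ => ?_)
    · have h2 : Fin.init (Fin.snoc a 0 : Fin (r + 1) → ℕ) =
          Fin.init (Fin.snoc c 0 : Fin (r + 1) → ℕ) := by rw [hac]
      rw [Fin.init_snoc, Fin.init_snoc] at h2
      exact h2
    · rw [← hmem, hback α hα]
      exact hα
    · rw [AllT_tcr]
  have h3 := key (Fin.init α) (by
    rw [← hmem, hback α hα]
    exact hα)
  beta_reduce at h3
  rw [hback α hα] at h3
  exact h3

/-- `(c + s) * ell s c = (s + 1) * ell (s + 1) c` -/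
private theorem AllT_mul (s c : ℕ) (hs : 1 ≤ s) : (c + s) * ell s c = (s + 1) * ell (s + 1) c := by
  rcases Nat.eq_zero_or_pos c with h | h
  · subst h
    rw [ell_zero hs, ell_zero (by omega), mul_zero, mul_zero]
  unfold ell
  have := Nat.add_one_mul_choose_eq (c + s - 1) s
  rw [show c + s - 1 + 1 = c + s by omega] at this
  rw [show c + (s + 1) - 1 = c + s by omega, this, mul_comm]

private theorem AllT_lam (r m : ℕ) (hm : 1 ≤ m) : lam (r + 1) 0 m = ell r m := by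
  obtain ⟨k, rfl⟩ : ∃ k, m = k + 1 := ⟨m - 1, by omega⟩
  unfold lam
  rw [Nat.zero_add, Nat.add_sub_cancel, ell_succ, Nat.add_sub_cancel_left]

theorem core_cone (d : ℕ) (η : ℝ) (hη : 0 < η) : ∃ r₀ : ℕ, ∀ r : ℕ, r₀ ≤ r → ∀ (M μ : ℕ)
    (S : Multiset ℕ), 1 ≤ μ → μ ≤ M → μ + M ≤ d →
    (∀ m ∈ S, 1 ≤ m ∧ m ≤ M ∧ m + M ≤ d + 1) →
    ell r (d + 1) ≤ ell r d + lam r 0 M + (S.map (lam r 0)).sum →
    η * (ell r (d + 1) : ℝ) ≤ ((S.count μ * ell r μ : ℕ) : ℝ) →
    GM (Sx (Fin (r + 1)) d) ((d ::ₘ M ::ₘ S).map Kind.free) := by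
  obtain ⟨r₁, h₁⟩ := core d (η / 2) (by positivity)
  refine ⟨max (r₁ + 1) (max d 2), fun r hr M μ S hμ hμM hM hS hN hη' => ?_⟩
  have hr1 : r₁ + 1 ≤ r := (le_max_left _ _).trans hr
  have hr2 : d ≤ r := ((le_max_left _ _).trans (le_max_right _ _)).trans hr
  have hr3 : 2 ≤ r := ((le_max_right _ _).trans (le_max_right _ _)).trans hr
  obtain ⟨s, rfl⟩ : ∃ s, r = s + 1 := ⟨r - 1, by omega⟩
  rw [Multiset.map_cons]
  refine GM_cons (Fin.last (s + 1)) d d _ (GM_face (M ::ₘ S) ?_)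
  refine h₁ s (by omega) M μ M S hμ hμM hM le_rfl hS ?_ ?_
  · have hS' : (S.map (lam (s + 1) 0)).sum = tot s S := by
      unfold tot
      rw [Multiset.map_congr rfl fun m hm => AllT_lam s m (hS m hm).1]
    rw [hS', AllT_lam s M (by omega), ell_succ] at hN
    omega
  · have e1 := AllT_mul s μ (by omega)
    have e2 : ell (s + 1) μ ≤ 2 * ell s μ := by
      have e3 : (s + 1) * ell (s + 1) μ ≤ (s + 1) * (2 * ell s μ) := by
        rw [← e1]
        calc (μ + s) * ell s μ ≤ (2 * (s + 1)) * ell s μ := Nat.mul_le_mul_right _ (by omega)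
          _ = (s + 1) * (2 * ell s μ) := by ring
      exact Nat.le_of_mul_le_mul_left e3 (Nat.succ_pos s)
    have e4 : ell s (d + 1) ≤ ell (s + 1) (d + 1) := by
      rw [ell_succ]
      exact Nat.le_add_left _ _
    have e5 : ((S.count μ * ell (s + 1) μ : ℕ) : ℝ) ≤ 2 * ((S.count μ * ell s μ : ℕ) : ℝ) := by
      have e6 : S.count μ * ell (s + 1) μ ≤ 2 * (S.count μ * ell s μ) := by
        calc S.count μ * ell (s + 1) μ ≤ S.count μ * (2 * ell s μ) := Nat.mul_le_mul_left _ e2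
          _ = 2 * (S.count μ * ell s μ) := by ring
      exact_mod_cast e6
    have e7 : η * (ell s (d + 1) : ℝ) ≤ η * (ell (s + 1) (d + 1) : ℝ) := by
      have e8 : (ell s (d + 1) : ℝ) ≤ (ell (s + 1) (d + 1) : ℝ) := by exact_mod_cast e4
      exact mul_le_mul_of_nonneg_left e8 hη.le
    linarith

end Pool.Agent.H21.TC
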