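import Pool.Agent.H21.TC.Tot
import Pool.Agent.H51.TB.LBas

/-!
# TC9: the weights of the problem: exact properties

`mcr n e v = ∑_{i ≤ min e v} multichoose (n - 1) (v - i)` counts the monomials of degree `v` in `n` variables
with the first exponent `≤ e`; `∑_{i ≤ v} multichoose (n - 1) (v - i) = multichoose n v` (`n ≥ 1`; see
`Tot_sum1` in `Pool/Agent/H51/TB/Tot.lean` or `UPt_mc` in `UPt.lean`), and the terms with `i > e` sum up to
`multichoose n (v - (e + 1))`.

`lamw_Ew`: `∑_{|g| = k} Ew g + ∑_{|g'| = k - (e+1)} Eg g' = ∑_{|g| = k} Eg g` (`mcr_add`, shift of `g.2` by `e + 1`), so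
`lamw m (Ew) + lamw (m - (e+1)) (Eg) = lamw m (Eg)`, and `lamw m (Eg a b) = ell (a + b - 1) m` (see `lamw_le`
in `Tot.lean`; it is `sum_wt` and `sum_wtw`, with `d := m`, `c := (0, 0)`).
`sum_Bt`: `Bt a b d e j + multichoose a (d - j) * multichoose b (j - (e + 1)) = bet a b d j` for `j > e` and
`sum_bet` for `d` and for `d - e - 1` (`sum_bet ha hb (d - e - 1) = ell (a + b - 1) (d - e)` if `e < d`; for `e = d`
there are no `j > e`, and `ell (a + b - 1) 0 = 0`).
-/

namespace Pool.Agent.H21.TC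

open Finset Pool.Agent.H18.Ex Pool.Agent.H21.NX Pool.Agent.H18.Ta Pool.Agent.H51.TB

private theorem McrT_sum1 (v : ℕ) : ∀ m : ℕ, ∑ k ∈ range (m + 1), Nat.multichoose v k =
    Nat.multichoose (v + 1) m := by
  intro m
  induction m with
  | zero => rw [Finset.sum_range_one, Nat.multichoose_zero_right, Nat.multichoose_zero_right]
  | succ m ih =>
    rw [Finset.sum_range_succ, ih, Nat.multichoose_succ_succ, Nat.add_comm]

private theorem McrT_full {n v : ℕ} (hn : 1 ≤ n) :
    ∑ i ∈ range (v + 1), Nat.multichoose (n - 1) (v - i) = Nat.multichoose n v := by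
  have h1 := Finset.sum_range_reflect (fun i => Nat.multichoose (n - 1) i) (v + 1)
  have h2 := McrT_sum1 (n - 1) v
  rw [Nat.sub_add_cancel hn] at h2
  rw [← h2, ← h1]
  refine Finset.sum_congr rfl fun i _ => ?_
  rw [Nat.add_sub_cancel]

theorem mcr_of_le {n e v : ℕ} (hn : 1 ≤ n) (h : v ≤ e) : mcr n e v = Nat.multichoose n v := by
  unfold mcr
  rw [Nat.min_eq_right h]
  exact McrT_full hn

theorem mcr_add {n e v : ℕ} (hn : 1 ≤ n) (h : e < v) :
    mcr n e v + Nat.multichoose n (v - (e + 1)) = Nat.multichoose n v := by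
  unfold mcr
  have h1 := Finset.sum_range_add (fun i => Nat.multichoose (n - 1) (v - i)) (e + 1)
    (v - (e + 1) + 1)
  rw [show e + 1 + (v - (e + 1) + 1) = v + 1 by omega, McrT_full hn] at h1
  rw [Nat.min_eq_left h.le, h1, ← McrT_full hn (v := v - (e + 1))]
  refine congrArg _ (Finset.sum_congr rfl fun i _ => ?_)
  rw [Nat.sub_sub]

theorem mcr_le {n e v : ℕ} (hn : 1 ≤ n) : mcr n e v ≤ Nat.multichoose n v := by
  rcases Nat.lt_or_ge e v with h | h
  · have := mcr_add hn h
    omega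
  · exact (mcr_of_le hn h).le

theorem isWt_Ew {a b e : ℕ} (ha : 2 ≤ a) (hb : 2 ≤ b) (he : 1 ≤ e) : IsWt a b (Ew a b e) := by
  refine ⟨fun g => ?_, fun t => ?_, ?_⟩
  · unfold Ew Eg
    exact Nat.mul_le_mul_left _ (mcr_le (by omega))
  · show Nat.multichoose (a - 1) t * mcr (b - 1) e 0 = _
    rw [mcr_of_le (by omega) (Nat.zero_le e), Nat.multichoose_zero_right, Nat.mul_one]
  · show Nat.multichoose (a - 1) 0 * mcr (b - 1) e 1 = _
    rw [mcr_of_le (by omega) he, Nat.multichoose_zero_right, Nat.one_mul, Nat.multichoose_one_right]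

private theorem McrT_lamw_Eg {a b m : ℕ} (ha : 1 ≤ a) (hb : 1 ≤ b) :
    lamw m (Eg a b) = ell (a + b - 1) m := by
  have h1 := sum_wtw (d := m) (m := m) (by omega) (c := (0, 0)) (Nat.zero_le m) (Eg a b)
  have h2 := sum_wt (d := m) (m := m) ha hb (by omega) (c := (0, 0)) (Nat.zero_le m)
  rw [← h1, ← h2]
  rfl

private theorem McrT_row {b e m g1 c1 : ℕ} (hb : 2 ≤ b) :
    ∑ h ∈ range m, (m - (g1 + h)) * (c1 * Nat.multichoose (b - 1) h) =
      ∑ h ∈ range m, (m - (g1 + h)) * (c1 * mcr (b - 1) e h) +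
        ∑ h ∈ range (m - (e + 1)), (m - (e + 1) - (g1 + h)) *
          (c1 * Nat.multichoose (b - 1) h) := by
  rcases Nat.lt_or_ge m (e + 2) with hm | hm
  · rw [show m - (e + 1) = 0 by omega, Finset.sum_range_zero, Nat.add_zero]
    refine Finset.sum_congr rfl fun h hh => ?_
    rw [mem_range] at hh
    rw [mcr_of_le (by omega) (by omega)]
  · obtain ⟨M, rfl⟩ : ∃ M, m = (e + 1) + M := ⟨m - (e + 1), by omega⟩
    have h1 := Finset.sum_range_add
      (fun h => (e + 1 + M - (g1 + h)) * (c1 * Nat.multichoose (b - 1) h)) (e + 1) M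
    have h2 := Finset.sum_range_add
      (fun h => (e + 1 + M - (g1 + h)) * (c1 * mcr (b - 1) e h)) (e + 1) M
    have h3 : ∑ h ∈ range (e + 1), (e + 1 + M - (g1 + h)) * (c1 * Nat.multichoose (b - 1) h) =
        ∑ h ∈ range (e + 1), (e + 1 + M - (g1 + h)) * (c1 * mcr (b - 1) e h) := by
      refine Finset.sum_congr rfl fun h hh => ?_
      rw [mem_range] at hh
      rw [mcr_of_le (by omega) (by omega)]
    have h4 : ∑ h ∈ range M, (e + 1 + M - (g1 + (e + 1 + h))) *
          (c1 * Nat.multichoose (b - 1) (e + 1 + h)) =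
        ∑ h ∈ range M, (e + 1 + M - (g1 + (e + 1 + h))) * (c1 * mcr (b - 1) e (e + 1 + h)) +
          ∑ h ∈ range M, (M - (g1 + h)) * (c1 * Nat.multichoose (b - 1) h) := by
      rw [← Finset.sum_add_distrib]
      refine Finset.sum_congr rfl fun h _ => ?_
      have h5 : mcr (b - 1) e (e + 1 + h) + Nat.multichoose (b - 1) h =
          Nat.multichoose (b - 1) (e + 1 + h) := by
        have h6 := mcr_add (n := b - 1) (e := e) (v := e + 1 + h) (by omega) (by omega)
        rwa [Nat.add_sub_cancel_left] at h6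
      rw [← h5, show e + 1 + M - (g1 + (e + 1 + h)) = M - (g1 + h) by omega]
      ring
    rw [Nat.add_sub_cancel_left, h1, h2, h3, h4]
    exact (Nat.add_assoc _ _ _).symm

private theorem McrT_prod (m : ℕ) (w : ℕ × ℕ → ℕ) : lamw m w =
    ∑ g1 ∈ range m, ∑ h ∈ range m, (m - (g1 + h)) * w (g1, h) := by
  unfold lamw
  rw [Finset.sum_product]

private theorem McrT_add (a b e m : ℕ) (hb : 2 ≤ b) :
    lamw m (Eg a b) = lamw m (Ew a b e) + lamw (m - (e + 1)) (Eg a b) := by
  rw [McrT_prod, McrT_prod, McrT_prod]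
  have h1 : ∑ g1 ∈ range (m - (e + 1)), ∑ h ∈ range (m - (e + 1)),
      (m - (e + 1) - (g1 + h)) * Eg a b (g1, h) =
      ∑ g1 ∈ range m, ∑ h ∈ range (m - (e + 1)), (m - (e + 1) - (g1 + h)) * Eg a b (g1, h) := by
    refine Finset.sum_subset (range_subset_range.2 (by omega)) fun g1 _ hg => ?_
    rw [mem_range, Nat.not_lt] at hg
    refine Finset.sum_eq_zero fun h _ => ?_
    rw [show m - (e + 1) - (g1 + h) = 0 by omega, Nat.zero_mul]
  rw [h1, ← Finset.sum_add_distrib]
  refine Finset.sum_congr rfl fun g1 _ => ?_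
  exact McrT_row (b := b) (e := e) (m := m) (g1 := g1) (c1 := Nat.multichoose (a - 1) g1) hb

theorem lamw_Ew {a b e m : ℕ} (ha : 2 ≤ a) (hb : 2 ≤ b) :
    lamw m (Ew a b e) = lam (a + b - 1) e m := by
  have h1 := McrT_add a b e m hb
  rw [McrT_lamw_Eg (by omega) (by omega), McrT_lamw_Eg (by omega) (by omega)] at h1
  unfold lam
  omega

theorem sum_Bt {a b d e : ℕ} (ha : 1 ≤ a) (hb : 1 ≤ b) (he : e ≤ d) :
    ∑ j ∈ range (d + 1), Bt a b d e j + ell (a + b - 1) (d - e) = ell (a + b - 1) (d + 1) := by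
  have hsplit : d + 1 = (e + 1) + (d - e) := by omega
  have h1 := sum_bet ha hb d
  have h2 : ∑ h ∈ range (d - e), Nat.multichoose a (d - (e + 1 + h)) * Nat.multichoose b h =
      ell (a + b - 1) (d - e) := by
    rcases Nat.eq_zero_or_pos (d - e) with h0 | h0
    · rw [h0, Finset.sum_range_zero, ell_zero (by omega)]
    · have h3 := sum_bet ha hb (d - e - 1)
      rw [Nat.sub_add_cancel h0] at h3
      rw [← h3]
      refine Finset.sum_congr rfl fun h _ => ?_
      unfold bet
      rw [show d - (e + 1 + h) = d - e - 1 - h by omega]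
  rw [← h2, ← h1, hsplit, Finset.sum_range_add _ (e + 1) (d - e),
    Finset.sum_range_add _ (e + 1) (d - e), Nat.add_assoc]
  refine congrArg₂ _ ?_ ?_
  · refine Finset.sum_congr rfl fun j hj => ?_
    rw [mem_range] at hj
    unfold Bt bet
    rw [mcr_of_le hb (by omega)]
  · rw [← Finset.sum_add_distrib]
    refine Finset.sum_congr rfl fun h _ => ?_
    unfold Bt bet
    have h4 := mcr_add (n := b) (e := e) (v := e + 1 + h) hb (by omega)
    rw [Nat.add_sub_cancel_left] at h4
    rw [← h4, Nat.mul_add]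

end Pool.Agent.H21.TC
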