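import Pool.Agent.H21.TC.Defs
import Pool.Agent.H51.TB.Mov

/-!
# TC2: moving a point, for a general weight

As `Pool/Agent/H51/TB/Mov.lean` (complete; copy it and replace `Eg a b g` by `w g`).  `Mvw_one`, `Mvw_two`,
`Mvw_zero`: the filter is `{(0, 0)}`, `{(1, 0), (0, 1)}`, `{(t, 0)}`; use `IsWt` (`multichoose (a - 1) 0 = 1`,
`multichoose (a - 1) 1 = a - 1`).  `Mvw_le`: `Mvw d m w s ρ ≤ Mv a b d m s ρ ≤ ell (a + b) m` (`IsWt.le`, the
public `Mv_le` of `Pool/Agent/H51/TB/Mov.lean`; import that file).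
-/

namespace Pool.Agent.H21.TC

open Finset Pool.Agent.H18.Ex Pool.Agent.H21.NX Pool.Agent.H18.Ta Pool.Agent.H51.TB

private theorem MovT_wr_ne {d s ρ j : ℕ} (hs : s + ρ + 1 ≤ d) (hj : j ≤ d) (g : ℕ × ℕ) (h1 : j ≠ s)
    (h2 : j ≠ s + ρ + 1) : wr d (s, ρ + 1) g j = wr d (s, ρ) g j := by
  unfold wr
  congr 1
  refine filter_congr fun i hi => ?_
  have hi' : i < d + 1 := mem_range.1 hi
  have hk : rk (d + 1) s (ρ + 1) i < rk (d + 1) s (ρ + 1) j ↔ rk (d + 1) s ρ i < rk (d + 1) s ρ j := by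
    unfold rk
    split_ifs <;> omega
  show (g.2 ≤ i ∧ i + g.1 ≤ d ∧ rk (d + 1) s (ρ + 1) i < rk (d + 1) s (ρ + 1) j) ↔
    (g.2 ≤ i ∧ i + g.1 ≤ d ∧ rk (d + 1) s ρ i < rk (d + 1) s ρ j)
  rw [hk]

/-- both levels in the window -/
private theorem MovT_wr_both {d s ρ : ℕ} (hs : s + ρ + 1 ≤ d) (g : ℕ × ℕ) (h1 : g.2 ≤ s)
    (h2 : g.1 + s + ρ + 1 ≤ d) : wr d (s, ρ) g s = ρ ∧ wr d (s, ρ + 1) g s = ρ + 1 ∧
      wr d (s, ρ) g (s + ρ + 1) = ρ + 1 ∧ wr d (s, ρ + 1) g (s + ρ + 1) = ρ := by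
  refine ⟨?_, ?_, ?_, ?_⟩
  · have h : ((range (d + 1)).filter fun i => g.2 ≤ i ∧ i + g.1 ≤ d ∧
        rk (d + 1) s ρ i < rk (d + 1) s ρ s) = Ioc s (s + ρ) := by
      ext i
      rw [mem_filter, mem_range, mem_Ioc]
      unfold rk
      split_ifs <;> omega
    unfold wr
    show ((range (d + 1)).filter fun i => g.2 ≤ i ∧ i + g.1 ≤ d ∧
        rk (d + 1) s ρ i < rk (d + 1) s ρ s).card = ρ
    rw [h, Nat.card_Ioc]
    omega
  · have h : ((range (d + 1)).filter fun i => g.2 ≤ i ∧ i + g.1 ≤ d ∧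
        rk (d + 1) s (ρ + 1) i < rk (d + 1) s (ρ + 1) s) = Ioc s (s + ρ + 1) := by
      ext i
      rw [mem_filter, mem_range, mem_Ioc]
      unfold rk
      split_ifs <;> omega
    unfold wr
    show ((range (d + 1)).filter fun i => g.2 ≤ i ∧ i + g.1 ≤ d ∧
        rk (d + 1) s (ρ + 1) i < rk (d + 1) s (ρ + 1) s).card = ρ + 1
    rw [h, Nat.card_Ioc]
    omega
  · have h : ((range (d + 1)).filter fun i => g.2 ≤ i ∧ i + g.1 ≤ d ∧
        rk (d + 1) s ρ i < rk (d + 1) s ρ (s + ρ + 1)) = Icc s (s + ρ) := by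
      ext i
      rw [mem_filter, mem_range, mem_Icc]
      unfold rk
      split_ifs <;> omega
    unfold wr
    show ((range (d + 1)).filter fun i => g.2 ≤ i ∧ i + g.1 ≤ d ∧
        rk (d + 1) s ρ i < rk (d + 1) s ρ (s + ρ + 1)).card = ρ + 1
    rw [h, Nat.card_Icc]
    omega
  · have h : ((range (d + 1)).filter fun i => g.2 ≤ i ∧ i + g.1 ≤ d ∧
        rk (d + 1) s (ρ + 1) i < rk (d + 1) s (ρ + 1) (s + ρ + 1)) = Ioc s (s + ρ) := by
      ext i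
      rw [mem_filter, mem_range, mem_Ioc]
      unfold rk
      split_ifs <;> omega
    unfold wr
    show ((range (d + 1)).filter fun i => g.2 ≤ i ∧ i + g.1 ≤ d ∧
        rk (d + 1) s (ρ + 1) i < rk (d + 1) s (ρ + 1) (s + ρ + 1)).card = ρ
    rw [h, Nat.card_Ioc]
    omega

private theorem MovT_wr_lo {d s ρ : ℕ} (hs : s + ρ + 1 ≤ d) (g : ℕ × ℕ)
    (h2 : ¬ g.1 + s + ρ + 1 ≤ d) : wr d (s, ρ + 1) g s = wr d (s, ρ) g s := by
  unfold wr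
  congr 1
  refine filter_congr fun i hi => ?_
  have hi' : i < d + 1 := mem_range.1 hi
  show (g.2 ≤ i ∧ i + g.1 ≤ d ∧ rk (d + 1) s (ρ + 1) i < rk (d + 1) s (ρ + 1) s) ↔
    (g.2 ≤ i ∧ i + g.1 ≤ d ∧ rk (d + 1) s ρ i < rk (d + 1) s ρ s)
  unfold rk
  split_ifs <;> omega

private theorem MovT_wr_hi {d s ρ : ℕ} (hs : s + ρ + 1 ≤ d) (g : ℕ × ℕ)
    (h1 : ¬ g.2 ≤ s) : wr d (s, ρ + 1) g (s + ρ + 1) = wr d (s, ρ) g (s + ρ + 1) := by
  unfold wr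
  congr 1
  refine filter_congr fun i hi => ?_
  have hi' : i < d + 1 := mem_range.1 hi
  show (g.2 ≤ i ∧ i + g.1 ≤ d ∧ rk (d + 1) s (ρ + 1) i < rk (d + 1) s (ρ + 1) (s + ρ + 1)) ↔
    (g.2 ≤ i ∧ i + g.1 ≤ d ∧ rk (d + 1) s ρ i < rk (d + 1) s ρ (s + ρ + 1))
  unfold rk
  split_ifs <;> omega

private theorem MovT_point {d m s ρ j : ℕ} (hs : s + ρ + 1 ≤ d) (hj : j ≤ d) (g : ℕ × ℕ) (E : ℕ) :
    (if g.2 ≤ j ∧ j + g.1 ≤ d ∧ g.1 + g.2 + wr d (s, ρ + 1) g j < m then E else 0) +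
      (if j = s then (if g.1 + g.2 + ρ + 1 = m ∧ g.2 ≤ s ∧ g.1 + s + ρ + 1 ≤ d then E else 0) else 0) =
    (if g.2 ≤ j ∧ j + g.1 ≤ d ∧ g.1 + g.2 + wr d (s, ρ) g j < m then E else 0) +
      (if j = s + ρ + 1 then
        (if g.1 + g.2 + ρ + 1 = m ∧ g.2 ≤ s ∧ g.1 + s + ρ + 1 ≤ d then E else 0) else 0) := by
  by_cases h1 : j = s
  · subst h1
    by_cases h2 : g.1 + j + ρ + 1 ≤ d
    · by_cases h3 : g.2 ≤ j
      · obtain ⟨w1, w2, -, -⟩ := MovT_wr_both hs g h3 h2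
        rw [w1, w2]
        split_ifs <;> omega
      · split_ifs <;> omega
    · rw [MovT_wr_lo hs g h2]
      split_ifs <;> omega
  · by_cases h4 : j = s + ρ + 1
    · subst h4
      by_cases h3 : g.2 ≤ s
      · by_cases h2 : g.1 + s + ρ + 1 ≤ d
        · obtain ⟨-, -, w1, w2⟩ := MovT_wr_both hs g h3 h2
          rw [w1, w2]
          split_ifs <;> omega
        · split_ifs <;> omega
      · rw [MovT_wr_hi hs g h3]
        split_ifs <;> omega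
    · rw [MovT_wr_ne hs hj g h1 h4, if_neg h1, if_neg h4]

theorem wtw_move {d m s ρ : ℕ} (w : ℕ × ℕ → ℕ) (hs : s + ρ + 1 ≤ d) (j : ℕ) (hj : j ≤ d) :
    wtw d m w (s, ρ + 1) j + (if j = s then Mvw d m w s ρ else 0) =
      wtw d m w (s, ρ) j + (if j = s + ρ + 1 then Mvw d m w s ρ else 0) := by
  have hM : ∀ P : Prop, ∀ _ : Decidable P, (if P then Mvw d m w s ρ else 0) =
      ∑ g ∈ range m ×ˢ range m, (if P then
        (if g.1 + g.2 + ρ + 1 = m ∧ g.2 ≤ s ∧ g.1 + s + ρ + 1 ≤ d then w g else 0) else 0) := by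
    intro P _
    by_cases hP : P
    · rw [if_pos hP]
      unfold Mvw
      rw [sum_filter]
      exact sum_congr rfl fun g _ => by rw [if_pos hP]
    · rw [if_neg hP]
      symm
      exact sum_eq_zero fun g _ => by rw [if_neg hP]
  rw [hM, hM]
  unfold wtw Lam
  rw [sum_filter, sum_filter, ← sum_add_distrib, ← sum_add_distrib]
  exact sum_congr rfl fun g _ => MovT_point hs hj g (w g)

theorem Prw_move {d m s ρ : ℕ} (w : ℕ × ℕ → ℕ) (hs : s + ρ + 1 ≤ d) (j : ℕ) (hj : j ≤ d) :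
    Prw d m w (s, ρ + 1) j + (if s ≤ j ∧ j ≤ s + ρ then Mvw d m w s ρ else 0) =
      Prw d m w (s, ρ) j := by
  have h : ∑ i ∈ range (j + 1), (wtw d m w (s, ρ + 1) i + (if i = s then Mvw d m w s ρ else 0)) =
      ∑ i ∈ range (j + 1), (wtw d m w (s, ρ) i + (if i = s + ρ + 1 then Mvw d m w s ρ else 0)) :=
    sum_congr rfl fun i hi => wtw_move w hs i (by have := mem_range.1 hi; omega)
  rw [sum_add_distrib, sum_add_distrib, sum_ite_eq', sum_ite_eq'] at h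
  simp only [mem_range] at h
  unfold Prw
  revert h
  generalize ∑ i ∈ range (j + 1), wtw d m w (s, ρ + 1) i = A
  generalize ∑ i ∈ range (j + 1), wtw d m w (s, ρ) i = B
  generalize Mvw d m w s ρ = C
  intro h
  split_ifs at h ⊢ <;> omega

theorem Mvw_one {a b d m s : ℕ} {w : ℕ × ℕ → ℕ} (hw : IsWt a b w) (hm : 1 ≤ m) (hs : s + m ≤ d) :
    Mvw d m w s (m - 1) = 1 := by
  have h : ((range m ×ˢ range m).filter fun g : ℕ × ℕ =>
      g.1 + g.2 + (m - 1) + 1 = m ∧ g.2 ≤ s ∧ g.1 + s + (m - 1) + 1 ≤ d) = {((0, 0) : ℕ × ℕ)} := by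
    ext g
    rw [mem_filter, mem_product, mem_range, mem_range, mem_singleton, Prod.ext_iff]
    show _ ↔ g.1 = 0 ∧ g.2 = 0
    omega
  unfold Mvw
  rw [h, sum_singleton, hw.zero, Nat.multichoose_zero_right]

theorem Mvw_two {a b d m s : ℕ} {w : ℕ × ℕ → ℕ} (hw : IsWt a b w) (ha : 1 ≤ a) (hb : 1 ≤ b)
    (hm : 2 ≤ m) (h1 : 1 ≤ s) (hs : s + m ≤ d) : Mvw d m w s (m - 2) = a + b - 2 := by
  have h : ((range m ×ˢ range m).filter fun g : ℕ × ℕ =>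
      g.1 + g.2 + (m - 2) + 1 = m ∧ g.2 ≤ s ∧ g.1 + s + (m - 2) + 1 ≤ d) =
      {((1, 0) : ℕ × ℕ), ((0, 1) : ℕ × ℕ)} := by
    ext g
    rw [mem_filter, mem_product, mem_range, mem_range, mem_insert, mem_singleton, Prod.ext_iff,
      Prod.ext_iff]
    show _ ↔ (g.1 = 1 ∧ g.2 = 0) ∨ (g.1 = 0 ∧ g.2 = 1)
    omega
  unfold Mvw
  rw [h, sum_pair (by decide), hw.zero, hw.one, Nat.multichoose_one_right]
  omega

theorem Mvw_zero {a b d m t : ℕ} {w : ℕ × ℕ → ℕ} (hw : IsWt a b w) (hm : m ≤ d) (ht : t + 1 ≤ m) :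
    Mvw d m w 0 (m - 1 - t) = Nat.multichoose (a - 1) t := by
  have h : ((range m ×ˢ range m).filter fun g : ℕ × ℕ =>
      g.1 + g.2 + (m - 1 - t) + 1 = m ∧ g.2 ≤ 0 ∧ g.1 + 0 + (m - 1 - t) + 1 ≤ d) = {((t, 0) : ℕ × ℕ)} := by
    ext g
    rw [mem_filter, mem_product, mem_range, mem_range, mem_singleton, Prod.ext_iff]
    show _ ↔ g.1 = t ∧ g.2 = 0
    omega
  unfold Mvw
  rw [h, sum_singleton, hw.zero]

theorem Mvw_le {a b d m s ρ : ℕ} {w : ℕ × ℕ → ℕ} (hw : IsWt a b w) (ha : 1 ≤ a) (hb : 1 ≤ b) :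
    Mvw d m w s ρ ≤ ell (a + b) m := by
  refine le_trans ?_ (Mv_le (a := a) (b := b) (d := d) (m := m) (s := s) (ρ := ρ) ha hb)
  unfold Mvw Mv
  exact sum_le_sum fun g _ => hw.le g

theorem Mvw_ge {d m s : ℕ} (w : ℕ × ℕ → ℕ) (hm : 1 ≤ m) (hmd : m ≤ d) (hs : s < d) :
    ∃ g : ℕ × ℕ, g.1 + g.2 + 1 = m ∧ w g ≤ Mvw d m w s 0 := by
  have key : ∀ g : ℕ × ℕ, g.1 + g.2 + 1 = m → g.2 ≤ s → g.1 + s + 1 ≤ d → w g ≤ Mvw d m w s 0 := by
    intro g h1 h2 h3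
    unfold Mvw
    refine single_le_sum (f := fun g => w g) (fun _ _ => Nat.zero_le _) ?_
    rw [mem_filter, mem_product, mem_range, mem_range]
    omega
  by_cases h : m - 1 ≤ s
  · refine ⟨(0, m - 1), ?_, key _ ?_ ?_ ?_⟩ <;> show _ <;> dsimp only <;> omega
  · refine ⟨(m - 1 - s, s), ?_, key _ ?_ ?_ ?_⟩ <;> show _ <;> dsimp only <;> omega

end Pool.Agent.H21.TC
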