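import Pool.Agent.H21.TC.Defs
import Pool.Agent.H21.TC.Mcr

/-!
# TC10: the number of exponents of a level

The exponents `α` of `Bx a b d j` with `α (inr o) > e` are in bijection with `Bx a b (d - (e + 1)) (j - (e + 1))`
(subtract `e + 1` at `inr o`; `j > e`), so their number is `multichoose a (d - j) * multichoose b (j - (e + 1))`
(`card_Bx`); see `UPt_hi` in `Pool/Agent/H51/TB/UPt.lean` for the same argument for an `X`-variable.  Then
`mcr b e j = multichoose b j - multichoose b (j - (e + 1))` (`j > e`), see `Mcr.lean` (`mcr_add`, `mcr_of_le`: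
import `Pool.Agent.H21.TC.Mcr`, its statements may be used, its proofs are another module).
-/

namespace Pool.Agent.H21.TC

open Finset Pool.Agent.H18.Ex Pool.Agent.H21.NX Pool.Agent.H18.Ta Pool.Agent.H51.TB

private theorem CardWT_hi {a b d j : ℕ} (hj : j ≤ d) (o : Fin b) (e : ℕ) :
    ((Bx a b d j).filter fun α => ¬ α (Sum.inr o) ≤ e).card =
      if e < j then Nat.multichoose a (d - j) * Nat.multichoose b (j - (e + 1)) else 0 := by
  have hyd : ∀ α : Z a b → ℕ, α (Sum.inr o) ≤ yd α := by
    intro α
    unfold yd
    exact single_le_sum (f := fun i => α (Sum.inr i)) (fun i _ => Nat.zero_le _) (mem_univ o)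
  split_ifs with h
  · have hcard : (Bx a b (d - (e + 1)) (j - (e + 1))).card =
        Nat.multichoose a (d - j) * Nat.multichoose b (j - (e + 1)) := by
      rw [card_Bx (a := a) (b := b) (d := d - (e + 1)) (j := j - (e + 1)) (by omega)]
      unfold bet
      have h1 : d - (e + 1) - (j - (e + 1)) = d - j := by omega
      rw [h1]
    rw [← hcard]
    symm
    have hup : ∀ (α : Z a b → ℕ) (v : ℕ),
        yd (Function.update α (Sum.inr o) v) + α (Sum.inr o) = yd α + v ∧
          xd (Function.update α (Sum.inr o) v) = xd α := by
      intro α v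
      constructor
      · unfold yd
        have e1 := Finset.add_sum_erase univ (fun i => α (Sum.inr i)) (mem_univ o)
        have e2 := Finset.add_sum_erase univ
          (fun i => Function.update α (Sum.inr o) v (Sum.inr i)) (mem_univ o)
        have e3 : ∑ i ∈ univ.erase o, Function.update α (Sum.inr o) v (Sum.inr i) =
            ∑ i ∈ univ.erase o, α (Sum.inr i) :=
          sum_congr rfl fun i hi => Function.update_of_ne
            (fun hh => ne_of_mem_erase hi (Sum.inr_injective hh)) _ _
        simp only [Function.update_self] at e2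
        beta_reduce at e1 e2
        omega
      · unfold xd
        exact sum_congr rfl fun i _ => Function.update_of_ne (by exact Sum.inl_ne_inr) _ _
    refine card_bij' (fun α _ => Function.update α (Sum.inr o) (α (Sum.inr o) + (e + 1)))
      (fun α _ => Function.update α (Sum.inr o) (α (Sum.inr o) - (e + 1))) ?_ ?_ ?_ ?_
    · intro α hα
      rw [mem_Bx] at hα
      have h1 := hup α (α (Sum.inr o) + (e + 1))
      rw [mem_filter, mem_Bx, Function.update_self]
      omega
    · intro α hα
      rw [mem_filter, mem_Bx] at hα
      have h1 := hup α (α (Sum.inr o) - (e + 1))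
      rw [mem_Bx]
      omega
    · intro α _
      rw [Function.update_self, Function.update_idem]
      have h1 : α (Sum.inr o) + (e + 1) - (e + 1) = α (Sum.inr o) := by omega
      rw [h1, Function.update_eq_self]
    · intro α hα
      rw [mem_filter] at hα
      rw [Function.update_self, Function.update_idem]
      have h1 : α (Sum.inr o) - (e + 1) + (e + 1) = α (Sum.inr o) := by omega
      rw [h1, Function.update_eq_self]
  · rw [card_eq_zero, filter_eq_empty_iff]
    intro α hα
    rw [mem_Bx] at hα
    have h1 := hyd α
    omega

theorem card_Bw {a b d j : ℕ} (ha : 1 ≤ a) (hj : j ≤ d) (o : Fin b) (e : ℕ) :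
    (Bw a b d j o e).card = Bt a b d e j := by
  have hb : 1 ≤ b := by
    have := o.isLt
    omega
  have h1 : (Bw a b d j o e).card + ((Bx a b d j).filter fun α => ¬ α (Sum.inr o) ≤ e).card =
      (Bx a b d j).card := by
    unfold Bw
    exact card_filter_add_card_filter_not _
  rw [CardWT_hi hj o e, card_Bx hj] at h1
  unfold Bt
  unfold bet at h1
  split_ifs at h1 with h
  · have h2 := mcr_add (n := b) (e := e) (v := j) hb h
    rw [← h2, Nat.mul_add] at h1
    omega
  · rw [mcr_of_le hb (by omega)]
    omega

end Pool.Agent.H21.TC
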