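import Pool.Agent.H21.TC.Defs
import Pool.Agent.H51.TB.URank

/-!
# TC13: the number of independent conditions of a type

As `le_size_U` in `Pool/Agent/H51/TB/URank.lean` (complete; the proof and its private lemmas can be copied):
the position `q` is `1` at the first `X`-variable `c = ⟨0, _⟩` and at a `Y`-variable `c' ≠ o` (`2 ≤ b`), `0` at the
other variables.  The solutions of a type `Λ` at `q` vanish at all `α ∈ Bw a b d j o e` for which the
exponent `β` obtained by putting `0` at `c` and `c'` has bidegree in `Λ` (`β ↦ α` is unique).  The number of these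
`α`: for every `g ∈ Λ` (`g.1 ≤ d - j`, `g.2 ≤ j`) the exponents of degree `g.1` in the `a - 1` variables `≠ c` times
those of degree `g.2` in the `b - 1` variables `≠ c'` with exponent `≤ e` at `o`, i.e.
`multichoose (a - 1) g.1 * mcr (b - 1) e g.2 = Ew a b e g` (`mcr` splits by the exponent at `o`: the other
`b - 2` variables have degree `g.2 - i`).
-/

namespace Pool.Agent.H21.TC

open Finset MvPolynomial Pool.Agent.H18.Ex Pool.Agent.H21.NX Pool.Agent.H18.Ta Pool.Agent.H51.TB

private theorem RankWT_card_Sx {ι : Type} [Fintype ι] [DecidableEq ι] (n : ℕ) :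
    (Sx ι n).card = Nat.multichoose (Fintype.card ι) n := by
  rw [← card_univ, ← card_finsuppAntidiag_nat_eq_multichoose]
  symm
  apply card_bij (fun (α : ι →₀ ℕ) _ => (⇑α : ι → ℕ))
  · intro α hα
    rw [mem_finsuppAntidiag] at hα
    exact mem_Sx.2 hα.1
  · intro α _ β _ h
    exact DFunLike.coe_injective h
  · intro f hf
    refine ⟨Finsupp.equivFunOnFinite.symm f, ?_, rfl⟩
    rw [mem_finsuppAntidiag]
    exact ⟨mem_Sx.1 hf, subset_univ _⟩

/-- the special variables -/
private def RankWT_sp {a b : ℕ} (c : Fin a) (c' : Fin b) : Z a b → Prop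
  | Sum.inl i => i = c
  | Sum.inr i => i = c'

private instance {a b : ℕ} (c : Fin a) (c' : Fin b) : DecidablePred (RankWT_sp c c') := fun z => by
  rcases z with i | i <;> unfold RankWT_sp <;> infer_instance

/-- the special position -/
private noncomputable def RankWT_q {a b : ℕ} (c : Fin a) (c' : Fin b) (z : Z a b) : ℂ :=
  if RankWT_sp c c' z then 1 else 0

/-- `α` with the special coordinates removed -/
private def RankWT_red {a b : ℕ} (c : Fin a) (c' : Fin b) (α : Z a b → ℕ) (z : Z a b) : ℕ :=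
  if RankWT_sp c c' z then 0 else α z

private theorem RankWT_sp_inl {a b : ℕ} (c : Fin a) (c' : Fin b) : RankWT_sp c c' (Sum.inl c) := rfl

private theorem RankWT_sp_inr {a b : ℕ} (c : Fin a) (c' : Fin b) : RankWT_sp c c' (Sum.inr c') := rfl

private theorem RankWT_nsp_inl {a b : ℕ} (c : Fin a) (c' : Fin b) {i : Fin a} (h : i ≠ c) :
    ¬ RankWT_sp c c' (Sum.inl i) := h

private theorem RankWT_nsp_inr {a b : ℕ} (c : Fin a) (c' : Fin b) {i : Fin b} (h : i ≠ c') :
    ¬ RankWT_sp c c' (Sum.inr i) := h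

private theorem RankWT_xd' {a b : ℕ} (c : Fin a) (α : Z a b → ℕ) :
    xd α = α (Sum.inl c) + ∑ i : {i // i ≠ c}, α (Sum.inl i.1) := by
  unfold xd
  exact Fintype.sum_eq_add_sum_subtype_ne (fun i => α (Sum.inl i)) c

private theorem RankWT_yd' {a b : ℕ} (c' : Fin b) (α : Z a b → ℕ) :
    yd α = α (Sum.inr c') + ∑ i : {i // i ≠ c'}, α (Sum.inr i.1) := by
  unfold yd
  exact Fintype.sum_eq_add_sum_subtype_ne (fun i => α (Sum.inr i)) c'

private theorem RankWT_xd_red {a b : ℕ} (c : Fin a) (c' : Fin b) (α : Z a b → ℕ) :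
    xd (RankWT_red c c' α) = ∑ i : {i // i ≠ c}, α (Sum.inl i.1) := by
  rw [RankWT_xd' c]
  have h0 : RankWT_red c c' α (Sum.inl c) = 0 := by
    unfold RankWT_red
    rw [if_pos (RankWT_sp_inl c c')]
  rw [h0, Nat.zero_add]
  refine sum_congr rfl fun i _ => ?_
  unfold RankWT_red
  rw [if_neg (RankWT_nsp_inl c c' i.2)]

private theorem RankWT_yd_red {a b : ℕ} (c : Fin a) (c' : Fin b) (α : Z a b → ℕ) :
    yd (RankWT_red c c' α) = ∑ i : {i // i ≠ c'}, α (Sum.inr i.1) := by
  rw [RankWT_yd' c']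
  have h0 : RankWT_red c c' α (Sum.inr c') = 0 := by
    unfold RankWT_red
    rw [if_pos (RankWT_sp_inr c c')]
  rw [h0, Nat.zero_add]
  refine sum_congr rfl fun i _ => ?_
  unfold RankWT_red
  rw [if_neg (RankWT_nsp_inr c c' i.2)]

private theorem RankWT_xd {a b : ℕ} (c : Fin a) (c' : Fin b) (α : Z a b → ℕ) :
    xd α = α (Sum.inl c) + xd (RankWT_red c c' α) := by
  rw [RankWT_xd_red, RankWT_xd' c]

private theorem RankWT_yd {a b : ℕ} (c : Fin a) (c' : Fin b) (α : Z a b → ℕ) :
    yd α = α (Sum.inr c') + yd (RankWT_red c c' α) := by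
  rw [RankWT_yd_red, RankWT_yd' c']

private theorem RankWT_eq {a b d j : ℕ} (c : Fin a) (c' : Fin b) {α α' : Z a b → ℕ}
    (h : α ∈ Bx a b d j) (h' : α' ∈ Bx a b d j) (hr : RankWT_red c c' α = RankWT_red c c' α') :
    α = α' := by
  rw [mem_Bx] at h h'
  have hx := RankWT_xd c c' α
  have hx' := RankWT_xd c c' α'
  have hy := RankWT_yd c c' α
  have hy' := RankWT_yd c c' α'
  rw [hr] at hx hy
  funext z
  by_cases hz : RankWT_sp c c' z
  · rcases z with i | i
    · have : i = c := hz
      subst this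
      omega
    · have : i = c' := hz
      subst this
      omega
  · have := congrFun hr z
    unfold RankWT_red at this
    rwa [if_neg hz, if_neg hz] at this

private theorem RankWT_tcr {a b : ℕ} (c : Fin a) (c' : Fin b) (α β : Z a b → ℕ) :
    tcr (RankWT_q c c') α (RankWT_red c c' β) =
      if RankWT_red c c' α = RankWT_red c c' β then 1 else 0 := by
  unfold tcr
  split_ifs with h
  · apply prod_eq_one
    intro z _
    have h1 := congrFun h z
    unfold RankWT_q
    by_cases hz : RankWT_sp c c' z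
    · have h2 : RankWT_red c c' β z = 0 := by
        unfold RankWT_red
        rw [if_pos hz]
      rw [if_pos hz, h2]
      simp
    · have h2 : RankWT_red c c' α z = α z := by
        unfold RankWT_red
        rw [if_neg hz]
      rw [if_neg hz, ← h1, h2]
      simp
  · have h1 : ∃ z, RankWT_red c c' α z ≠ RankWT_red c c' β z := by
      by_contra hc
      push Not at hc
      exact h (funext hc)
    obtain ⟨z, hz⟩ := h1
    apply prod_eq_zero (mem_univ z)
    have hsp : ¬ RankWT_sp c c' z := by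
      intro hs
      apply hz
      unfold RankWT_red
      rw [if_pos hs, if_pos hs]
    have h2 : RankWT_red c c' α z = α z := by
      unfold RankWT_red
      rw [if_neg hsp]
    rw [h2] at hz
    unfold RankWT_q
    rw [if_neg hsp]
    rcases Nat.lt_or_gt_of_ne hz with h3 | h3
    · rw [Nat.choose_eq_zero_of_lt h3]
      simp
    · rw [zero_pow (by omega), mul_zero]

/-- the exponents whose coefficients vanish -/
private def RankWT_T {a b : ℕ} (d j : ℕ) (o : Fin b) (e : ℕ) (c : Fin a) (c' : Fin b)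
    (Λ : Finset (ℕ × ℕ)) : Finset (Z a b → ℕ) :=
  (Bw a b d j o e).filter fun α => (xd (RankWT_red c c' α), yd (RankWT_red c c' α)) ∈ Λ

/-- the exponent with given coordinates off the special variables -/
private def RankWT_ext {a b : ℕ} (c : Fin a) (c' : Fin b) (s s' : ℕ)
    (w : ({i : Fin a // i ≠ c} → ℕ) × ({i : Fin b // i ≠ c'} → ℕ)) : Z a b → ℕ
  | Sum.inl i => if h : i = c then s else w.1 ⟨i, h⟩
  | Sum.inr i => if h : i = c' then s' else w.2 ⟨i, h⟩

private theorem RankWT_ext_inl {a b : ℕ} (c : Fin a) (c' : Fin b) (s s' : ℕ)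
    (w : ({i : Fin a // i ≠ c} → ℕ) × ({i : Fin b // i ≠ c'} → ℕ)) (i : {i : Fin a // i ≠ c}) :
    RankWT_ext c c' s s' w (Sum.inl i.1) = w.1 i := by
  unfold RankWT_ext
  simp only
  rw [dif_neg i.2]

private theorem RankWT_ext_inr {a b : ℕ} (c : Fin a) (c' : Fin b) (s s' : ℕ)
    (w : ({i : Fin a // i ≠ c} → ℕ) × ({i : Fin b // i ≠ c'} → ℕ)) (i : {i : Fin b // i ≠ c'}) :
    RankWT_ext c c' s s' w (Sum.inr i.1) = w.2 i := by
  unfold RankWT_ext
  simp only
  rw [dif_neg i.2]

/-- the extension of `w` by `i` at `o` -/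
private def RankWT_ins {ι : Type} [DecidableEq ι] (o : ι) (i : ℕ) (w : {x : ι // x ≠ o} → ℕ) (x : ι) : ℕ :=
  if h : x = o then i else w ⟨x, h⟩

private theorem RankWT_ins_same {ι : Type} [DecidableEq ι] (o : ι) (i : ℕ) (w : {x : ι // x ≠ o} → ℕ) :
    RankWT_ins o i w o = i := by
  unfold RankWT_ins
  rw [dif_pos rfl]

private theorem RankWT_ins_ne {ι : Type} [DecidableEq ι] (o : ι) (i : ℕ) (w : {x : ι // x ≠ o} → ℕ)
    (x : {x : ι // x ≠ o}) : RankWT_ins o i w x.1 = w x := by
  unfold RankWT_ins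
  rw [dif_neg x.2]

private theorem RankWT_fib {ι : Type} [Fintype ι] [DecidableEq ι] (o : ι) (e v i : ℕ)
    (hi : i ≤ e) (hv : i ≤ v) : Nat.multichoose (Fintype.card ι - 1) (v - i) ≤
      (((Sx ι v).filter fun f => f o ≤ e).filter fun f => f o = i).card := by
  have h1 := RankWT_card_Sx (ι := {x : ι // x ≠ o}) (v - i)
  have h3 : Fintype.card {x : ι // x ≠ o} = Fintype.card ι - 1 := by
    have h := Fintype.card_subtype_compl (fun x : ι => x = o)
    rw [Fintype.card_subtype_eq] at h
    exact h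
  rw [h3] at h1
  rw [← h1]
  apply card_le_card_of_injOn (RankWT_ins o i)
  · intro w hw
    rw [Finset.mem_coe, mem_Sx] at hw
    rw [Finset.mem_coe, mem_filter, mem_filter, mem_Sx]
    refine ⟨⟨?_, ?_⟩, RankWT_ins_same o i w⟩
    · rw [Fintype.sum_eq_add_sum_subtype_ne (RankWT_ins o i w) o, RankWT_ins_same,
        sum_congr rfl fun x _ => RankWT_ins_ne o i w x, hw]
      omega
    · rw [RankWT_ins_same]
      exact hi
  · intro w _ w' _ h
    funext x
    have h6 := congrFun h x.1
    rwa [RankWT_ins_ne, RankWT_ins_ne] at h6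

private theorem RankWT_mcr {ι : Type} [Fintype ι] [DecidableEq ι] (o : ι) (e v : ℕ) :
    mcr (Fintype.card ι) e v ≤ ((Sx ι v).filter fun f => f o ≤ e).card := by
  have h1 : ((Sx ι v).filter fun f => f o ≤ e).card = ∑ i ∈ range (min e v + 1),
      (((Sx ι v).filter fun f => f o ≤ e).filter fun f => f o = i).card := by
    apply card_eq_sum_card_fiberwise
    intro f hf
    rw [Finset.mem_coe, mem_filter, mem_Sx] at hf
    rw [Finset.mem_coe, mem_range]
    have h2 : f o ≤ ∑ x, f x := single_le_sum (f := f) (fun i _ => Nat.zero_le _) (mem_univ o)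
    have h3 : f o ≤ min e v := le_min hf.2 (by omega)
    exact Nat.lt_succ_of_le h3
  rw [h1]
  unfold mcr
  refine sum_le_sum fun i hi => ?_
  rw [mem_range] at hi
  have h4 : i ≤ min e v := by omega
  exact RankWT_fib o e v i (h4.trans (min_le_left _ _)) (h4.trans (min_le_right _ _))

private theorem RankWT_card_fib {a b d j : ℕ} (hj : j ≤ d) (o : Fin b) (e : ℕ) (c : Fin a)
    (c' : Fin b) (hoc : o ≠ c') (g : ℕ × ℕ) (hg : j + g.1 ≤ d ∧ g.2 ≤ j) :
    Ew a b e g ≤ ((Bw a b d j o e).filter fun α =>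
      (xd (RankWT_red c c' α), yd (RankWT_red c c' α)) = g).card := by
  have h1 := RankWT_card_Sx (ι := {i : Fin a // i ≠ c}) g.1
  have h2 := RankWT_mcr (ι := {i : Fin b // i ≠ c'}) ⟨o, hoc⟩ e g.2
  have h3 : Fintype.card {i : Fin a // i ≠ c} = a - 1 := by
    rw [Fintype.card_subtype_compl, Fintype.card_fin, Fintype.card_unique]
  have h4 : Fintype.card {i : Fin b // i ≠ c'} = b - 1 := by
    rw [Fintype.card_subtype_compl, Fintype.card_fin, Fintype.card_unique]
  rw [h3] at h1
  rw [h4] at h2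
  unfold Ew
  rw [← h1]
  refine (Nat.mul_le_mul_left _ h2).trans ?_
  rw [← card_product]
  apply card_le_card_of_injOn (RankWT_ext c c' (d - j - g.1) (j - g.2))
  · intro w hw
    rw [Finset.mem_coe, mem_product, mem_filter, mem_Sx, mem_Sx] at hw
    rw [Finset.mem_coe, mem_filter]
    have e1 : xd (RankWT_red c c' (RankWT_ext c c' (d - j - g.1) (j - g.2) w)) = g.1 := by
      rw [RankWT_xd_red, ← hw.1]
      exact sum_congr rfl fun i _ => RankWT_ext_inl c c' _ _ w i
    have e2 : yd (RankWT_red c c' (RankWT_ext c c' (d - j - g.1) (j - g.2) w)) = g.2 := by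
      rw [RankWT_yd_red, ← hw.2.1]
      exact sum_congr rfl fun i _ => RankWT_ext_inr c c' _ _ w i
    have e3 : RankWT_ext c c' (d - j - g.1) (j - g.2) w (Sum.inl c) = d - j - g.1 := by
      unfold RankWT_ext
      simp
    have e4 : RankWT_ext c c' (d - j - g.1) (j - g.2) w (Sum.inr c') = j - g.2 := by
      unfold RankWT_ext
      simp
    have e5 : RankWT_ext c c' (d - j - g.1) (j - g.2) w (Sum.inr o) ≤ e := by
      rw [RankWT_ext_inr c c' _ _ w ⟨o, hoc⟩]
      exact hw.2.2
    have hx := RankWT_xd c c' (RankWT_ext c c' (d - j - g.1) (j - g.2) w)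
    have hy := RankWT_yd c c' (RankWT_ext c c' (d - j - g.1) (j - g.2) w)
    rw [e1, e3] at hx
    rw [e2, e4] at hy
    refine ⟨?_, by rw [e1, e2]⟩
    unfold Bw
    rw [mem_filter, mem_Bx]
    exact ⟨⟨by omega, by omega⟩, e5⟩
  · intro w _ w' _ h
    ext i
    · have := congrFun h (Sum.inl i.1)
      rwa [RankWT_ext_inl, RankWT_ext_inl] at this
    · have := congrFun h (Sum.inr i.1)
      rwa [RankWT_ext_inr, RankWT_ext_inr] at this

private theorem RankWT_card_T {a b d j : ℕ} (hj : j ≤ d) (o : Fin b) (e : ℕ) (c : Fin a)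
    (c' : Fin b) (hoc : o ≠ c') (Λ : Finset (ℕ × ℕ))
    (hΛ : ∀ g ∈ Λ, j + g.1 ≤ d ∧ g.2 ≤ j) :
    ∑ g ∈ Λ, Ew a b e g ≤ (RankWT_T d j o e c c' Λ).card := by
  have h1 : (RankWT_T d j o e c c' Λ).card =
      ∑ g ∈ Λ, ((RankWT_T d j o e c c' Λ).filter fun α =>
        (xd (RankWT_red c c' α), yd (RankWT_red c c' α)) = g).card := by
    apply card_eq_sum_card_fiberwise
    intro α hα
    unfold RankWT_T at hα
    rw [Finset.mem_coe, mem_filter] at hα
    exact hα.2
  rw [h1]
  refine sum_le_sum fun g hg => ?_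
  refine (RankWT_card_fib hj o e c c' hoc g (hΛ g hg)).trans (card_le_card ?_)
  intro α hα
  rw [mem_filter] at hα
  unfold RankWT_T
  rw [mem_filter, mem_filter]
  exact ⟨⟨hα.1, by rw [hα.2]; exact hg⟩, hα.2⟩

theorem le_size_W {a b d j : ℕ} (ha : 1 ≤ a) (hb : 2 ≤ b) (hj : j ≤ d) (o : Fin b) (e : ℕ)
    (Λ : Finset (ℕ × ℕ)) (hΛ : ∀ g ∈ Λ, j + g.1 ≤ d ∧ g.2 ≤ j) :
    ∑ g ∈ Λ, Ew a b e g ≤ (ASys (Bw a b d j o e)).size Λ := by
  obtain ⟨c', hoc⟩ : ∃ c' : Fin b, o ≠ c' := by
    have : Nontrivial (Fin b) := Fin.nontrivial_iff_two_le.mpr hb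
    obtain ⟨c, hc⟩ := exists_ne o
    exact ⟨c, hc.symm⟩
  let c : Fin a := ⟨0, by omega⟩
  refine (RankWT_card_T hj o e c c' hoc Λ hΛ).trans ?_
  let T : Finset {α // α ∈ Bw a b d j o e} := univ.filter fun α => α.1 ∈ RankWT_T d j o e c c' Λ
  have hT : T.card = (RankWT_T d j o e c c' Λ).card := by
    apply card_bij (fun (α : {α // α ∈ Bw a b d j o e}) _ => α.1)
    · intro α hα
      exact (mem_filter.1 hα).2
    · intro α _ β _ h
      exact Subtype.ext h
    · intro α hα
      have h1 : α ∈ Bw a b d j o e := by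
        unfold RankWT_T at hα
        exact (mem_filter.1 hα).1
      exact ⟨⟨α, h1⟩, mem_filter.2 ⟨mem_univ _, hα⟩, rfl⟩
  have hBx : ∀ α : {α // α ∈ Bw a b d j o e}, α.1 ∈ Bx a b d j := by
    intro α
    have h1 := α.2
    unfold Bw at h1
    exact (mem_filter.1 h1).1
  -- the solutions vanish on `T`
  have hvan : ∀ f ∈ (ASys (Bw a b d j o e)).V (fun _ : Unit => Λ) (fun _ => RankWT_q c c'),
      ∀ α ∈ T, f α = 0 := by
    intro f hf α hα
    rw [mem_AV] at hf
    have hα' : (xd (RankWT_red c c' α.1), yd (RankWT_red c c' α.1)) ∈ Λ := by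
      have := (mem_filter.1 hα).2
      unfold RankWT_T at this
      exact (mem_filter.1 this).2
    have h1 := hf () (RankWT_red c c' α.1) hα'
    rw [sum_eq_single α] at h1
    · rw [RankWT_tcr, if_pos rfl, one_mul] at h1
      exact h1
    · intro β _ hβ
      rw [RankWT_tcr, if_neg, zero_mul]
      intro h
      exact hβ (Subtype.ext (RankWT_eq c c' (hBx β) (hBx α) h))
    · intro h
      exact absurd (mem_univ α) h
  have hfin : Module.finrank ℂ ((ASys (Bw a b d j o e)).V (fun _ : Unit => Λ)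
      (fun _ => RankWT_q c c')) ≤ Fintype.card {α // α ∈ Bw a b d j o e} - T.card := by
    let φ : (ASys (Bw a b d j o e)).V (fun _ : Unit => Λ) (fun _ => RankWT_q c c') →ₗ[ℂ]
        ({α // α ∉ T} → ℂ) :=
      (LinearMap.funLeft ℂ ℂ (fun α : {α // α ∉ T} => α.1)).comp (Submodule.subtype _)
    have hφ : Function.Injective φ := by
      rw [← LinearMap.ker_eq_bot, LinearMap.ker_eq_bot']
      intro f hf
      apply Subtype.ext
      funext α
      by_cases hα : α ∈ T
      · exact hvan f.1 f.2 α hα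
      · exact congrFun hf ⟨α, hα⟩
    have h1 := LinearMap.finrank_le_finrank_of_injective hφ
    rw [Module.finrank_fintype_fun_eq_card] at h1
    have h2 : Fintype.card {α // α ∉ T} = Fintype.card {α // α ∈ Bw a b d j o e} - T.card := by
      rw [Fintype.card_subtype_compl, Fintype.card_coe, Fintype.card_coe]
    rw [h2] at h1
    exact h1
  have hgd := gd_le (ASys (Bw a b d j o e)) (fun _ : Unit => Λ) (fun _ => RankWT_q c c')
  have hc : T.card ≤ Fintype.card {α // α ∈ Bw a b d j o e} := card_le_univ T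
  unfold Sys.size
  omega

end Pool.Agent.H21.TC
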