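import Pool.Agent.H21.TC.Defs
import Pool.Agent.H51.TB.USpan
import Pool.Agent.H51.TB.URank

/-!
# TC12: the span property with the restricted variable among the `Y`-variables

Transport of `span_U` (restricted variable `o : Fin a` among the `X`-variables, `2 ≤ a`) by exchanging the
two blocks.  Let `σ : Z b a ≃ Z a b` be `Sum.swap`.  For `α' : Z b a → ℕ` put `α = α' ∘ σ.symm`; this is a
bijection from `Bu b a d (d - j) o e` (levels: `yd α' = d - j`, i.e. `xd α = d - j`, `yd α = j`, `j ≤ d`) onto
`Bw a b d j o e`.  `tcr q α β = tcr (q ∘ σ) α' β'` (`tcr` is a product over the variables: `Fintype.prod_equiv`),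
`(xd β, yd β) ∈ Λ ↔ (xd β', yd β') ∈ Λ.image Prod.swap`.  So (`mem_AV`) `f ↦ (α' ↦ f (α' ∘ σ.symm))` is a linear
bijection from `V m p` (for `Bw`) to `V (fun i => (m i).image Prod.swap) (fun i => p i ∘ σ)` (for `Bu`), and a
functional `φ ≠ 0` and a `Gn` statement (positions: the polynomial is renamed by `σ` in the second factor)
are transported as well; `gd` of the two are equal (only `gd = 0` is needed: `gd_attained`, `gd_le`).

It may be convenient to prove first a general lemma: systems `S : Sys E ν T`, `S' : Sys E' ν' T'`, `E ≃ E'`,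
`ν' ≃ ν`, `τ : T → T'` with `f ∈ S.V m p ↔ f ∘ e.symm ∈ S'.V (τ ∘ m) (fun i => p i ∘ v)`; then
`S'.Span → S.Span`.
-/

namespace Pool.Agent.H21.TC

open Finset MvPolynomial Pool.Agent.H18.Ex Pool.Agent.H21.NX Pool.Agent.H18.Ta Pool.Agent.H51.TB

/-- Transport of the span property. -/
private theorem SpanWT_transport {E E' ν ν' T T' : Type} [Fintype E] [Fintype E']
    (S : Sys E ν T) (S' : Sys E' ν' T') (u : E ≃ E') (v : ν' ≃ ν) (τ : T → T')
    (h : ∀ (κ : Type) (m : κ → T) (p : κ → ν → ℂ) (f : E → ℂ),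
      f ∈ S.V m p ↔ (fun x => f (u.symm x)) ∈ S'.V (fun i => τ (m i)) fun i x => p i (v x))
    (hS : S'.Span) : S.Span := by
  intro κ _ m φ hφ hG
  have h0 : S'.gd (fun i => τ (m i)) = 0 := by
    refine hS κ (fun i => τ (m i)) (φ.comp (LinearMap.funLeft ℂ ℂ u)) ?_ ?_
    · intro hcon
      apply hφ
      refine LinearMap.ext fun f => ?_
      have h1 := LinearMap.congr_fun hcon (fun x => f (u.symm x))
      rw [LinearMap.comp_apply, LinearMap.zero_apply] at h1
      have h2 : LinearMap.funLeft ℂ ℂ u (fun x => f (u.symm x)) = f := by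
        funext x
        rw [LinearMap.funLeft_apply, Equiv.symm_apply_apply]
      rw [h2] at h1
      rw [h1, LinearMap.zero_apply]
    · obtain ⟨G, hG0, hG1⟩ := hG
      have hinj : Function.Injective (fun x : κ × ν => (x.1, v.symm x.2)) := by
        intro x y hxy
        have h1 := congrArg Prod.fst hxy
        have h2 := congrArg Prod.snd hxy
        exact Prod.ext h1 (v.symm.injective h2)
      refine ⟨rename (fun x : κ × ν => (x.1, v.symm x.2)) G, ?_, fun p' hp' => ?_⟩
      · intro hcon
        apply hG0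
        apply rename_injective _ hinj
        rw [hcon, map_zero]
      · rw [eval_rename] at hp'
        have h1 := hG1 (fun i x => p' i (v.symm x)) hp'
        intro f' hf'
        rw [LinearMap.mem_ker, LinearMap.comp_apply]
        rw [← LinearMap.mem_ker]
        apply h1
        rw [h]
        have e1 : (fun x => LinearMap.funLeft ℂ ℂ u f' (u.symm x)) = f' := by
          funext x
          rw [LinearMap.funLeft_apply, Equiv.apply_symm_apply]
        have e2 : (fun i x => p' i (v.symm (v x))) = p' := by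
          funext i x
          rw [Equiv.symm_apply_apply]
        rw [e1, e2]
        exact hf'
  obtain ⟨p', hp'⟩ := gd_attained S' (fun i => τ (m i))
  rw [h0, Submodule.finrank_eq_zero] at hp'
  have h1 : S.V m (fun i x => p' i (v.symm x)) = ⊥ := by
    rw [eq_bot_iff]
    intro f hf
    rw [h] at hf
    have e2 : (fun i x => p' i (v.symm (v x))) = p' := by
      funext i x
      rw [Equiv.symm_apply_apply]
    rw [e2, hp', Submodule.mem_bot] at hf
    rw [Submodule.mem_bot]
    funext x
    have h2 := congrFun hf (u x)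
    rw [Equiv.symm_apply_apply] at h2
    exact h2
  have h2 := gd_le S m (fun i x => p' i (v.symm x))
  rw [h1, finrank_bot] at h2
  exact Nat.le_zero.1 h2

private theorem SpanWT_xd {a b : ℕ} (α : Z a b → ℕ) :
    xd (a := b) (b := a) (fun x => α (Equiv.sumComm _ _ x)) = yd α := rfl

private theorem SpanWT_yd {a b : ℕ} (α : Z a b → ℕ) :
    yd (a := b) (b := a) (fun x => α (Equiv.sumComm _ _ x)) = xd α := rfl

private theorem SpanWT_mem {a b d j : ℕ} (hj : j ≤ d) (o : Fin b) (e : ℕ) (α : Z a b → ℕ) :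
    α ∈ Bw a b d j o e ↔
      (fun x => α (Equiv.sumComm _ _ x)) ∈ Bu b a d (d - j) o e := by
  unfold Bw Bu
  rw [mem_filter, mem_filter, mem_Bx, mem_Bx, SpanWT_xd, SpanWT_yd]
  have h1 : (fun x => α (Equiv.sumComm (Fin b) (Fin a) x)) (Sum.inl o) = α (Sum.inr o) := rfl
  rw [h1]
  constructor
  · rintro ⟨⟨h2, h3⟩, h4⟩
    exact ⟨⟨by omega, by omega⟩, h4⟩
  · rintro ⟨⟨h2, h3⟩, h4⟩
    exact ⟨⟨by omega, by omega⟩, h4⟩

/-- Exchange of the blocks of the exponents. -/
private def SpanWT_equiv {a b d j : ℕ} (hj : j ≤ d) (o : Fin b) (e : ℕ) :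
    {α // α ∈ Bw a b d j o e} ≃ {α // α ∈ Bu b a d (d - j) o e} where
  toFun α := ⟨fun x => α.1 (Equiv.sumComm _ _ x), (SpanWT_mem hj o e α.1).1 α.2⟩
  invFun α := ⟨fun x => α.1 (Equiv.sumComm _ _ x), (SpanWT_mem hj o e _).2 (by
    have h : (fun x => (fun x => α.1 (Equiv.sumComm (Fin a) (Fin b) x))
        (Equiv.sumComm (Fin b) (Fin a) x)) = α.1 := by
      funext x
      rcases x with x | x <;> rfl
    rw [h]
    exact α.2)⟩
  left_inv α := by
    apply Subtype.ext
    funext x
    rcases x with x | x <;> rfl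
  right_inv α := by
    apply Subtype.ext
    funext x
    rcases x with x | x <;> rfl

private theorem SpanWT_tcr {a b : ℕ} (q : Z a b → ℂ) (α β : Z a b → ℕ) :
    tcr (fun x => q (Equiv.sumComm (Fin b) (Fin a) x)) (fun x => α (Equiv.sumComm _ _ x))
      (fun x => β (Equiv.sumComm _ _ x)) = tcr q α β := by
  unfold tcr
  exact Equiv.prod_comp (Equiv.sumComm (Fin b) (Fin a))
    fun i => (((α i).choose (β i) : ℕ) : ℂ) * q i ^ (α i - β i)

theorem span_W {a b d j : ℕ} (ha : 1 ≤ a) (hb : 2 ≤ b) (hj : j ≤ d) (o : Fin b) (e : ℕ) :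
    (ASys (Bw a b d j o e)).Span := by
  classical
  refine SpanWT_transport (ASys (Bw a b d j o e)) (ASys (Bu b a d (d - j) o e))
    (SpanWT_equiv hj o e) (Equiv.sumComm (Fin b) (Fin a)) (fun Λ => Λ.image Prod.swap) ?_
    (span_U hb ha (Nat.sub_le _ _) o e)
  intro κ m p f
  rw [mem_AV, mem_AV]
  have key : ∀ (i : κ) (β : Z a b → ℕ),
      ∑ α : {α // α ∈ Bu b a d (d - j) o e},
        tcr (fun x => p i (Equiv.sumComm (Fin b) (Fin a) x)) α.1
          (fun x => β (Equiv.sumComm _ _ x)) * f ((SpanWT_equiv hj o e).symm α) =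
      ∑ α : {α // α ∈ Bw a b d j o e}, tcr (p i) α.1 β * f α := by
    intro i β
    rw [← Equiv.sum_comp (SpanWT_equiv hj o e)]
    refine sum_congr rfl fun α _ => ?_
    rw [Equiv.symm_apply_apply]
    have h1 : ((SpanWT_equiv hj o e) α).1 = fun x => α.1 (Equiv.sumComm _ _ x) := rfl
    rw [h1, SpanWT_tcr]
  constructor
  · intro h i β' hβ'
    have e1 : β' = fun x => (fun y => β' (Equiv.sumComm (Fin a) (Fin b) y))
        (Equiv.sumComm (Fin b) (Fin a) x) := by
      funext x
      rcases x with x | x <;> rfl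
    rw [e1]
    refine (key i (fun y => β' (Equiv.sumComm (Fin a) (Fin b) y))).trans ?_
    apply h
    rw [mem_image] at hβ'
    obtain ⟨g, hg, hg'⟩ := hβ'
    have h2 : xd (a := a) (b := b) (fun y => β' (Equiv.sumComm (Fin a) (Fin b) y)) = yd β' := rfl
    have h3 : yd (a := a) (b := b) (fun y => β' (Equiv.sumComm (Fin a) (Fin b) y)) = xd β' := rfl
    rw [h2, h3]
    have h4 := congrArg Prod.swap hg'
    rw [Prod.swap_swap, Prod.swap_prod_mk] at h4
    rw [← h4]
    exact hg
  · intro h i β hβ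
    refine (key i β).symm.trans ?_
    apply h
    rw [mem_image]
    exact ⟨(xd β, yd β), hβ, rfl⟩

end Pool.Agent.H21.TC
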