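import Pool.Agent.H51.TB.Lev
import Pool.Agent.H51.TB.ULim
import Pool.Agent.H51.TB.UPt
import Pool.Agent.H51.TB.Cell
import Pool.Agent.H21.TC.SpanW
import Pool.Agent.H21.TC.RankW
import Pool.Agent.H21.TC.CardW

/-!
# TC14: from the numbers of points in the cells to `GM`

As `GM_of_counts_U` in `Pool/Agent/H51/TB/UCnt.lean` (complete; copy it) with the following changes.
* The point of multiplicity `d - e` is put at the coordinate point of the `Y`-variable `o = ⟨0, _⟩ : Fin b`
  (`GM_cons (Sum.inr o) d (d - e)`): it remains to show `GM` on the exponents with `α_o + (d - e) ≤ d`, i.e.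
  `α_o ≤ e`; the level `j` is `Bw a b d j o e`.
* The point `i₀ = Sum.inl ()` of `level` is now a real point of multiplicity `M` in the cell `(0, 0)`
  (type `Lam d M (0, 0) j`, class `0` by definition), as in `GM_of_counts` of `Cnt.lean` (index type
  `Unit ⊕ UCnt_I d c`); so there is no need for `UCnt_drop`.
* `le_size_W`, `span_W`, `card_Bw` instead of `le_size_U`, `span_U`, `card_Bu_add`; the weights are
  `wtw d m (Ew a b e)`.
-/

namespace Pool.Agent.H21.TC

open Finset Pool.Agent.H18.Ex Pool.Agent.H21.NX Pool.Agent.H18.Ta Pool.Agent.H51.TB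

private abbrev CntT_I (d : ℕ) (c : ℕ → ℕ × ℕ → ℕ) : Type :=
  Σ y : {y : ℕ × (ℕ × ℕ) // y ∈ range (d + 1) ×ˢ KK d}, Fin (c y.1.1 y.1.2)

private theorem CntT_sum {M : Type} [AddCommMonoid M] (d : ℕ) (c : ℕ → ℕ × ℕ → ℕ)
    (F : ℕ → ℕ × ℕ → M) :
    ∑ s : CntT_I d c, F s.1.1.1 s.1.1.2 = ∑ m ∈ range (d + 1), ∑ x ∈ KK d, c m x • F m x := by
  rw [Fintype.sum_sigma]
  have h1 : ∀ y : {y : ℕ × (ℕ × ℕ) // y ∈ range (d + 1) ×ˢ KK d},
      ∑ _t : Fin (c y.1.1 y.1.2), F y.1.1 y.1.2 =
        (fun z : ℕ × (ℕ × ℕ) => c z.1 z.2 • F z.1 z.2) y.1 := by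
    intro y
    rw [sum_const, card_univ, Fintype.card_fin]
  rw [sum_congr rfl fun y _ => h1 y]
  rw [← Finset.sum_product']
  exact Finset.sum_coe_sort (range (d + 1) ×ˢ KK d) fun z : ℕ × (ℕ × ℕ) => c z.1 z.2 • F z.1 z.2

private theorem CntT_univ_map {κ X : Type} [Fintype κ] (f : κ → X) :
    (univ : Finset κ).val.map f = ∑ i, ({f i} : Multiset X) := by
  show _ = ((univ : Finset κ).val.map fun i => ({f i} : Multiset X)).sum
  have h := Multiset.sum_map_singleton ((univ : Finset κ).val.map f)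
  rw [Multiset.map_map] at h
  exact h.symm

theorem GM_of_counts_W {a b d M μ e : ℕ} (ha : 2 ≤ a) (hb : 2 ≤ b) (hμ : 1 ≤ μ) (hμM : μ ≤ M)
    (hM : μ + M ≤ d) (he : e ≤ d) (A : ℕ → ℕ)
    (hA : ∀ m, A m ≠ 0 → 1 ≤ m ∧ m ≤ M ∧ m + M ≤ d + 1) (c : ℕ → ℕ × ℕ → ℕ)
    (hc : ∀ m ∈ range (d + 1), ∑ x ∈ KK d, c m x = A m)
    (h1 : ∀ j ≤ d, Bt a b d e j ≤ wtw d M (Ew a b e) (0, 0) j +
      ∑ m ∈ range (d + 1), ∑ x ∈ KK d, c m x * wtw d m (Ew a b e) x j)
    (h2 : ∀ j ≤ d, ∀ t, 1 ≤ t → t < μ → ell (a + b) (t + 1) * ell (a + b) M ≤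
      ∑ m ∈ range (d + 1), ∑ x ∈ KK d,
        if cls d m x j = t then c m x * wtw d m (Ew a b e) x j else 0)
    (h3 : ∀ j ≤ d, ell (a + b) (d + 1 - M) * ell (a + b) M ≤
      ∑ m ∈ range (d + 1), ∑ x ∈ KK d,
        if cls d m x j = μ then c m x * wtw d m (Ew a b e) x j else 0) :
    GM (Sx (Z a b) d) (((d - e) ::ₘ M ::ₘ ∑ m ∈ range (d + 1), Multiset.replicate (A m) m).map
      Kind.free) := by
  classical
  have hn1 : 1 ≤ a + b := by omega
  let o : Fin b := ⟨0, by omega⟩
  rw [Multiset.map_cons]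
  refine GM_cons (Sum.inr o) d (d - e) _ ?_
  let mult : Unit ⊕ CntT_I d c → ℕ := Sum.elim (fun _ => M) fun s => s.1.1.1
  let cell : Unit ⊕ CntT_I d c → ℕ × ℕ := Sum.elim (fun _ => (0, 0)) fun s => s.1.1.2
  have hmul : (univ : Finset (Unit ⊕ CntT_I d c)).val.map mult =
      M ::ₘ ∑ m ∈ range (d + 1), Multiset.replicate (A m) m := by
    rw [CntT_univ_map, Fintype.sum_sum_type]
    have h4 : ∑ s : CntT_I d c, ({mult (Sum.inr s)} : Multiset ℕ) =
        ∑ m ∈ range (d + 1), Multiset.replicate (A m) m := by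
      refine (CntT_sum d c (fun m _ => ({m} : Multiset ℕ))).trans ?_
      refine sum_congr rfl fun m hm => ?_
      rw [← Finset.sum_smul, hc m hm, Multiset.nsmul_singleton]
    rw [h4]
    simp [mult]
  rw [← hmul, Multiset.map_map, GM_iff]
  -- the range of the multiplicities
  have hi : ∀ s : CntT_I d c, A s.1.1.1 ≠ 0 := by
    intro s
    have h5 := s.1.2
    rw [mem_product] at h5
    rw [← hc _ h5.1]
    have h6 : 0 < c s.1.1.1 s.1.1.2 := lt_of_le_of_lt (Nat.zero_le _) s.2.2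
    have h7 : c s.1.1.1 s.1.1.2 ≤ ∑ x ∈ KK d, c s.1.1.1 x :=
      single_le_sum (fun x _ => Nat.zero_le (c s.1.1.1 x)) h5.2
    omega
  have hcell : ∀ i, (cell i).1 + (cell i).2 ≤ d := by
    rintro (i | s)
    · exact Nat.zero_le d
    · have h5 := s.1.2
      rw [mem_product] at h5
      exact mem_KK.1 h5.2
  have hmM : ∀ i, mult i ≤ M := by
    rintro (i | s)
    · exact le_refl M
    · exact (hA _ (hi s)).2.1
  refine limit_A _ (filter_subset _ _) mult cell hcell fun j hj => ?_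
  have hlev : ((Sx (Z a b) d).filter fun α => α (Sum.inr o) + (d - e) ≤ d).filter
      (fun α => yd α = j) = Bw a b d j o e := by
    unfold Bw Bx
    ext α
    simp only [mem_filter]
    constructor
    · rintro ⟨⟨h4, h5⟩, h6⟩
      exact ⟨⟨h4, h6⟩, by omega⟩
    · rintro ⟨⟨h4, h6⟩, h5⟩
      exact ⟨⟨h4, by omega⟩, h6⟩
  rw [hlev]
  -- sizes
  have hle : ∀ i, wtw d (mult i) (Ew a b e) (cell i) j ≤
      (ASys (Bw a b d j o e)).size (Lam d (mult i) (cell i) j) := by
    intro i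
    unfold wtw
    refine le_size_W (by omega) hb hj o e _ fun g hg => ?_
    unfold Lam at hg
    rw [mem_filter] at hg
    exact ⟨hg.2.2.1, hg.2.1⟩
  have hsz : ∀ i t, cls d (mult i) (cell i) j ≤ t →
      (ASys (Bw a b d j o e)).size (Lam d (mult i) (cell i) j) ≤ ell (a + b) t := by
    intro i t ht
    refine size_le_A (by omega) _ _ t fun g hg => ?_
    have h5 : g.1 + g.2 + 1 ≤ cls d (mult i) (cell i) j :=
      le_sup (f := fun g : ℕ × ℕ => g.1 + g.2 + 1) hg
    omega
  let B : Finset (ℕ × ℕ) := (range M ×ˢ range M).filter fun g => g.1 + g.2 < M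
  have hB : (ASys (Bw a b d j o e)).size B ≤ ell (a + b) M := by
    refine size_le_A (by omega) _ _ M fun g hg => ?_
    exact (mem_filter.1 hg).2
  have hdom : ∀ i, (ASys (Bw a b d j o e)).Dom B (Lam d (mult i) (cell i) j) := by
    intro i
    refine dom_A _ fun g hg => ?_
    have h5 := hmM i
    unfold Lam at hg
    rw [mem_filter] at hg
    rw [mem_filter, mem_product, mem_range, mem_range]
    omega
  -- sums
  have hsumF : ∀ F : ℕ → ℕ × ℕ → ℕ, (∑ s : CntT_I d c, F (mult (Sum.inr s)) (cell (Sum.inr s))) =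
      ∑ m ∈ range (d + 1), ∑ x ∈ KK d, c m x * F m x := by
    intro F
    exact CntT_sum d c F
  have hsumt : ∀ t, (∑ m ∈ range (d + 1), ∑ x ∈ KK d,
      if cls d m x j = t then c m x * wtw d m (Ew a b e) x j else 0) ≤
      ∑ i ∈ univ.filter (fun i : Unit ⊕ CntT_I d c =>
          i ≠ Sum.inl () ∧ cls d (mult i) (cell i) j = t),
        (ASys (Bw a b d j o e)).size (Lam d (mult i) (cell i) j) := by
    intro t
    rw [sum_filter, Fintype.sum_sum_type]
    have h5 := hsumF fun m x => if cls d m x j = t then wtw d m (Ew a b e) x j else 0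
    have h6 : (∑ m ∈ range (d + 1), ∑ x ∈ KK d,
        if cls d m x j = t then c m x * wtw d m (Ew a b e) x j else 0) =
        ∑ m ∈ range (d + 1), ∑ x ∈ KK d,
          c m x * if cls d m x j = t then wtw d m (Ew a b e) x j else 0 := by
      refine sum_congr rfl fun m _ => sum_congr rfl fun x _ => ?_
      split_ifs
      · rfl
      · rw [mul_zero]
    rw [h6, ← h5]
    refine le_trans (sum_le_sum fun s _ => ?_) (Nat.le_add_left _ _)
    by_cases h7 : cls d (mult (Sum.inr s)) (cell (Sum.inr s)) j = t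
    · rw [if_pos h7, if_pos ⟨Sum.inr_ne_inl, h7⟩]
      exact hle (Sum.inr s)
    · rw [if_neg h7]
      exact Nat.zero_le _
  refine level (ASys (Bw a b d j o e)) (span_W (by omega) hb hj o e)
    (fun i => Lam d (mult i) (cell i) j) B hdom (Sum.inl ())
    (fun i => cls d (mult i) (cell i) j) μ hμ
    (fun t => if t ≤ 1 then 0 else ell (a + b) t * ell (a + b) M)
    (ell (a + b) (d + 1 - M) * ell (a + b) M) (if_pos (by omega)) (if_pos (by omega))
    ?_ ?_ ?_ ?_ ?_
  · intro i _ _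
    show ((ASys (Bw a b d j o e)).size (Lam d (mult i) (cell i) j) - 1) *
        (ASys (Bw a b d j o e)).size B ≤
      if cls d (mult i) (cell i) j ≤ 1 then 0
        else ell (a + b) (cls d (mult i) (cell i) j) * ell (a + b) M
    split_ifs with h5
    · have h6 := hsz i 1 h5
      rw [ell_one] at h6
      have h7 : (ASys (Bw a b d j o e)).size (Lam d (mult i) (cell i) j) - 1 = 0 := by omega
      rw [h7, zero_mul]
    · exact Nat.mul_le_mul ((Nat.sub_le _ _).trans (hsz i _ le_rfl)) hB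
  · rintro (i | s) hne _
    · exact absurd rfl hne
    · have h5 := (hA _ (hi s)).2.2
      have h6 : cls d (mult (Sum.inr s)) (cell (Sum.inr s)) j ≤ d + 1 - M := by
        refine (cls_le _).trans ?_
        show s.1.1.1 ≤ d + 1 - M
        omega
      exact Nat.mul_le_mul ((Nat.sub_le _ _).trans (hsz _ _ h6)) hB
  · intro t ht1 htμ
    show (if t + 1 ≤ 1 then 0 else ell (a + b) (t + 1) * ell (a + b) M) ≤ _
    rw [if_neg (by omega)]
    exact (h2 j hj t ht1 htμ).trans (hsumt t)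
  · exact (h3 j hj).trans (hsumt μ)
  · rw [Fintype.card_coe, card_Bw (by omega) hj, Fintype.sum_sum_type]
    refine (h1 j hj).trans (Nat.add_le_add ?_ ?_)
    · refine le_trans (hle (Sum.inl ())) ?_
      rw [Fintype.sum_unique]
    · rw [← hsumF fun m x => wtw d m (Ew a b e) x j]
      exact sum_le_sum fun s _ => hle (Sum.inr s)

end Pool.Agent.H21.TC
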