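import Pool.Agent.H21.TC.Mcr
import Pool.Agent.H51.TB.Asy

/-!
# TC11: the weights of the problem: asymptotics

`Ew a b e (p, q) = multichoose (a - 1) p * mcr (b - 1) e q`; for `q ≤ e` it is `Eg` (`mcr_of_le`), and for `q > e`
`Eg a b (p, q) - Ew a b e (p, q) = multichoose (a - 1) p * multichoose (b - 1) (q - (e + 1)) ≤
multichoose (a + b - 2) (p + q - (e + 1))` (`sum_multichoose`, one term) `≤ ell (a + b - 1) (p + q)`, which is at most
`δ / 2 * ell (a + b - 1) (p + q + 1)` for `a + b` large (ratio `(p + q) / (p + q + a + b - 1)`, see `Lead_ratio` in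
`Pool/Agent/H51/TB/Lead.lean`).  Together with `asy`.  The same for `Bt` with `asy'`, `multichoose a p *
multichoose b (q - (e + 1)) ≤ multichoose (a + b) (d - (e + 1)) ≤ ell (a + b - 1) d`
(`multichoose (n + 1) c = ell n (c + 1)`).
-/

namespace Pool.Agent.H21.TC

open Finset Pool.Agent.H18.Ex Pool.Agent.H21.NX Pool.Agent.H18.Ta Pool.Agent.H51.TB

private theorem EAsyT_mcl (n k : ℕ) : Nat.multichoose n k ≤ Nat.multichoose (n + 1) k := by
  rcases k with _ | k
  · simp
  · rw [Nat.multichoose_succ_succ]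
    exact Nat.le_add_right _ _

private theorem EAsyT_mcr (n k : ℕ) :
    Nat.multichoose (n + 1) k ≤ Nat.multichoose (n + 1) (k + 1) := by
  rw [Nat.multichoose_succ_succ]
  exact Nat.le_add_left _ _

private theorem EAsyT_mono {v w n s t k : ℕ} (hn : v + w ≤ n + 1) (hk : s + t ≤ k) :
    Nat.multichoose v s * Nat.multichoose w t ≤ Nat.multichoose (n + 1) k := by
  have h1 : Nat.multichoose v s * Nat.multichoose w t ≤ Nat.multichoose (v + w) (s + t) := by
    rw [← sum_multichoose]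
    exact Finset.single_le_sum (f := fun g : ℕ × ℕ => Nat.multichoose v g.1 * Nat.multichoose w g.2)
      (fun _ _ => Nat.zero_le _) (mem_antidiagonal.2 rfl : (s, t) ∈ antidiagonal (s + t))
  have h2 : Monotone fun m => Nat.multichoose m (s + t) :=
    monotone_nat_of_le_succ fun m => EAsyT_mcl m _
  have h3 : Monotone fun j => Nat.multichoose (n + 1) j :=
    monotone_nat_of_le_succ fun j => EAsyT_mcr n j
  exact h1.trans ((h2 hn).trans (h3 hk))

private theorem EAsyT_ell (n k : ℕ) : ell n (k + 1) = Nat.multichoose (n + 1) k := by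
  rw [Nat.multichoose_eq]
  unfold ell
  rw [show k + 1 + n - 1 = n + k by omega, show n + 1 + k - 1 = n + k by omega,
    Nat.choose_symm_add]

private theorem EAsyT_ratio {n c : ℕ} (hc : 1 ≤ c) : ell n c * (c + n) = ell n (c + 1) * c := by
  unfold ell
  have := Nat.choose_mul_succ_eq (c + n - 1) n
  rw [show c + n - 1 + 1 = c + n by omega, show c + n - n = c by omega] at this
  rw [this, show c + 1 + n - 1 = c + n by omega]

/-- the terms of smaller degree are small -/
private theorem EAsyT_small (k : ℕ) (δ : ℝ) (hδ : 0 < δ) : ∃ n₁ : ℕ, ∀ n : ℕ, n₁ ≤ n →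
    ∀ v w s t : ℕ, v + w ≤ n + 1 → s + t < k →
      ((Nat.multichoose v s * Nat.multichoose w t : ℕ) : ℝ) ≤ δ * (ell n (k + 1) : ℝ) := by
  obtain ⟨n₁, hn₁⟩ := exists_nat_ge ((k : ℝ) / δ)
  refine ⟨n₁, fun n hn v w s t hv hs => ?_⟩
  have hk : 1 ≤ k := by omega
  have h1 := EAsyT_mono (n := n) (k := k - 1) hv (show s + t ≤ k - 1 by omega)
  rw [← EAsyT_ell, show k - 1 + 1 = k by omega] at h1
  have h2 := EAsyT_ratio (n := n) hk
  have h3 : ((Nat.multichoose v s * Nat.multichoose w t : ℕ) : ℝ) ≤ (ell n k : ℝ) := by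
    exact_mod_cast h1
  have h4 : (ell n k : ℝ) * ((k : ℝ) + n) = (ell n (k + 1) : ℝ) * k := by exact_mod_cast h2
  have h5 : (0 : ℝ) < k := by exact_mod_cast hk
  have h6 : (k : ℝ) ≤ δ * ((k : ℝ) + n) := by
    rw [div_le_iff₀ hδ] at hn₁
    have h7 : (n₁ : ℝ) ≤ n := by exact_mod_cast hn
    have h8 : (n₁ : ℝ) * δ ≤ n * δ := mul_le_mul_of_nonneg_right h7 hδ.le
    nlinarith
  have h7 : (0 : ℝ) < (k : ℝ) + n := by positivity
  have h8 : (0 : ℝ) ≤ (ell n (k + 1) : ℝ) := Nat.cast_nonneg _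
  refine h3.trans (le_of_mul_le_mul_right ?_ h7)
  rw [h4]
  calc (ell n (k + 1) : ℝ) * k ≤ (ell n (k + 1) : ℝ) * (δ * ((k : ℝ) + n)) :=
        mul_le_mul_of_nonneg_left h6 h8
    _ = δ * (ell n (k + 1) : ℝ) * ((k : ℝ) + n) := by ring

private theorem EAsyT_abs {x s y c E δ : ℝ} (h : x + s = y) (hs : 0 ≤ s) (hs' : s ≤ δ / 2 * E)
    (h1 : |y - c| ≤ δ / 2 * E) : |x - c| ≤ δ * E := by
  rw [abs_le] at h1 ⊢
  constructor <;> linarith [h1.1, h1.2]

theorem asy_Ew (e : ℕ) : AsyW fun a b => Ew a b e := by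
  intro p q δ hδ
  obtain ⟨ε, hε, n₀, h⟩ := asy p q (δ / 2) (by linarith)
  obtain ⟨n₁, h1⟩ := EAsyT_small (p + q) (δ / 2) (by linarith)
  refine ⟨ε, hε, max n₀ (n₁ + 1), fun a b ha hb hn hab => ?_⟩
  have hn0 : n₀ ≤ a + b := (le_max_left _ _).trans hn
  have hn1 : n₁ + 1 ≤ a + b := (le_max_right _ _).trans hn
  have h2 := h a b (by omega) (by omega) hn0 hab
  have hE : (0 : ℝ) ≤ (ell (a + b - 1) (p + q + 1) : ℝ) := Nat.cast_nonneg _
  show |(Ew a b e (p, q) : ℝ) - _| ≤ _
  rcases Nat.lt_or_ge e q with hq | hq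
  · have h3 := mcr_add (n := b - 1) (e := e) (v := q) (by omega) hq
    have h4 : Ew a b e (p, q) + Nat.multichoose (a - 1) p * Nat.multichoose (b - 1) (q - (e + 1)) =
        Nat.multichoose (a - 1) p * Nat.multichoose (b - 1) q := by
      unfold Ew
      rw [← mul_add, h3]
    have h5 := h1 (a + b - 1) (by omega) (a - 1) (b - 1) p (q - (e + 1)) (by omega) (by omega)
    refine EAsyT_abs ?_ (Nat.cast_nonneg _) h5 h2
    exact_mod_cast h4
  · have h3 : Ew a b e (p, q) = Nat.multichoose (a - 1) p * Nat.multichoose (b - 1) q := by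
      unfold Ew
      rw [mcr_of_le (by omega) hq]
    rw [h3]
    refine EAsyT_abs (s := 0) (add_zero _) le_rfl (by positivity) h2

theorem asy_Bt (d e : ℕ) : AsyB d fun a b => Bt a b d e := by
  intro q hqd δ hδ
  obtain ⟨ε, hε, n₀, h⟩ := asy' (d - q) q (δ / 2) (by linarith)
  obtain ⟨n₁, h1⟩ := EAsyT_small d (δ / 2) (by linarith)
  refine ⟨ε, hε, max n₀ (n₁ + 1), fun a b ha hb hn hab => ?_⟩
  have hn0 : n₀ ≤ a + b := (le_max_left _ _).trans hn
  have hn1 : n₁ + 1 ≤ a + b := (le_max_right _ _).trans hn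
  have h2 := h a b (by omega) (by omega) hn0 hab
  rw [Nat.sub_add_cancel hqd] at h2
  have hE : (0 : ℝ) ≤ (ell (a + b - 1) (d + 1) : ℝ) := Nat.cast_nonneg _
  show |(Bt a b d e q : ℝ) - _| ≤ _
  rcases Nat.lt_or_ge e q with hq | hq
  · have h3 := mcr_add (n := b) (e := e) (v := q) (by omega) hq
    have h4 : Bt a b d e q + Nat.multichoose a (d - q) * Nat.multichoose b (q - (e + 1)) =
        Nat.multichoose a (d - q) * Nat.multichoose b q := by
      unfold Bt
      rw [← mul_add, h3]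
    have h5 := h1 (a + b - 1) (by omega) a b (d - q) (q - (e + 1)) (by omega) (by omega)
    refine EAsyT_abs ?_ (Nat.cast_nonneg _) h5 h2
    exact_mod_cast h4
  · have h3 : Bt a b d e q = Nat.multichoose a (d - q) * Nat.multichoose b q := by
      unfold Bt
      rw [mcr_of_le (by omega) hq]
    rw [h3]
    refine EAsyT_abs (s := 0) (add_zero _) le_rfl (by positivity) h2

end Pool.Agent.H21.TC
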