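import Pool.Agent.H21.TC.Cnt
import Pool.Agent.H21.TC.Num
import Pool.Agent.H21.TC.EAsy
import Pool.Agent.H51.TB.Sub
import Pool.Agent.H51.TB.Ridx

/-!
# TC15: the core theorem, `e ≥ 1`

As `core` in `Pool/Agent/H51/TB/Core.lean` (complete; copy it, with its private lemmas; see also
`UCore.lean`).  For every `e` with `1 ≤ e ≤ d` apply `numw` to `W a b = Ew a b e`, `B a b = Bt a b d e`
(`isWt_Ew`, `asy_Ew`, `asy_Bt`) and take the maximum of the finitely many `n₀`.  `lamw_Ew`: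
`lamw m (Ew a b e) = lam (a + b - 1) e m`; `sum_Bt`: `∑ B = ell r (d + 1) - ell r (d - e)`.  `choose_part` is used
with `w = lam r e`, `B = ell r d` (`lam r e m ≤ ell r m ≤ ell r d`), `e₀ = lam r e M`,
`N = ell r (d + 1) - ell r (d - e)`; `2 * lam r e M ≤ N` since `4 * ell r d ≤ ell r (d + 1)` for large `r`
(`grow_one`), `1 ≤ M ≤ d - 1`.  In its last alternative `N ≤ 2 * (T.count μ * lam r e μ)`, so
`ell r (d + 1) / 2 ≤ N ≤ 2 * (T.count μ * ell r μ)`.  (`m₀` of `numw` is `M`.)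
-/

namespace Pool.Agent.H21.TC

open Finset Pool.Agent.H18.Ex Pool.Agent.H21.NX Pool.Agent.H18.Ta Pool.Agent.H51.TB

private theorem CoreT_ell_up (r c : ℕ) (hr : 1 ≤ r) : ell (r - 1) (c + 1) ≤ ell r (c + 1) := by
  obtain ⟨k, rfl⟩ : ∃ k, r = k + 1 := ⟨r - 1, by omega⟩
  rw [Nat.add_sub_cancel, ell_succ k c]
  exact Nat.le_add_left _ _

private theorem CoreT_sum_replicate (d : ℕ) (T : Multiset ℕ) (hT : ∀ m ∈ T, m ≤ d) :
    ∑ m ∈ range (d + 1), Multiset.replicate (T.count m) m = T := by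
  ext x
  rw [Multiset.count_sum']
  simp only [Multiset.count_replicate]
  by_cases hx : x ∈ T
  · have h1 : x ∈ range (d + 1) := mem_range.2 (Nat.lt_succ_of_le (hT x hx))
    rw [Finset.sum_ite_eq' (range (d + 1)) x (fun m => T.count m), if_pos h1]
  · rw [Multiset.count_eq_zero_of_notMem hx]
    apply Finset.sum_eq_zero
    intro m _
    split_ifs with h
    · rw [h]
      exact Multiset.count_eq_zero_of_notMem hx
    · rfl

private theorem CoreT_sum_tot (w : ℕ → ℕ) (d : ℕ) (T : Multiset ℕ) (hT : ∀ m ∈ T, m ≤ d) :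
    ∑ m ∈ range (d + 1), T.count m * w m = (T.map w).sum := by
  rw [Finset.sum_multiset_map_count]
  symm
  have h1 : T.toFinset ⊆ range (d + 1) := by
    intro x hx
    exact mem_range.2 (Nat.lt_succ_of_le (hT x (Multiset.mem_toFinset.1 hx)))
  refine (Finset.sum_subset h1 ?_).trans ?_
  · intro x _ hx
    rw [Multiset.mem_toFinset] at hx
    rw [Multiset.count_eq_zero_of_notMem hx, zero_smul]
  · exact Finset.sum_congr rfl fun m _ => smul_eq_mul _ _

theorem core_W (d : ℕ) (η : ℝ) (hη : 0 < η) : ∃ r₀ : ℕ, ∀ r : ℕ, r₀ ≤ r → ∀ (e M μ : ℕ)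
    (S : Multiset ℕ), 1 ≤ e → e ≤ d → 1 ≤ μ → μ ≤ M → μ + M ≤ d →
    (∀ m ∈ S, 1 ≤ m ∧ m ≤ M ∧ m + M ≤ d + 1) →
    ell r (d + 1) ≤ ell r (d - e) + lam r e M + (S.map (lam r e)).sum →
    η * (ell r (d + 1) : ℝ) ≤ ((S.count μ * ell r μ : ℕ) : ℝ) →
    GM (Sx (Fin (r + 1)) d) (((d - e) ::ₘ M ::ₘ S).map Kind.free) := by
  have hnumw := fun e => numw d (min η (1 / 4)) (lt_min hη (by norm_num)) (fun a b => Ew a b (e + 1))
    (fun a b ha hb => isWt_Ew ha hb (Nat.le_add_left 1 e)) (asy_Ew (e + 1))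
    (fun a b => Bt a b d (e + 1)) (asy_Bt d (e + 1))
  choose f hf using hnumw
  obtain ⟨n₂, h₂⟩ := grow_one d 4
  refine ⟨max ((range (d + 1)).sup f) (max n₂ 1),
    fun r hr e M μ S he1 hed hμ hμM hM hS hN hη' => ?_⟩
  obtain ⟨e', rfl⟩ : ∃ e', e = e' + 1 := ⟨e - 1, by omega⟩
  have hr1 : f e' ≤ r + 1 := by
    have h1 : f e' ≤ (range (d + 1)).sup f := Finset.le_sup (mem_range.2 (by omega))
    exact (h1.trans ((le_max_left _ _).trans hr)).trans (Nat.le_succ r)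
  have hr2 : n₂ ≤ r := ((le_max_left _ _).trans (le_max_right _ _)).trans hr
  have hr3 : 1 ≤ r := ((le_max_right _ _).trans (le_max_right _ _)).trans hr
  have hsmall : ∀ m, m ≤ d → 4 * ell r m ≤ ell r (d + 1) := by
    intro m hm
    have h3 := h₂ r hr2 m hm
    have h4 : 4 * ell r m ≤ ell (r - 1) (d + 1) := by exact_mod_cast h3
    exact h4.trans (CoreT_ell_up r d hr3)
  have hlam : ∀ m, lam r (e' + 1) m ≤ ell r m := fun m => Nat.sub_le _ _
  obtain ⟨N, hNdef⟩ : ∃ N, N = ell r (d + 1) - ell r (d - (e' + 1)) := ⟨_, rfl⟩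
  have hde := hsmall (d - (e' + 1)) (Nat.sub_le _ _)
  have hMs := hsmall M (by omega)
  have hlM := hlam M
  have he : 2 * lam r (e' + 1) M ≤ N := by omega
  obtain ⟨T, hTS, hT1, hT2, hT3⟩ := choose_part (lam r (e' + 1)) (ell r d) N
    (lam r (e' + 1) M) μ S
    (fun m hm => (hlam m).trans (ell_mono r (by have := hS m hm; omega))) he (by omega)
  have hTm : ∀ m ∈ T, 1 ≤ m ∧ m ≤ M ∧ m + M ≤ d + 1 := fun m hm => hS m (Multiset.mem_of_le hTS hm)
  have hTd : ∀ m ∈ T, m ≤ d := fun m hm => by have := hTm m hm; omega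
  have hsum := CoreT_sum_tot (lam r (e' + 1)) d T hTd
  obtain ⟨a, b, ha, hb, hab, hnum⟩ := hf e' (r + 1) hr1
  have habr : a + b - 1 = r := by omega
  have hA : ∀ m, T.count m ≠ 0 → 1 ≤ m ∧ m ≤ M ∧ m + M ≤ d + 1 := fun m hm =>
    hTm m (Multiset.count_ne_zero.1 hm)
  have hlw : ∀ m, lamw m (Ew a b (e' + 1)) = lam r (e' + 1) m := fun m => by
    rw [lamw_Ew ha hb, habr]
  have hB : ∑ i ∈ range (d + 1), Bt a b d (e' + 1) i = N := by
    have h5 := sum_Bt (a := a) (b := b) (d := d) (e := e' + 1) (by omega) (by omega) hed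
    rw [habr] at h5
    omega
  have hsum' : ∑ m ∈ range (d + 1), T.count m * lamw m (Ew a b (e' + 1)) =
      (T.map (lam r (e' + 1))).sum := by
    rw [← hsum]
    exact Finset.sum_congr rfl fun m _ => by rw [hlw]
  have hdom : min η (1 / 4) * (ell r (d + 1) : ℝ) ≤ ((T.count μ * ell r μ : ℕ) : ℝ) := by
    have h0 : (0 : ℝ) ≤ (ell r (d + 1) : ℝ) := Nat.cast_nonneg _
    rcases hT3 with h | h
    · rw [h]
      exact (mul_le_mul_of_nonneg_right (min_le_left _ _) h0).trans hη'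
    · have h5 : ell r (d + 1) ≤ 4 * (T.count μ * ell r μ) := by
        have h7 : T.count μ * lam r (e' + 1) μ ≤ T.count μ * ell r μ :=
          Nat.mul_le_mul_left _ (hlam μ)
        omega
      have h5' : (ell r (d + 1) : ℝ) ≤ 4 * ((T.count μ * ell r μ : ℕ) : ℝ) := by exact_mod_cast h5
      have h6 := mul_le_mul_of_nonneg_right (min_le_right η (1 / 4)) h0
      linarith
  obtain ⟨c, hc, k1, k2, k3⟩ := hnum M μ M (fun m => T.count m) hμ hμM hM (by omega) hA
    (by rw [hlw, hsum', hB]; exact hT1)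
    (by rw [hlw, hsum', hB, habr]; exact hT2) (by rw [habr]; exact hdom)
  have hGM := GM_of_counts_W ha hb hμ hμM hM hed (fun m => T.count m) hA c hc k1 k2 k3
  rw [CoreT_sum_replicate d T hTd] at hGM
  have hGM2 := GM_equiv (finSumFinEquiv.trans (finCongr hab)) d ((d - (e' + 1)) ::ₘ M ::ₘ T) hGM
  exact GM.mono (Multiset.map_le_map ((Multiset.cons_le_cons_iff _).2
    ((Multiset.cons_le_cons_iff M).2 hTS))) hGM2

end Pool.Agent.H21.TC
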