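import Pool.Agent.H51.TB.UDefs
import Pool.Agent.H51.TB.Tot

/-!
# Project TB3 (TC): one point of arbitrary multiplicity

The point of multiplicity `m₀ = d - e` is put at the coordinate point of the `Y`-variable `o`: the forms
are those with exponents `α` with `α_o ≤ e`.  Then only the *weights* change: a derivative bidegree
`g` of a point gives `Ew a b e g` conditions (the derivatives of order at most `e` at `o`) instead of
`Eg a b g`, and the level `j` has dimension `Bt a b d e j` instead of `bet a b d j`.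

`W : ℕ → ℕ → ℕ × ℕ → ℕ` (`W a b g`) is a general system of weights and `B : ℕ → ℕ → ℕ → ℕ`
(`B a b j`) a general system of dimensions; the numerical part is done for them.
-/

namespace Pool.Agent.H21.TC

open Finset MvPolynomial Pool.Agent.H18.Ex Pool.Agent.H21.NX Pool.Agent.H18.Ta Pool.Agent.H51.TB

/-! ### General weights -/

/-- The number of conditions on the level `j` for the weight `w`. -/
def wtw (d m : ℕ) (w : ℕ × ℕ → ℕ) (c : ℕ × ℕ) (j : ℕ) : ℕ := ∑ g ∈ Lam d m c j, w g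

/-- The number of conditions moved (see `Mv`). -/
def Mvw (d m : ℕ) (w : ℕ × ℕ → ℕ) (s ρ : ℕ) : ℕ :=
  ∑ g ∈ (range m ×ˢ range m).filter fun g : ℕ × ℕ =>
    g.1 + g.2 + ρ + 1 = m ∧ g.2 ≤ s ∧ g.1 + s + ρ + 1 ≤ d, w g

/-- The number of conditions on the levels `0, …, j`. -/
def Prw (d m : ℕ) (w : ℕ × ℕ → ℕ) (c : ℕ × ℕ) (j : ℕ) : ℕ := ∑ i ∈ range (j + 1), wtw d m w c i

/-- The total number of conditions. -/
def lamw (m : ℕ) (w : ℕ × ℕ → ℕ) : ℕ :=
  ∑ g ∈ range m ×ˢ range m, (m - (g.1 + g.2)) * w g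

/-- The properties of the weights which are used in the exact adjustment. -/
structure IsWt (a b : ℕ) (w : ℕ × ℕ → ℕ) : Prop where
  le : ∀ g, w g ≤ Eg a b g
  zero : ∀ t, w (t, 0) = Nat.multichoose (a - 1) t
  one : w (0, 1) = b - 1

/-- The asymptotic behaviour of the weights. -/
def AsyW (W : ℕ → ℕ → ℕ × ℕ → ℕ) : Prop :=
  ∀ (p q : ℕ) (δ : ℝ), 0 < δ → ∃ ε : ℝ, 0 < ε ∧ ∃ n₀ : ℕ, ∀ a b : ℕ, 2 ≤ a → 2 ≤ b →
    n₀ ≤ a + b → |(a : ℝ) - b| ≤ ε * (a + b : ℕ) →
    |(W a b (p, q) : ℝ) -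
      ((p + q).choose q : ℝ) / 2 ^ (p + q) * (ell (a + b - 1) (p + q + 1) : ℝ)| ≤
      δ * (ell (a + b - 1) (p + q + 1) : ℝ)

/-- The asymptotic behaviour of the dimensions of the levels. -/
def AsyB (d : ℕ) (B : ℕ → ℕ → ℕ → ℕ) : Prop :=
  ∀ q ≤ d, ∀ δ : ℝ, 0 < δ → ∃ ε : ℝ, 0 < ε ∧ ∃ n₀ : ℕ, ∀ a b : ℕ, 2 ≤ a → 2 ≤ b →
    n₀ ≤ a + b → |(a : ℝ) - b| ≤ ε * (a + b : ℕ) →
    |(B a b q : ℝ) - (d.choose q : ℝ) / 2 ^ d * (ell (a + b - 1) (d + 1) : ℝ)| ≤
      δ * (ell (a + b - 1) (d + 1) : ℝ)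

/-! ### The weights of the problem -/

/-- The number of monomials of degree `v` in `n ≥ 1` variables with the first exponent at most `e`. -/
def mcr (n e v : ℕ) : ℕ := ∑ i ∈ range (min e v + 1), Nat.multichoose (n - 1) (v - i)

/-- The number of new derivatives of bidegree `g` of order at most `e` at one fixed `Y`-variable. -/
def Ew (a b e : ℕ) (g : ℕ × ℕ) : ℕ := Nat.multichoose (a - 1) g.1 * mcr (b - 1) e g.2

/-- The dimension of the level `j`. -/
def Bt (a b d e j : ℕ) : ℕ := Nat.multichoose a (d - j) * mcr b e j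

/-- The number of conditions of a point of multiplicity `m` on the forms with a point of
multiplicity `d - e`. -/
def lam (r e m : ℕ) : ℕ := ell r m - ell r (m - (e + 1))

/-- The exponents of the level `j` with exponent at most `e` at the `Y`-variable `o`. -/
def Bw (a b d j : ℕ) (o : Fin b) (e : ℕ) : Finset (Z a b → ℕ) :=
  (Bx a b d j).filter fun α => α (Sum.inr o) ≤ e

end Pool.Agent.H21.TC
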