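import Pool.Agent.H21.TC.Defs
import Pool.Agent.H21.HD.BridgeC
import Pool.Agent.H21.NX.Single
import Pool.Agent.H21.NX.Window

/-!
# TC17: the lower bound for the dimension

Add the points `j ≠ i₀` one after the other.  `finrank_fat_le_add` (`Pool/Agent/H21/HD/BridgeC.lean`), applied
with `i₀ := j`, `e := d + 1 - m j` to the multiplicities already present (`0` for the others): the dimension
drops by at most `dim V_{m j - 1}` of the multiplicities `m i - (d + 1 - m j)`, which is `0` for all points
already present except the point `i₀` (`m i + m j ≤ d + 1`), where it is `m i₀ + m j - (d + 1)`.  For a general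
position this dimension is `binom (m j - 1 + r, r) - ell r (m i₀ + m j - (d + 1)) = ell r (m j) -
ell r (m i₀ + m j - (d + 1))`: it is at least this (not needed) and at most this for general points
(`gdim_single`, with multiplicity `m i₀ + m j - (d + 1) ≤ m j`, `choose_eq_ell`; `general_finrank_le` or `gdim`
to pass to general points; points of multiplicity `0` give no condition).  The start is
`dim V_d(m i₀) ≥ binom (d + r, r) - ell r (m i₀)` (`finrank_fatForms_ge`, points with first coordinate `≠ 0`:
`ForGeneralPoints.coord_ne_zero`).  All this for the points `p` in one open set: the finitely many `j`.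
(`Function.update` or `fun i => if i ∈ A then m i else 0` with induction over the finset `A`.)
-/

namespace Pool.Agent.H21.TC

open Finset MvPolynomial Pool.Agent.H18.Fat Pool.Agent.H18.Ex Pool.Agent.H21.NX Pool.Agent.H51.TB

/-- The multiplicities of the points of `A`. -/
private def LowT_mu {k : ℕ} (m : Fin k → ℕ) (A : Finset (Fin k)) (i : Fin k) : ℕ :=
  if i ∈ A then m i else 0

private theorem LowT_single_le (r d k : ℕ) (hr : 1 ≤ r) (i₀ : Fin k) (t : ℕ) (ht : t ≤ d + 1) :
    gdim r d (fun i : Fin k => if i = i₀ then t else 0) + ell r t ≤ ell r (d + 1) := by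
  have h1 := gdim_single r d hr t ht
  rw [WindowX.choose_eq_ell] at h1
  obtain ⟨p₀, hp₀⟩ := GenBX.gdim_attained r d (fun _ : Unit => t)
  have h2 := gdim_le r d (fun i : Fin k => if i = i₀ then t else 0) (fun _ => p₀ ())
  have hfin := GenBX.finite_fat (d := d) p₀ (fun _ : Unit => t)
  have h3 : Module.finrank ℂ (fatForms r d (fun _ : Fin k => p₀ ())
      (fun i : Fin k => if i = i₀ then t else 0)) ≤
      Module.finrank ℂ (fatForms r d p₀ (fun _ : Unit => t)) := by
    apply Submodule.finrank_mono
    intro F hF
    refine ⟨hF.1, fun i => ?_⟩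
    have h4 := hF.2 i₀
    simp only [if_true] at h4
    exact h4
  omega

private theorem LowT_step {r d k : ℕ} (hr : 1 ≤ r) (m : Fin k → ℕ) (i₀ : Fin k)
    (hm : ∀ i, 1 ≤ m i ∧ m i ≤ d)
    (hp : ∀ i j, i ≠ j → i ≠ i₀ → j ≠ i₀ → m i + m j ≤ d + 1)
    (p : Fin k → Fin (r + 1) → ℂ)
    (hcoord : ∀ i, p i 0 ≠ 0)
    (hgen : ∀ j : Fin k, Module.finrank ℂ (fatForms r (m j - 1) p
      (fun i : Fin k => if i = i₀ then m j + m i₀ - (d + 1) else 0)) =
        gdim r (m j - 1) (fun i : Fin k => if i = i₀ then m j + m i₀ - (d + 1) else 0))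
    (A : Finset (Fin k)) (hA : i₀ ∉ A) :
    (d + r).choose r + ∑ i ∈ A, ell r (m i + m i₀ - (d + 1)) ≤
        Module.finrank ℂ (fatForms r d p (LowT_mu m (insert i₀ A))) +
          ∑ i ∈ insert i₀ A, ell r (m i) := by
  classical
  induction A using Finset.induction_on with
  | empty =>
    have h1 := finrank_fatForms_ge (d := d) hr hcoord (LowT_mu m (insert i₀ ∅))
    have h2 : ∑ i, ((LowT_mu m (insert i₀ ∅) i + r - 1).choose r : ℤ) =
        ((∑ i ∈ insert i₀ (∅ : Finset (Fin k)), ell r (m i) : ℕ) : ℤ) := by
      rw [Finset.sum_eq_single i₀]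
      · simp [LowT_mu, ell]
      · intro b _ hb
        have h3 : LowT_mu m (insert i₀ ∅) b = 0 := by simp [LowT_mu, hb]
        rw [h3]
        have h4 := ell_zero hr
        unfold ell at h4
        exact_mod_cast h4
      · intro h
        exact absurd (mem_univ _) h
    rw [h2] at h1
    rw [Finset.sum_empty, add_zero]
    omega
  | insert j A hjA ih =>
    have hji : j ≠ i₀ := fun h => hA (by rw [← h]; exact mem_insert_self j A)
    have hiA : i₀ ∉ A := fun h => hA (mem_insert_of_mem h)
    have ih := ih hiA
    obtain ⟨hj1, hjd⟩ := hm j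
    have hi₀ := hm i₀
    have h0 : LowT_mu m (insert i₀ A) j = 0 := by simp [LowT_mu, hji, hjA]
    have h1 := Pool.Agent.H21.HD.finrank_fat_le_add d p (LowT_mu m (insert i₀ A)) j (d + 1 - m j)
      (by omega) h0
    obtain ⟨B, hB⟩ : ∃ B, B = insert i₀ A := ⟨_, rfl⟩
    obtain ⟨C, hC⟩ : ∃ C, C = insert i₀ (insert j A) := ⟨_, rfl⟩
    have h2 : ∀ inst : DecidableEq (Fin k),
        @Function.update (Fin k) (fun _ => ℕ) inst (LowT_mu m B) j
          (d + 1 - (d + 1 - m j)) = LowT_mu m C := by
      intro inst
      rw [hB, hC]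
      funext i
      by_cases hij : i = j
      · subst hij
        rw [Function.update_self]
        simp only [LowT_mu, mem_insert, true_or, or_true, if_true]
        omega
      · rw [Function.update_of_ne hij]
        simp [LowT_mu, hij]
    have h3 : (fun i => LowT_mu m (insert i₀ A) i - (d + 1 - m j)) =
        (fun i : Fin k => if i = i₀ then m j + m i₀ - (d + 1) else 0) := by
      funext i
      by_cases hii : i = i₀
      · subst hii
        simp only [LowT_mu, mem_insert, true_or, if_true]
        omega
      · rw [if_neg hii]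
        unfold LowT_mu
        split_ifs with hi
        · have hiA' : i ∈ A := (mem_insert.1 hi).resolve_left hii
          have hij : i ≠ j := fun h => hjA (h ▸ hiA')
          have := hp i j hij hii hji
          omega
        · omega
    have h4 : d - (d + 1 - m j) = m j - 1 := by omega
    rw [h3, h4, hgen j, ← hB, h2, hB, hC] at h1
    have h5 := LowT_single_le r (m j - 1) k hr i₀ (m j + m i₀ - (d + 1)) (by omega)
    rw [show m j - 1 + 1 = m j by omega] at h5
    have h6 : ∑ i ∈ insert i₀ (insert j A), ell r (m i) =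
        ell r (m j) + ∑ i ∈ insert i₀ A, ell r (m i) := by
      rw [Finset.sum_insert hA, Finset.sum_insert hjA, Finset.sum_insert hiA]
      ring
    rw [Finset.sum_insert hjA, h6]
    omega

theorem low (r d k : ℕ) (hr : 1 ≤ r) (m : Fin k → ℕ) (i₀ : Fin k) (hm : ∀ i, 1 ≤ m i ∧ m i ≤ d)
    (hp : ∀ i j, i ≠ j → i ≠ i₀ → j ≠ i₀ → m i + m j ≤ d + 1) :
    ForGeneralPoints r k fun p =>
      (d + r).choose r + ∑ i ∈ univ.erase i₀, ell r (m i + m i₀ - (d + 1)) ≤
        Module.finrank ℂ (fatForms r d p m) + ∑ i, ell r (m i) := by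
  classical
  have h1 : Gen r (Fin k) fun p => ∀ j ∈ (univ : Finset (Fin k)),
      Module.finrank ℂ (fatForms r (m j - 1) p
        (fun i : Fin k => if i = i₀ then m j + m i₀ - (d + 1) else 0)) =
          gdim r (m j - 1) (fun i : Fin k => if i = i₀ then m j + m i₀ - (d + 1) else 0) :=
    Gen.all univ fun j _ => gen_gdim r (m j - 1) _
  refine (h1.and (Gen.coord_ne_zero r (Fin k))).mono fun p hP => ?_
  have h2 := LowT_step hr m i₀ hm hp p (fun i => hP.2 i 0) (fun j => hP.1 j (mem_univ j))
    (univ.erase i₀) (notMem_erase i₀ _)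
  rw [insert_erase (mem_univ i₀)] at h2
  have h3 : LowT_mu m univ = m := by
    funext i
    simp [LowT_mu]
  rw [h3] at h2
  exact h2

end Pool.Agent.H21.TC
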