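import Pool.Agent.H21.TC.Defs
import Pool.Agent.H51.TB.UPt

/-!
# TC18: two large points and simple points

`GM_cons'`: the proof of `GM_cons` (`Pool/Agent/H51/TB/UPt.lean`) for a subset `A` of `Sx ι d`.

`card_two`: for `o ≠ o'` the number of the `α ∈ Sx (Fin (r + 1)) d` with `α o > e` is `ell r (d - e)` (subtract
`e + 1`: `Sx _ (d - e - 1)`, `card = multichoose (r + 1) (d - e - 1) = ell r (d - e)`; `0` if `e = d`), those with
`α o' ≥ 1`: `ell r d`, those with both: `ell r (d - e - 1)`; inclusion and exclusion.  `lam r e d = ell r d -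
ell r (d - (e + 1))`.

`two_large`: `GM_cons'` for `o = 0` (`M = d - e`), then for `o' = 1` (`M = d`), then `GM.of_card`
(`A.card ≤ X` simple points).
-/

namespace Pool.Agent.H21.TC

open Finset Pool.Agent.H18.Ex Pool.Agent.H21.NX Pool.Agent.H18.Ta Pool.Agent.H51.TB

private theorem TwoT_tcr_eq {ι : Type} [Fintype ι] [DecidableEq ι] (o : ι) (a : ι → ℕ) :
    tcr (fun i => if i = o then (1 : ℂ) else 0) a (Function.update a o 0) = 1 := by
  unfold tcr
  refine prod_eq_one fun i _ => ?_
  beta_reduce
  by_cases hi : i = o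
  · subst hi
    rw [Function.update_self, if_pos rfl, Nat.choose_zero_right, one_pow, Nat.cast_one, one_mul]
  · rw [Function.update_of_ne hi, if_neg hi, Nat.choose_self, Nat.sub_self, pow_zero, Nat.cast_one,
      one_mul]

private theorem TwoT_tcr_zero {ι : Type} [Fintype ι] [DecidableEq ι] (o : ι) (a c : ι → ℕ)
    (h : ∑ i, a i = ∑ i, c i) (hne : c ≠ a) :
    tcr (fun i => if i = o then (1 : ℂ) else 0) c (Function.update a o 0) = 0 := by
  by_contra h00
  apply hne
  unfold tcr at h00
  have h0 := prod_ne_zero_iff.1 h00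
  have h1 : ∀ i, i ≠ o → c i = a i := by
    intro i hi
    have h2 := h0 i (mem_univ i)
    beta_reduce at h2
    rw [Function.update_of_ne hi, if_neg hi] at h2
    have h3 : ((c i).choose (a i) : ℂ) ≠ 0 := left_ne_zero_of_mul h2
    have h4 : (0 : ℂ) ^ (c i - a i) ≠ 0 := right_ne_zero_of_mul h2
    have h5 : a i ≤ c i := by
      by_contra h6
      apply h3
      rw [Nat.choose_eq_zero_of_lt (by omega), Nat.cast_zero]
    have h7 : c i - a i = 0 := by
      by_contra h8
      exact h4 (zero_pow h8)
    omega
  have h9 : c o = a o := by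
    have e1 := Finset.add_sum_erase univ a (mem_univ o)
    have e2 := Finset.add_sum_erase univ c (mem_univ o)
    have e3 : ∑ i ∈ univ.erase o, c i = ∑ i ∈ univ.erase o, a i :=
      sum_congr rfl fun i hi => h1 i (ne_of_mem_erase hi)
    omega
  funext i
  by_cases hi : i = o
  · rw [hi]; exact h9
  · exact h1 i hi

theorem GM_cons' {ι : Type} [Fintype ι] [DecidableEq ι] (o : ι) (d M : ℕ) (A : Finset (ι → ℕ))
    (hA : A ⊆ Sx ι d) (S : Multiset (Kind ι)) (h : GM (A.filter fun α => α o + M ≤ d) S) :
    GM A (Kind.free M ::ₘ S) := by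
  obtain ⟨n, k, rfl, pos, hpos⟩ := h
  refine ⟨n + 1, Fin.cons (Kind.free M) k, ?_,
    Fin.cons (fun i => if i = o then (1 : ℂ) else 0) pos, ?_⟩
  · rw [Fin.univ_val_map, Fin.univ_val_map, List.ofFn_cons]
    rfl
  · intro f hf
    have hz : ∀ a ∈ A, d < a o + M → f a = 0 := by
      intro a ha hao
      have h1 := hf 0 (Function.update a o 0)
      rw [Fin.cons_zero, Fin.cons_zero] at h1
      have ha' := mem_Sx.1 (hA ha)
      have h2 : ∑ i, Function.update a o 0 i < M := by
        have e1 := Finset.add_sum_erase univ a (mem_univ o)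
        have e2 := Finset.add_sum_erase univ (Function.update a o 0) (mem_univ o)
        have e3 : ∑ i ∈ univ.erase o, Function.update a o 0 i = ∑ i ∈ univ.erase o, a i :=
          sum_congr rfl fun i hi => Function.update_of_ne (ne_of_mem_erase hi) _ _
        rw [Function.update_self] at e2
        omega
      have h3 := h1 h2
      rw [sum_eq_single a] at h3
      · have h4 : (Kind.free M : Kind ι).pt (fun i => if i = o then (1 : ℂ) else 0) =
            fun i => if i = o then (1 : ℂ) else 0 := rfl
        rw [h4, TwoT_tcr_eq, mul_one] at h3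
        exact h3
      · intro c hc hca
        have h4 : (Kind.free M : Kind ι).pt (fun i => if i = o then (1 : ℂ) else 0) =
            fun i => if i = o then (1 : ℂ) else 0 := rfl
        rw [h4, TwoT_tcr_zero o a c (by rw [ha', mem_Sx.1 (hA hc)]) hca, mul_zero]
      · intro hn
        exact absurd ha hn
    have hA' : ∀ a ∈ A.filter fun α => α o + M ≤ d, f a = 0 := by
      refine hpos f fun j b hb => ?_
      have h1 := hf j.succ b
      rw [Fin.cons_succ, Fin.cons_succ] at h1
      rw [← h1 hb]
      refine sum_subset (filter_subset _ _) fun a ha hna => ?_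
      rw [mem_filter, not_and] at hna
      rw [hz a ha (by have := hna ha; omega), zero_mul]
    intro a ha
    by_cases hao : a o + M ≤ d
    · exact hA' a (mem_filter.2 ⟨ha, hao⟩)
    · exact hz a ha (by omega)

private theorem TwoT_update {r : ℕ} (α : Fin (r + 1) → ℕ) (o : Fin (r + 1)) (v : ℕ) :
    ∑ i, Function.update α o v i + α o = ∑ i, α i + v := by
  have e1 := Finset.add_sum_erase univ α (mem_univ o)
  have e2 := Finset.add_sum_erase univ (Function.update α o v) (mem_univ o)
  have e3 : ∑ i ∈ univ.erase o, Function.update α o v i = ∑ i ∈ univ.erase o, α i :=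
    sum_congr rfl fun i hi => Function.update_of_ne (ne_of_mem_erase hi) _ _
  rw [Function.update_self] at e2
  omega

private theorem TwoT_card_Sx (r n : ℕ) : (Sx (Fin (r + 1)) n).card = ell r (n + 1) := by
  have h : (Sx (Fin (r + 1)) n).card = Nat.multichoose (Fintype.card (Fin (r + 1))) n := by
    rw [← card_univ, ← card_finsuppAntidiag_nat_eq_multichoose]
    symm
    apply card_bij (fun (α : Fin (r + 1) →₀ ℕ) _ => (⇑α : Fin (r + 1) → ℕ))
    · intro α hα
      rw [mem_finsuppAntidiag] at hα
      exact mem_Sx.2 hα.1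
    · intro α _ β _ h
      exact DFunLike.coe_injective h
    · intro f hf
      refine ⟨Finsupp.equivFunOnFinite.symm f, ?_, rfl⟩
      rw [mem_finsuppAntidiag]
      exact ⟨mem_Sx.1 hf, subset_univ _⟩
  rw [h, Fintype.card_fin, Nat.multichoose_eq]
  unfold ell
  have h1 : r + 1 + n - 1 = r + n := by omega
  have h2 : n + 1 + r - 1 = r + n := by omega
  rw [h1, h2]
  exact Nat.choose_symm_add.symm

/-- The number of the exponents with `α o ≥ s`, `α o' ≥ t`. -/
private theorem TwoT_hi {r d : ℕ} (hr : 1 ≤ r) (o o' : Fin (r + 1)) (h : o ≠ o') (s t : ℕ) :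
    ((Sx (Fin (r + 1)) d).filter fun α => s ≤ α o ∧ t ≤ α o').card = ell r (d + 1 - (s + t)) := by
  by_cases hst : s + t ≤ d
  · have h1 : d + 1 - (s + t) = (d - (s + t)) + 1 := by omega
    rw [h1, ← TwoT_card_Sx]
    symm
    refine card_bij'
      (fun α _ => Function.update (Function.update α o (α o + s)) o' (α o' + t))
      (fun α _ => Function.update (Function.update α o (α o - s)) o' (α o' - t)) ?_ ?_ ?_ ?_
    · intro α hα
      rw [mem_Sx] at hα
      have h2 := TwoT_update α o (α o + s)
      have h3 := TwoT_update (Function.update α o (α o + s)) o' (α o' + t)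
      rw [Function.update_of_ne h.symm] at h3
      rw [mem_filter, mem_Sx, Function.update_self, Function.update_of_ne h, Function.update_self]
      omega
    · intro α hα
      rw [mem_filter, mem_Sx] at hα
      have h2 := TwoT_update α o (α o - s)
      have h3 := TwoT_update (Function.update α o (α o - s)) o' (α o' - t)
      rw [Function.update_of_ne h.symm] at h3
      rw [mem_Sx]
      omega
    · intro α _
      funext i
      by_cases hi' : i = o'
      · subst hi'
        simp
      · by_cases hi : i = o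
        · subst hi
          simp [Function.update_of_ne hi']
        · simp [Function.update_of_ne hi', Function.update_of_ne hi]
    · intro α hα
      rw [mem_filter] at hα
      obtain ⟨-, hs, ht⟩ := hα
      funext i
      by_cases hi' : i = o'
      · subst hi'
        simp only [Function.update_self]
        omega
      · by_cases hi : i = o
        · subst hi
          simp only [Function.update_of_ne hi', Function.update_self]
          omega
        · simp [Function.update_of_ne hi', Function.update_of_ne hi]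
  · have h1 : d + 1 - (s + t) = 0 := by omega
    rw [h1, ell_zero hr, card_eq_zero, filter_eq_empty_iff]
    intro α hα
    rw [mem_Sx] at hα
    rintro ⟨h2, h3⟩
    have e1 := Finset.add_sum_erase univ α (mem_univ o)
    have e2 := single_le_sum (f := α) (fun i _ => Nat.zero_le _)
      (mem_erase.2 ⟨h.symm, mem_univ o'⟩)
    omega

theorem card_two {r d e : ℕ} (hr : 1 ≤ r) (he : e ≤ d) (o o' : Fin (r + 1)) (h : o ≠ o') :
    (((Sx (Fin (r + 1)) d).filter fun α => α o + (d - e) ≤ d).filter
      fun α => α o' + d ≤ d).card + ell r (d - e) + lam r e d = ell r (d + 1) := by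
  classical
  have hN1 := TwoT_hi (d := d) hr o o' h (e + 1) 0
  have hN2 := TwoT_hi (d := d) hr o o' h 0 1
  have hN3 := TwoT_hi (d := d) hr o o' h (e + 1) 1
  have h0 := TwoT_card_Sx r d
  have hm : ell r (d - (e + 1)) ≤ ell r d := ell_mono r (by omega)
  have e1 : d + 1 - (e + 1 + 0) = d - e := by omega
  have e2 : d + 1 - (0 + 1) = d := by omega
  have e3 : d + 1 - (e + 1 + 1) = d - (e + 1) := by omega
  rw [e1] at hN1
  rw [e2] at hN2
  rw [e3] at hN3
  set A := (Sx (Fin (r + 1)) d).filter fun α => e + 1 ≤ α o ∧ 0 ≤ α o' with hAdef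
  set B := (Sx (Fin (r + 1)) d).filter fun α => 0 ≤ α o ∧ 1 ≤ α o' with hBdef
  have hAB : A ∩ B = (Sx (Fin (r + 1)) d).filter fun α => e + 1 ≤ α o ∧ 1 ≤ α o' := by
    ext α
    rw [mem_inter, mem_filter, mem_filter, mem_filter]
    constructor
    · rintro ⟨⟨h1, h2, -⟩, -, -, h3⟩
      exact ⟨h1, h2, h3⟩
    · rintro ⟨h1, h2, h3⟩
      exact ⟨⟨h1, h2, Nat.zero_le _⟩, h1, Nat.zero_le _, h3⟩
  have hsub : A ∪ B ⊆ Sx (Fin (r + 1)) d := union_subset (filter_subset _ _) (filter_subset _ _)
  have hF : (((Sx (Fin (r + 1)) d).filter fun α => α o + (d - e) ≤ d).filter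
      fun α => α o' + d ≤ d) = Sx (Fin (r + 1)) d \ (A ∪ B) := by
    ext α
    rw [mem_filter, mem_filter, mem_sdiff, mem_union, mem_filter, mem_filter]
    constructor
    · rintro ⟨⟨h1, h2⟩, h3⟩
      refine ⟨h1, ?_⟩
      rintro (⟨-, h4, -⟩ | ⟨-, -, h4⟩)
      · omega
      · omega
    · rintro ⟨h1, h2⟩
      refine ⟨⟨h1, ?_⟩, ?_⟩
      · by_contra h3
        exact h2 (Or.inl ⟨h1, by omega, Nat.zero_le _⟩)
      · by_contra h3
        exact h2 (Or.inr ⟨h1, Nat.zero_le _, by omega⟩)
  have h1 := card_union_add_card_inter A B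
  rw [hAB, hN3, hN1, hN2] at h1
  have h2 := card_sdiff_add_card_eq_card hsub
  rw [h0] at h2
  rw [hF]
  unfold lam
  omega

theorem two_large {r d e X : ℕ} (hr : 1 ≤ r) (he : e ≤ d)
    (hX : ell r (d + 1) ≤ ell r (d - e) + lam r e d + X) :
    GM (Sx (Fin (r + 1)) d) (((d - e) ::ₘ d ::ₘ Multiset.replicate X 1).map Kind.free) := by
  have hne : (0 : Fin (r + 1)) ≠ Fin.last r := by
    intro h
    have h1 := congrArg Fin.val h
    rw [Fin.val_zero, Fin.val_last] at h1
    omega
  have hc := card_two hr he 0 (Fin.last r) hne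
  rw [Multiset.map_cons, Multiset.map_cons]
  refine GM_cons' 0 d (d - e) _ (Subset.refl _) _ ?_
  refine GM_cons' (Fin.last r) d d _ (filter_subset _ _) _ ?_
  have h1 := GM.of_card (((Sx (Fin (r + 1)) d).filter fun α => α 0 + (d - e) ≤ d).filter
    fun α => α (Fin.last r) + d ≤ d) (Multiset.replicate X 1) 0
    (fun m hm => by rw [Multiset.eq_of_mem_replicate hm]) (by
      rw [Multiset.card_replicate]
      omega)
  rw [add_zero] at h1
  exact h1

end Pool.Agent.H21.TC
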