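import Pool.Agent.H21.TC.Core
import Pool.Agent.H21.TC.All
import Pool.Agent.H21.TC.Low
import Pool.Agent.H21.TC.Two
import Pool.Agent.H21.NX.MaxGM

/-!
# TC19: one point of arbitrary multiplicity: the exact dimension

Let `e = d - m i₀`, `r` large, `lam r e (m i) = ell r (m i) - ell r (m i + m i₀ - (d + 1))` and
`X = binom (d + r, r) - ell r (m i₀) - ∑_{i ≠ i₀} lam r e (m i)` (truncated).  By `low` the dimension is at
least `X` for general points.  It is at most `X` if `GM` holds for the `m i` together with `X` simple points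
(`MaxGMX.special`, `general_finrank_le`).  This is shown as follows.

* `k = 1` (no other points): then put `M = 1` if `X ≥ 1` (one of the `X` simple points plays the role of the
  `M`-point), and continue as below; `X = 0` is impossible (`ell r (m i₀) ≤ ell r d < binom (d + r, r)`).
  (Or use `gdim_single`.)
* Otherwise let `M` be the largest `m i`, `i ≠ i₀`, at the index `i₁`.  If `M = d`: all `m i`, `i ≠ i₀, i₁`, are `1`
  (`hp`), `two_large`.
* `M < d`: `S` = the `m i` for `i ≠ i₀, i₁` together with the `X` simple points.  The total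
  `ell r (d - e) + lam M + ∑_S lam ≥ ell r (d + 1)` (`lam r e 1 = 1` for `e ≥ 1`, and for `e = 0`: `ell r 1 - ell r 0 = 1`).
  The points of `S` with `m + M ≤ d` (all others have `m + M = d + 1` by `hp`; the simple ones are among them)
  have mass `∑ ell r m ≥ ell r (d + 1) - ell r (d - e) - ell r M - (1 - η) ell r (d + 1) ≥ η / 2 * ell r (d + 1)`
  for large `r` (`grow_one`: `ell r d` is small), so some `μ ≤ M`, `μ + M ≤ d` has mass
  `≥ η / (2 (d + 1)) * ell r (d + 1)` (pigeonhole as in `UCore.lean`).  `core_W` (`e ≥ 1`) or `core_cone` (`e = 0`).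

`one_large_le`: the version with pair sums at most `d`: then a point with `m i + M = d + 1` is the `M`-point
itself, and `ell r M ≤ ell r d ≤ (1 - η) binom (d + r, r)` for large `r`, with `η = 1 / 2`.
-/

namespace Pool.Agent.H21.TC

open Finset MvPolynomial Pool.Agent.H18.Fat Pool.Agent.H18.Ex Pool.Agent.H21.NX Pool.Agent.H51.TB

private theorem FinT_ell_up (r c : ℕ) (hr : 1 ≤ r) : ell (r - 1) (c + 1) ≤ ell r (c + 1) := by
  obtain ⟨k, rfl⟩ : ∃ k, r = k + 1 := ⟨r - 1, by omega⟩
  rw [Nat.add_sub_cancel, ell_succ k c]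
  exact Nat.le_add_left _ _

private theorem FinT_choose (r d : ℕ) : (d + r).choose r = ell r (d + 1) := by
  unfold ell
  rw [show d + 1 + r - 1 = d + r by omega]

private theorem FinT_grow (d : ℕ) (K : ℝ) : ∃ r₀ : ℕ, ∀ r : ℕ, r₀ ≤ r →
    K * (ell r d : ℝ) ≤ (ell r (d + 1) : ℝ) := by
  obtain ⟨n₀, h⟩ := grow_one d K
  refine ⟨max n₀ 1, fun r hr => (h r ((le_max_left _ _).trans hr) d le_rfl).trans ?_⟩
  exact_mod_cast FinT_ell_up r d ((le_max_right _ _).trans hr)

private theorem FinT_sum_tot (r d : ℕ) (T : Multiset ℕ) (hT : ∀ m ∈ T, m ≤ d) :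
    ∑ m ∈ range (d + 1), T.count m * ell r m = (T.map (ell r)).sum := by
  rw [Finset.sum_multiset_map_count]
  symm
  have h1 : T.toFinset ⊆ range (d + 1) := by
    intro x hx
    exact mem_range.2 (Nat.lt_succ_of_le (hT x (Multiset.mem_toFinset.1 hx)))
  refine (Finset.sum_subset h1 ?_).trans ?_
  · intro x _ hx
    rw [Multiset.mem_toFinset] at hx
    rw [Multiset.count_eq_zero_of_notMem hx, zero_smul]
  · exact Finset.sum_congr rfl fun m _ => smul_eq_mul _ _

private theorem FinT_pigeon (r d : ℕ) (B : Multiset ℕ) (hB : ∀ m ∈ B, m ≤ d) (c : ℝ)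
    (hc : c ≤ (((B.map (ell r)).sum : ℕ) : ℝ)) :
    ∃ μ, c ≤ ((d : ℝ) + 1) * ((B.count μ * ell r μ : ℕ) : ℝ) := by
  by_contra hcon
  push Not at hcon
  have h1 := FinT_sum_tot r d B hB
  have h2 : ∑ m ∈ range (d + 1), ((d : ℝ) + 1) * ((B.count m * ell r m : ℕ) : ℝ) <
      ∑ _m ∈ range (d + 1), c :=
    Finset.sum_lt_sum_of_nonempty ⟨0, by simp⟩ fun m _ => hcon m
  rw [← Finset.mul_sum, ← Nat.cast_sum, h1, Finset.sum_const, card_range, nsmul_eq_mul] at h2
  push_cast at h2
  have h3 : (0 : ℝ) < (d : ℝ) + 1 := by positivity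
  have h4 := lt_of_mul_lt_mul_left h2 h3.le
  push_cast at hc
  linarith

private theorem FinT_lam_one {r : ℕ} (hr : 1 ≤ r) (e : ℕ) : lam r e 1 = 1 := by
  unfold lam
  rw [show 1 - (e + 1) = 0 by omega, ell_zero hr, ell_one]

private theorem FinT_lam_le (r e m : ℕ) : lam r e m ≤ ell r m := by
  unfold lam
  exact Nat.sub_le _ _

private theorem FinT_key (d : ℕ) (η : ℝ) (hη : 0 < η) : ∃ r₀ : ℕ, ∀ r : ℕ, r₀ ≤ r →
    ∀ (ι : Type) [Fintype ι] [DecidableEq ι] (n : ι → ℕ) (e : ℕ), e ≤ d →
    (∀ i, 1 ≤ n i ∧ n i ≤ d) → (∀ i j, i ≠ j → n i + n j ≤ d + 1) →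
    (∀ i, n i < d → (∀ j, n j ≤ n i) →
      ((∑ j ∈ univ.filter (fun j => n j + n i = d + 1), ell r (n j) : ℕ) : ℝ) ≤
        (1 - η) * (ell r (d + 1) : ℝ)) →
    ell r (d + 1) ≤ ell r (d - e) + ∑ i, lam r e (n i) →
    GM (Sx (Fin (r + 1)) d) (((d - e) ::ₘ univ.val.map n).map Kind.free) := by
  set η' : ℝ := η / (2 * ((d : ℝ) + 1)) with hη'def
  have hη' : 0 < η' := by positivity
  obtain ⟨r₁, h₁⟩ := core_W d η' hη'
  obtain ⟨r₂, h₂⟩ := core_cone d η' hη'
  obtain ⟨r₃, h₃⟩ := FinT_grow d (4 / η)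
  obtain ⟨r₄, h₄⟩ := FinT_grow d 2
  refine ⟨max (max r₁ r₂) (max (max r₃ r₄) 1), ?_⟩
  intro r hr ι _ _ n e he hn hp hC htot
  have hr1 : r₁ ≤ r := ((le_max_left _ _).trans (le_max_left _ _)).trans hr
  have hr2 : r₂ ≤ r := ((le_max_right _ _).trans (le_max_left _ _)).trans hr
  have hr3 : r₃ ≤ r := ((le_max_left _ _).trans ((le_max_left _ _).trans (le_max_right _ _))).trans hr
  have hr4 : r₄ ≤ r := ((le_max_right _ _).trans ((le_max_left _ _).trans (le_max_right _ _))).trans hr
  have hr5 : 1 ≤ r := ((le_max_right _ _).trans (le_max_right _ _)).trans hr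
  have g3 := h₃ r hr3
  have g4 : 2 * ell r d ≤ ell r (d + 1) := by exact_mod_cast h₄ r hr4
  have hNpos : 1 ≤ ell r (d + 1) := ell_pos r (by omega)
  have hde : ell r (d - e) ≤ ell r d := ell_mono r (Nat.sub_le _ _)
  -- the largest multiplicity
  have hne : Nonempty ι := by
    by_contra hcon
    rw [not_nonempty_iff] at hcon
    rw [Finset.univ_eq_empty, Finset.sum_empty] at htot
    omega
  obtain ⟨i₁, hi₁⟩ := Finite.exists_max n
  set M := n i₁ with hM
  set S : Multiset ℕ := (univ.erase i₁).val.map n with hS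
  have hTS : (univ : Finset ι).val.map n = M ::ₘ S := by
    have h0 : (univ : Finset ι) = insert i₁ (univ.erase i₁) :=
      (Finset.insert_erase (mem_univ i₁)).symm
    conv_lhs => rw [h0]
    rw [Finset.insert_val_of_notMem (Finset.notMem_erase i₁ univ), Multiset.map_cons]
  have hSmem : ∀ m ∈ S, ∃ j, j ≠ i₁ ∧ n j = m := by
    intro m hm
    obtain ⟨j, hj, hjm⟩ := Multiset.mem_map.1 hm
    exact ⟨j, (Finset.mem_erase.1 hj).1, hjm⟩
  have hSok : ∀ m ∈ S, 1 ≤ m ∧ m ≤ M ∧ m + M ≤ d + 1 := by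
    intro m hm
    obtain ⟨j, hj, rfl⟩ := hSmem m hm
    exact ⟨(hn j).1, hi₁ j, hp j i₁ hj⟩
  have hsumS : ∑ i, lam r e (n i) = lam r e M + (S.map (lam r e)).sum := by
    have h0 : ∑ i, lam r e (n i) = (((univ : Finset ι).val.map n).map (lam r e)).sum := by
      rw [Multiset.map_map]
      rfl
    rw [h0, hTS, Multiset.map_cons, Multiset.sum_cons]
  have htot' : ell r (d + 1) ≤ ell r (d - e) + lam r e M + (S.map (lam r e)).sum := by
    rw [hsumS] at htot
    omega
  rw [hTS]
  have hM1 := hn i₁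
  rcases Nat.lt_or_ge M d with hMd | hMd
  · -- `M < d`
    have hCM := hC i₁ hMd hi₁
    set B : Finset ι := (univ.erase i₁).filter fun j => n j + M ≤ d with hB
    have hcover : ∑ i, lam r e (n i) ≤
        (∑ j ∈ univ.filter (fun j => n j + M = d + 1), ell r (n j)) + ell r M +
          ∑ j ∈ B, ell r (n j) := by
      have h1 : ∀ j ∈ (univ.erase i₁ : Finset ι), lam r e (n j) ≤
          (if n j + M = d + 1 then ell r (n j) else 0) + (if n j + M ≤ d then ell r (n j) else 0) := by
        intro j hj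
        have h2 := hp j i₁ (Finset.mem_erase.1 hj).1
        have h3 := FinT_lam_le r e (n j)
        rcases Nat.lt_or_ge d (n j + M) with h4 | h4
        · rw [if_pos (by omega)]
          omega
        · rw [if_pos h4]
          omega
      have h5 : ∑ i, lam r e (n i) = lam r e (n i₁) + ∑ j ∈ univ.erase i₁, lam r e (n j) :=
        (Finset.add_sum_erase _ _ (mem_univ i₁)).symm
      have h6 : ∑ j ∈ univ.erase i₁, lam r e (n j) ≤
          (∑ j ∈ univ.erase i₁, if n j + M = d + 1 then ell r (n j) else 0) +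
            ∑ j ∈ univ.erase i₁, if n j + M ≤ d then ell r (n j) else 0 := by
        rw [← Finset.sum_add_distrib]
        exact Finset.sum_le_sum h1
      have h7 : (∑ j ∈ univ.erase i₁, if n j + M = d + 1 then ell r (n j) else 0) ≤
          ∑ j ∈ univ.filter (fun j => n j + M = d + 1), ell r (n j) := by
        rw [Finset.sum_filter]
        exact Finset.sum_le_sum_of_subset (Finset.erase_subset _ _)
      have h8 : (∑ j ∈ univ.erase i₁, if n j + M ≤ d then ell r (n j) else 0) =
          ∑ j ∈ B, ell r (n j) := by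
        rw [hB, Finset.sum_filter]
      have h9 : lam r e (n i₁) ≤ ell r M := FinT_lam_le r e _
      omega
    have hBsum : η / 2 * (ell r (d + 1) : ℝ) ≤ ((((B.val.map n).map (ell r)).sum : ℕ) : ℝ) := by
      have h1 : ((B.val.map n).map (ell r)).sum = ∑ j ∈ B, ell r (n j) := by
        rw [Multiset.map_map]
        rfl
      rw [h1]
      have h2 : ell r M ≤ ell r d := ell_mono r hMd.le
      have h3 : (ell r (d + 1) : ℝ) ≤ (ell r d : ℝ) +
          (((∑ j ∈ univ.filter (fun j => n j + M = d + 1), ell r (n j) : ℕ) : ℝ) + (ell r d : ℝ) +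
            ((∑ j ∈ B, ell r (n j) : ℕ) : ℝ)) := by
        have h4 : ell r (d + 1) ≤ ell r d +
            ((∑ j ∈ univ.filter (fun j => n j + M = d + 1), ell r (n j)) + ell r d +
              ∑ j ∈ B, ell r (n j)) := by
          omega
        exact_mod_cast h4
      have h5 : 2 * (ell r d : ℝ) ≤ η / 2 * (ell r (d + 1) : ℝ) := by
        have h6 := mul_le_mul_of_nonneg_left g3 (show (0 : ℝ) ≤ η / 2 by positivity)
        have h7 : η / 2 * (4 / η * (ell r d : ℝ)) = 2 * (ell r d : ℝ) := by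
          field_simp
          ring
        rw [h7] at h6
        exact h6
      linarith
    have hBd : ∀ m ∈ B.val.map n, m ≤ d := by
      intro m hm
      obtain ⟨j, _, rfl⟩ := Multiset.mem_map.1 hm
      exact (hn j).2
    obtain ⟨μ, hμ⟩ := FinT_pigeon r d (B.val.map n) hBd _ hBsum
    have hNr : (0 : ℝ) < (ell r (d + 1) : ℝ) := by exact_mod_cast hNpos
    have hμB : μ ∈ B.val.map n := by
      rw [← Multiset.count_ne_zero]
      intro h0
      rw [h0, Nat.zero_mul, Nat.cast_zero, mul_zero] at hμ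
      have : 0 < η / 2 * (ell r (d + 1) : ℝ) := by positivity
      linarith
    obtain ⟨j, hjB, hjμ⟩ := Multiset.mem_map.1 hμB
    have hjB' := Finset.mem_filter.1 hjB
    have hμ1 : 1 ≤ μ := hjμ ▸ (hn j).1
    have hμM : μ ≤ M := hjμ ▸ hi₁ j
    have hμMd : μ + M ≤ d := hjμ ▸ hjB'.2
    have hcount : (B.val.map n).count μ ≤ S.count μ := by
      apply Multiset.count_le_of_le
      apply Multiset.map_le_map
      exact Finset.val_le_iff.2 (Finset.filter_subset _ _)
    have hmass : η' * (ell r (d + 1) : ℝ) ≤ ((S.count μ * ell r μ : ℕ) : ℝ) := by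
      have h1 : (((B.val.map n).count μ * ell r μ : ℕ) : ℝ) ≤ ((S.count μ * ell r μ : ℕ) : ℝ) := by
        exact_mod_cast Nat.mul_le_mul_right _ hcount
      refine le_trans ?_ h1
      have h2 : (0 : ℝ) < (d : ℝ) + 1 := by positivity
      have h3 : η' * (ell r (d + 1) : ℝ) = η / 2 * (ell r (d + 1) : ℝ) / ((d : ℝ) + 1) := by
        rw [hη'def]
        field_simp
      rw [h3, div_le_iff₀ h2]
      calc η / 2 * (ell r (d + 1) : ℝ) ≤ _ := hμ
        _ = _ := mul_comm _ _
    rcases Nat.eq_zero_or_pos e with he0 | he1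
    · subst he0
      rw [Nat.sub_zero] at htot' ⊢
      exact h₂ r hr2 M μ S hμ1 hμM hμMd hSok htot' hmass
    · exact h₁ r hr1 e M μ S he1 he hμ1 hμM hμMd hSok htot' hmass
  · -- `M = d`
    have hMd' : M = d := le_antisymm hM1.2 hMd
    have hS1 : S = Multiset.replicate (Multiset.card S) 1 := by
      apply Multiset.eq_replicate_card.2
      intro m hm
      have := hSok m hm
      omega
    have hlam : (S.map (lam r e)).sum = Multiset.card S := by
      rw [hS1, Multiset.map_replicate, Multiset.sum_replicate, FinT_lam_one hr5,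
        Multiset.card_replicate, smul_eq_mul, mul_one]
    rw [hlam, hMd'] at htot'
    rw [hMd', hS1]
    exact two_large hr5 he htot'

theorem one_large (d : ℕ) (η : ℝ) (hη : 0 < η) : ∃ r₀ : ℕ, ∀ r : ℕ, r₀ ≤ r → ∀ (k : ℕ)
    (m : Fin k → ℕ) (i₀ : Fin k), (∀ i, 1 ≤ m i ∧ m i ≤ d) →
    (∀ i j, i ≠ j → i ≠ i₀ → j ≠ i₀ → m i + m j ≤ d + 1) →
    (∀ M < d, (∀ i, i ≠ i₀ → m i ≤ M) → (∃ i, i ≠ i₀ ∧ m i = M) →
      ((∑ i ∈ univ.filter (fun i => i ≠ i₀ ∧ m i + M = d + 1), ell r (m i) : ℕ) : ℝ) ≤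
        (1 - η) * ((d + r).choose r : ℝ)) →
    ForGeneralPoints r k fun p => Module.finrank ℂ (fatForms r d p m) =
      ((d + r).choose r + ∑ i ∈ univ.erase i₀, ell r (m i + m i₀ - (d + 1))) -
        ∑ i, ell r (m i) := by
  obtain ⟨r₀, h₀⟩ := FinT_key d (min η 1) (lt_min hη one_pos)
  refine ⟨max r₀ 1, ?_⟩
  intro r hr k m i₀ hm hp hC
  have hr0 : r₀ ≤ r := (le_max_left _ _).trans hr
  have hr1 : 1 ≤ r := (le_max_right _ _).trans hr
  set X : ℕ := ((d + r).choose r + ∑ i ∈ univ.erase i₀, ell r (m i + m i₀ - (d + 1))) -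
    ∑ i, ell r (m i) with hX
  set e := d - m i₀ with he
  have hed : e ≤ d := Nat.sub_le _ _
  have hde : d - e = m i₀ := by
    have := (hm i₀).2
    omega
  let n : ↥(univ.erase i₀ : Finset (Fin k)) ⊕ Fin X → ℕ := Sum.elim (fun i => m i.1) fun _ => 1
  have hNe := FinT_choose r d
  have key := h₀ r hr0 (↥(univ.erase i₀ : Finset (Fin k)) ⊕ Fin X) n e hed ?_ ?_ ?_ ?_
  · -- conclusion
    have hGM : GM (Sx (Fin (r + 1)) d) ((univ.val.map fun i => Kind.free (m i)) +
        Multiset.replicate X (Kind.free 1)) := by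
      have h1 : ((d - e) ::ₘ (univ : Finset (↥(univ.erase i₀ : Finset (Fin k)) ⊕ Fin X)).val.map
          n).map (Kind.free (ι := Fin (r + 1))) = (univ.val.map fun i => Kind.free (m i)) +
            Multiset.replicate X (Kind.free 1) := by
        rw [Multiset.map_cons, Multiset.map_map]
        have h2 : (univ : Finset (↥(univ.erase i₀ : Finset (Fin k)) ⊕ Fin X)).val.map
            (Kind.free (ι := Fin (r + 1)) ∘ n) =
            (univ : Finset ↥(univ.erase i₀ : Finset (Fin k))).val.map (fun i => Kind.free (m i.1)) +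
              (univ : Finset (Fin X)).val.map fun _ => Kind.free 1 := by
          rw [← multi_map_sum]
          apply Multiset.map_congr rfl
          intro x _
          rcases x with x | x <;> rfl
        rw [h2, Finset.univ_eq_attach]
        have h3 : (univ.erase i₀ : Finset (Fin k)).attach.val.map
            (fun i => (Kind.free (m i.1) : Kind (Fin (r + 1)))) =
            (univ.erase i₀ : Finset (Fin k)).val.map fun i => Kind.free (m i) :=
          Multiset.attach_map_val' (univ.erase i₀ : Finset (Fin k)).val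
            (fun i => (Kind.free (m i) : Kind (Fin (r + 1))))
        rw [h3, Multiset.map_const', Finset.card_val, card_univ, Fintype.card_fin,
          ← Multiset.cons_add, hde]
        congr 1
        have h4 : (univ : Finset (Fin k)) = insert i₀ (univ.erase i₀) :=
          (Finset.insert_erase (mem_univ i₀)).symm
        conv_rhs => rw [h4]
        rw [Finset.insert_val_of_notMem (Finset.notMem_erase i₀ univ), Multiset.map_cons]
      rw [← h1]
      exact key
    obtain ⟨p₀, hp₀⟩ := MaxGMX.special r k d X m hGM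
    refine ((general_finrank_le d p₀ m).and (low r d k hr1 m i₀ hm hp)).mono ?_
    rintro p ⟨hp1, hp2⟩
    omega
  · -- positive multiplicities
    rintro (i | j)
    · exact hm i.1
    · exact ⟨le_rfl, (hm i₀).1.trans (hm i₀).2⟩
  · -- pairs
    have hd1 : 1 ≤ d := (hm i₀).1.trans (hm i₀).2
    rintro (i | i) (j | j) hij
    · refine hp i.1 j.1 ?_ (Finset.mem_erase.1 i.2).1 (Finset.mem_erase.1 j.2).1
      intro h0
      exact hij (congrArg Sum.inl (Subtype.ext h0))
    · have := (hm i.1).2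
      show m i.1 + 1 ≤ d + 1
      omega
    · have := (hm j.1).2
      show 1 + m j.1 ≤ d + 1
      omega
    · show 1 + 1 ≤ d + 1
      omega
  · -- mass
    intro i hid hmax
    set M := n i with hMdef
    have h1 : (∑ j ∈ univ.filter (fun j => n j + M = d + 1), ell r (n j)) =
        ∑ i ∈ univ.filter (fun i => i ≠ i₀ ∧ m i + M = d + 1), ell r (m i) := by
      rw [Finset.sum_filter, Fintype.sum_sum_type]
      have h2 : ∑ x : Fin X, (if n (Sum.inr x) + M = d + 1 then ell r (n (Sum.inr x)) else 0) = 0 := by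
        apply Finset.sum_eq_zero
        intro x _
        have h3 : n (Sum.inr x) = 1 := rfl
        rw [h3, if_neg (by omega)]
      rw [h2, add_zero]
      have h4 : ∑ x : ↥(univ.erase i₀ : Finset (Fin k)),
          (if n (Sum.inl x) + M = d + 1 then ell r (n (Sum.inl x)) else 0) =
          ∑ i ∈ univ.erase i₀, if m i + M = d + 1 then ell r (m i) else 0 :=
        Finset.sum_coe_sort (univ.erase i₀) (fun i => if m i + M = d + 1 then ell r (m i) else 0)
      rw [h4, ← Finset.sum_filter]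
      apply Finset.sum_congr _ fun _ _ => rfl
      ext j
      simp only [Finset.mem_filter, Finset.mem_erase, Finset.mem_univ, and_true, true_and]
    rw [h1]
    by_cases hex : ∃ i', i' ≠ i₀ ∧ m i' = M
    · have h2 := hC M hid (fun i' hi' => hmax (Sum.inl ⟨i', Finset.mem_erase.2 ⟨hi', mem_univ _⟩⟩)) hex
      rw [hNe] at h2
      refine h2.trans ?_
      apply mul_le_mul_of_nonneg_right _ (Nat.cast_nonneg _)
      have := min_le_left η 1
      linarith
    · have hemp : (univ.filter fun i' => i' ≠ i₀ ∧ m i' + M = d + 1) = (∅ : Finset (Fin k)) := by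
        apply Finset.filter_eq_empty_iff.2
        rintro i' _ ⟨h3, h4⟩
        apply hex
        refine ⟨i', h3, ?_⟩
        have h5 : m i' ≤ M := hmax (Sum.inl ⟨i', Finset.mem_erase.2 ⟨h3, mem_univ _⟩⟩)
        rcases i with i | i
        · exact absurd ⟨i.1, (Finset.mem_erase.1 i.2).1, rfl⟩ hex
        · have h6 : M = 1 := rfl
          have := (hm i').1
          omega
      rw [hemp, Finset.sum_empty, Nat.cast_zero]
      apply mul_nonneg _ (Nat.cast_nonneg _)
      have := min_le_right η 1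
      linarith
  · -- total
    rw [hde, Fintype.sum_sum_type]
    have h1 : ∑ x : Fin X, lam r e (n (Sum.inr x)) = X := by
      have h2 : ∀ x : Fin X, lam r e (n (Sum.inr x)) = 1 := fun x => FinT_lam_one hr1 e
      rw [Finset.sum_congr rfl fun x _ => h2 x, Finset.sum_const, card_univ, Fintype.card_fin,
        smul_eq_mul, mul_one]
    have h3 : ∑ x : ↥(univ.erase i₀ : Finset (Fin k)), lam r e (n (Sum.inl x)) =
        ∑ i ∈ univ.erase i₀, lam r e (m i) :=
      Finset.sum_coe_sort (univ.erase i₀) (fun i => lam r e (m i))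
    rw [h1, h3]
    have h4 : ∑ i ∈ univ.erase i₀, lam r e (m i) +
        ∑ i ∈ univ.erase i₀, ell r (m i + m i₀ - (d + 1)) = ∑ i ∈ univ.erase i₀, ell r (m i) := by
      rw [← Finset.sum_add_distrib]
      apply Finset.sum_congr rfl
      intro i _
      unfold lam
      have h5 : m i + m i₀ - (d + 1) = m i - (e + 1) := by
        have := (hm i₀).2
        omega
      rw [h5]
      exact Nat.sub_add_cancel (ell_mono r (Nat.sub_le _ _))
    have h6 : ∑ i, ell r (m i) = ell r (m i₀) + ∑ i ∈ univ.erase i₀, ell r (m i) :=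
      (Finset.add_sum_erase _ _ (mem_univ i₀)).symm
    omega

theorem one_large_le (d : ℕ) : ∃ r₀ : ℕ, ∀ r : ℕ, r₀ ≤ r → ∀ (k : ℕ)
    (m : Fin k → ℕ) (i₀ : Fin k), (∀ i, 1 ≤ m i ∧ m i ≤ d) →
    (∀ i j, i ≠ j → i ≠ i₀ → j ≠ i₀ → m i + m j ≤ d) →
    ForGeneralPoints r k fun p => Module.finrank ℂ (fatForms r d p m) =
      ((d + r).choose r + ∑ i ∈ univ.erase i₀, ell r (m i + m i₀ - (d + 1))) -
        ∑ i, ell r (m i) := by
  obtain ⟨r₁, h₁⟩ := one_large d (1 / 2) (by norm_num)
  obtain ⟨r₂, h₂⟩ := FinT_grow d 2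
  refine ⟨max r₁ r₂, ?_⟩
  intro r hr k m i₀ hm hp
  refine h₁ r ((le_max_left _ _).trans hr) k m i₀ hm
    (fun i j hij hi hj => (hp i j hij hi hj).trans (Nat.le_succ d)) ?_
  intro M hMd _ hex
  obtain ⟨i₁, hi₁, hi₁M⟩ := hex
  have h3 := h₂ r ((le_max_right _ _).trans hr)
  have hsub : (univ.filter fun i => i ≠ i₀ ∧ m i + M = d + 1) ⊆ ({i₁} : Finset (Fin k)) := by
    intro i hi
    obtain ⟨_, hi0, hiM⟩ := Finset.mem_filter.1 hi
    rw [Finset.mem_singleton]
    by_contra hne
    have := hp i i₁ hne hi0 hi₁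
    omega
  have h4 : ∑ i ∈ univ.filter (fun i => i ≠ i₀ ∧ m i + M = d + 1), ell r (m i) ≤ ell r d := by
    refine (Finset.sum_le_sum_of_subset hsub).trans ?_
    rw [Finset.sum_singleton]
    exact ell_mono r (hm i₁).2
  have h5 : ((∑ i ∈ univ.filter (fun i => i ≠ i₀ ∧ m i + M = d + 1), ell r (m i) : ℕ) : ℝ) ≤
      (ell r d : ℝ) := by exact_mod_cast h4
  rw [FinT_choose]
  linarith

end Pool.Agent.H21.TC
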