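import Pool.Agent.H21.TC.Lead
import Pool.Agent.H51.TB.Theta

/-!
# TC4: the initial distribution of the points of multiplicity `m`, for general weights

As `Pool/Agent/H51/TB/Init.lean` (complete; copy it): `Pre a b d m x j` becomes `Prw d m (W a b) x j`, `lead`
becomes `leadw`, and `1 ≤ a → 1 ≤ b` becomes `2 ≤ a → 2 ≤ b`.
-/

namespace Pool.Agent.H21.TC

open Finset Pool.Agent.H18.Ex Pool.Agent.H21.NX Pool.Agent.H18.Ta Pool.Agent.H51.TB

private def InitT_K (d m : ℕ) : ℕ → ℕ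
  | 0 => 0
  | s + 1 => ∑ ρ ∈ range d, if s + (ρ + 1) ≤ d ∧ ρ + 1 ≤ m then 1 else 0

private theorem InitT_K_le (d m s : ℕ) : InitT_K d m s ≤ m := by
  cases s with
  | zero => exact Nat.zero_le _
  | succ s =>
    show ∑ ρ ∈ range d, (if s + (ρ + 1) ≤ d ∧ ρ + 1 ≤ m then 1 else 0) ≤ m
    rw [← card_filter]
    have h : (range d).filter (fun ρ => s + (ρ + 1) ≤ d ∧ ρ + 1 ≤ m) ⊆ range m := by
      intro ρ hρ
      rw [mem_filter] at hρ
      rw [mem_range]
      omega
    calc _ ≤ (range m).card := card_le_card h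
      _ = m := card_range m

/-- The distribution. -/
private def InitT_c (d m E : ℕ) (N : ℕ → ℕ) (x : ℕ × ℕ) : ℕ :=
  if x.2 = 0 then N x.1 - E * InitT_K d m x.1 else if x.2 ≤ m then E else 0

private theorem InitT_sum (d m E : ℕ) (N : ℕ → ℕ) (hN : ∀ s ≤ d, E * InitT_K d m s ≤ N s)
    (f : ℕ → ℝ) : ∑ x ∈ KK d, (InitT_c d m E N x : ℝ) * f (st x) =
      ∑ s ∈ range (d + 1), (N s : ℝ) * f s := by
  have h1 : ∑ x ∈ KK d, (InitT_c d m E N x : ℝ) * f (st x) =
      ∑ u ∈ range (d + 1), ∑ ρ ∈ range (d + 1),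
        if u + ρ ≤ d then (InitT_c d m E N (u, ρ) : ℝ) * f (st (u, ρ)) else 0 := by
    unfold KK
    rw [sum_filter, sum_product]
  rw [h1]
  have h2 : ∀ u ∈ range (d + 1), ∑ ρ ∈ range (d + 1),
      (if u + ρ ≤ d then (InitT_c d m E N (u, ρ) : ℝ) * f (st (u, ρ)) else 0) =
      (E : ℝ) * (InitT_K d m (u + 1) : ℝ) * f (u + 1) +
        ((N u : ℝ) - (E : ℝ) * (InitT_K d m u : ℝ)) * f u := by
    intro u hu
    have hu' : u ≤ d := by
      rw [mem_range] at hu
      omega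
    rw [sum_range_succ']
    congr 1
    · show _ = (E : ℝ) * ((∑ ρ ∈ range d, if u + (ρ + 1) ≤ d ∧ ρ + 1 ≤ m then 1 else 0 : ℕ) : ℝ) *
        f (u + 1)
      rw [Nat.cast_sum, mul_sum, sum_mul]
      refine sum_congr rfl fun ρ _ => ?_
      have hc : InitT_c d m E N (u, ρ + 1) = if ρ + 1 ≤ m then E else 0 := by
        unfold InitT_c
        rw [if_neg (by simp)]
      have hs : st (u, ρ + 1) = u + 1 := by
        unfold st
        rw [if_neg (by simp)]
      rw [hc, hs]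
      by_cases c1 : u + (ρ + 1) ≤ d
      · by_cases c2 : ρ + 1 ≤ m
        · rw [if_pos c1, if_pos c2, if_pos ⟨c1, c2⟩]
          simp
        · rw [if_pos c1, if_neg c2, if_neg (fun h => c2 h.2)]
          simp
      · rw [if_neg c1, if_neg (fun h => c1 h.1)]
        simp
    · rw [if_pos (by omega)]
      have hc : InitT_c d m E N (u, 0) = N u - E * InitT_K d m u := by
        unfold InitT_c
        rw [if_pos rfl]
      have hs : st (u, 0) = u := by
        unfold st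
        rw [if_pos rfl]
      rw [hc, hs, Nat.cast_sub (hN u hu')]
      push_cast
      ring
  rw [sum_congr rfl h2, sum_add_distrib]
  have h3 : ∑ u ∈ range (d + 1), ((N u : ℝ) - (E : ℝ) * (InitT_K d m u : ℝ)) * f u =
      ∑ s ∈ range (d + 1), (N s : ℝ) * f s -
        ∑ u ∈ range (d + 1), (E : ℝ) * (InitT_K d m u : ℝ) * f u := by
    rw [← sum_sub_distrib]
    refine sum_congr rfl fun u _ => ?_
    ring
  have h4 : ∑ u ∈ range (d + 1), (E : ℝ) * (InitT_K d m u : ℝ) * f u =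
      ∑ u ∈ range (d + 1), (E : ℝ) * (InitT_K d m (u + 1) : ℝ) * f (u + 1) := by
    rw [sum_range_succ', sum_range_succ]
    have h5 : InitT_K d m 0 = 0 := rfl
    have h6 : InitT_K d m (d + 1) = 0 := by
      show ∑ ρ ∈ range d, (if d + (ρ + 1) ≤ d ∧ ρ + 1 ≤ m then 1 else 0) = 0
      refine sum_eq_zero fun ρ _ => ?_
      rw [if_neg]
      omega
    rw [h5, h6]
    simp
  rw [h3, h4]
  ring

private theorem InitT_Gl_nonneg (d m s j : ℕ) : 0 ≤ Gl d m s j := by
  unfold Gl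
  refine div_nonneg (sum_nonneg fun i _ => ?_) (by positivity)
  split_ifs
  · exact Nat.cast_nonneg _
  · exact le_refl _

private theorem InitT_Gl_le (d m s j : ℕ) (hm : 1 ≤ m) : Gl d m s j ≤ 1 := by
  unfold Gl
  rw [div_le_one (by positivity)]
  have h1 : ∑ i ∈ range m, ((m - 1).choose i : ℝ) = 2 ^ (m - 1) := by
    have h2 := Nat.sum_range_choose (m - 1)
    have h3 : m - 1 + 1 = m := by omega
    rw [h3] at h2
    exact_mod_cast h2
  rw [← h1]
  refine sum_le_sum fun i _ => ?_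
  split_ifs
  · exact le_refl _
  · exact Nat.cast_nonneg _

theorem initw (d m : ℕ) (hm : 1 ≤ m) (h2 : 2 * m ≤ d + 1) (W : ℕ → ℕ → ℕ × ℕ → ℕ)
    (hle : ∀ a b, 2 ≤ a → 2 ≤ b → ∀ g, W a b g ≤ Eg a b g) (hW : AsyW W) :
    ∃ e : ℝ, 0 < e ∧ ∀ δ : ℝ, 0 < δ →
    ∃ ε : ℝ, 0 < ε ∧ ∃ n₀ : ℕ, ∀ a b : ℕ, 2 ≤ a → 2 ≤ b → n₀ ≤ a + b →
    |(a : ℝ) - b| ≤ ε * (a + b : ℕ) → ∀ A E : ℕ, (E : ℝ) ≤ e * A →
    ∃ c₀ : ℕ × ℕ → ℕ, ∑ x ∈ KK d, c₀ x = A ∧ (∀ x ∈ KK d, x.2 ≤ m → E ≤ c₀ x) ∧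
      ∀ j ≤ d, |((∑ x ∈ KK d, c₀ x * Prw d m (W a b) x j : ℕ) : ℝ) -
        Phi d j * ((A * ell (a + b - 1) m : ℕ) : ℝ)| ≤
        (δ * A + (d + 1) ^ 2) * (ell (a + b - 1) m : ℝ) := by
  obtain ⟨θ, hθ, hθ1, hθΦ⟩ := theta d m hm h2
  obtain ⟨w, hw0, hw⟩ : ∃ w : ℝ, 0 < w ∧ ∀ s ≤ d, w ≤ θ s := by
    obtain ⟨s₀, hs₀, hmin⟩ := exists_min_image (range (d + 1)) θ ⟨0, by simp⟩
    refine ⟨θ s₀, hθ s₀ (by rw [mem_range] at hs₀; omega), fun s hs => hmin s ?_⟩
    rw [mem_range]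
    omega
  have hd3 : (0 : ℝ) < (d : ℝ) + 3 := by positivity
  refine ⟨w / (d + 3), div_pos hw0 hd3, fun δ hδ => ?_⟩
  obtain ⟨ε, hε, n₀, H⟩ := leadw d m hm (by omega) W hle hW δ hδ
  refine ⟨ε, hε, n₀, fun a b ha hb hab hε' A E hE => ?_⟩
  have hL := H a b ha hb hab hε'
  have hA0 : (0 : ℝ) ≤ A := Nat.cast_nonneg A
  have hE0 : (0 : ℝ) ≤ E := Nat.cast_nonneg E
  -- the numbers `N s`
  have hsum1 : ∑ s ∈ range d, θ (s + 1) + θ 0 = 1 := by
    rw [← hθ1, sum_range_succ']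
  let M : ℕ → ℕ := fun s => ⌊θ s * A⌋₊
  have hM1 : ∀ s ≤ d, (M s : ℝ) ≤ θ s * A := fun s hs =>
    Nat.floor_le (mul_nonneg (hθ s hs).le hA0)
  have hM2 : ∀ s, θ s * A - 1 ≤ (M s : ℝ) := fun s => by
    have := Nat.lt_floor_add_one (θ s * A)
    show θ s * A - 1 ≤ ((⌊θ s * A⌋₊ : ℕ) : ℝ)
    linarith
  have hMsum : (∑ s ∈ range d, M (s + 1) : ℕ) ≤ A := by
    have h3 : ((∑ s ∈ range d, M (s + 1) : ℕ) : ℝ) ≤ A := by
      rw [Nat.cast_sum]
      calc ∑ s ∈ range d, (M (s + 1) : ℝ) ≤ ∑ s ∈ range d, θ (s + 1) * A :=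
            sum_le_sum fun s hs => hM1 (s + 1) (by rw [mem_range] at hs; omega)
        _ = (∑ s ∈ range d, θ (s + 1)) * A := by rw [sum_mul]
        _ = (1 - θ 0) * A := by rw [← hsum1]; ring
        _ ≤ 1 * A := by
            refine mul_le_mul_of_nonneg_right ?_ hA0
            have := hθ 0 (Nat.zero_le d)
            linarith
        _ = A := one_mul _
    exact_mod_cast h3
  let N : ℕ → ℕ := fun s => if s = 0 then A - ∑ s ∈ range d, M (s + 1) else M s
  have hN0 : N 0 = A - ∑ s ∈ range d, M (s + 1) := if_pos rfl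
  have hNs : ∀ s, N (s + 1) = M (s + 1) := fun s => if_neg (Nat.succ_ne_zero s)
  have hNsum : ∑ s ∈ range (d + 1), N s = A := by
    rw [sum_range_succ', hN0]
    simp only [hNs]
    omega
  have hN0r : (N 0 : ℝ) = A - ∑ s ∈ range d, (M (s + 1) : ℝ) := by
    rw [hN0, Nat.cast_sub hMsum, Nat.cast_sum]
  have hlow : ∀ s ≤ d, θ s * A - 1 ≤ (N s : ℝ) := by
    intro s hs
    cases s with
    | zero =>
      rw [hN0r]
      have h3 : ∑ s ∈ range d, (M (s + 1) : ℝ) ≤ (1 - θ 0) * A := by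
        calc ∑ s ∈ range d, (M (s + 1) : ℝ) ≤ ∑ s ∈ range d, θ (s + 1) * A :=
            sum_le_sum fun s hs => hM1 (s + 1) (by rw [mem_range] at hs; omega)
          _ = (∑ s ∈ range d, θ (s + 1)) * A := by rw [sum_mul]
          _ = (1 - θ 0) * A := by rw [← hsum1]; ring
      linarith
    | succ s =>
      rw [hNs]
      exact hM2 (s + 1)
  have hupp : ∀ s ≤ d, (N s : ℝ) ≤ θ s * A + d := by
    intro s hs
    cases s with
    | zero =>
      rw [hN0r]
      have h3 : (1 - θ 0) * A - d ≤ ∑ s ∈ range d, (M (s + 1) : ℝ) := by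
        calc (1 - θ 0) * A - d = (∑ s ∈ range d, θ (s + 1)) * A - d := by rw [← hsum1]; ring
          _ = ∑ s ∈ range d, (θ (s + 1) * A - 1) := by
              rw [sum_sub_distrib, sum_mul]
              simp
          _ ≤ ∑ s ∈ range d, (M (s + 1) : ℝ) := sum_le_sum fun s _ => hM2 (s + 1)
      linarith
    | succ s =>
      rw [hNs]
      have := hM1 (s + 1) hs
      have hd0 : (0 : ℝ) ≤ d := Nat.cast_nonneg d
      linarith
  have habs : ∀ s ≤ d, |(N s : ℝ) - θ s * A| ≤ d + 1 := by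
    intro s hs
    have h3 := hlow s hs
    have h4 := hupp s hs
    have hd0 : (0 : ℝ) ≤ d := Nat.cast_nonneg d
    rw [abs_le]
    constructor <;> linarith
  have hbig : ∀ s ≤ d, (m + 1) * E ≤ N s := by
    intro s hs
    rcases Nat.eq_zero_or_pos E with h0 | hpos
    · rw [h0]
      simp
    · have h3 : ((d : ℝ) + 3) * E ≤ θ s * A := by
        have h4 : (E : ℝ) * (d + 3) ≤ w * A := by
          have h5 : (E : ℝ) ≤ w * A / (d + 3) := by
            calc (E : ℝ) ≤ w / (d + 3) * A := hE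
              _ = w * A / (d + 3) := by ring
          rwa [le_div_iff₀ hd3] at h5
        have h6 : w * A ≤ θ s * A := mul_le_mul_of_nonneg_right (hw s hs) hA0
        linarith
      have h7 := hlow s hs
      have h8 : (1 : ℝ) ≤ E := by exact_mod_cast hpos
      have h9 : ((m : ℝ) + 1) * E ≤ N s := by
        have h10 : (m : ℝ) ≤ d + 1 := by
          have : m ≤ d + 1 := by omega
          exact_mod_cast this
        have h11 : ((m : ℝ) + 1) * E ≤ (d + 2) * E :=
          mul_le_mul_of_nonneg_right (by linarith) hE0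
        nlinarith
      exact_mod_cast h9
  have hK : ∀ s ≤ d, E * InitT_K d m s ≤ N s := by
    intro s hs
    have h3 := hbig s hs
    have h4 := InitT_K_le d m s
    calc E * InitT_K d m s ≤ E * m := Nat.mul_le_mul_left E h4
      _ ≤ (m + 1) * E := by
          rw [mul_comm]
          exact Nat.mul_le_mul_right E (Nat.le_succ m)
      _ ≤ N s := h3
  refine ⟨InitT_c d m E N, ?_, ?_, ?_⟩
  · have h3 := InitT_sum d m E N hK fun _ => 1
    simp only [mul_one] at h3
    have h4 : ((∑ x ∈ KK d, InitT_c d m E N x : ℕ) : ℝ) = ((∑ s ∈ range (d + 1), N s : ℕ) : ℝ) := by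
      rw [Nat.cast_sum, Nat.cast_sum]
      exact h3
    have h5 : ∑ x ∈ KK d, InitT_c d m E N x = ∑ s ∈ range (d + 1), N s := by exact_mod_cast h4
    rw [h5, hNsum]
  · intro x hx hxm
    rw [mem_KK] at hx
    unfold InitT_c
    by_cases h0 : x.2 = 0
    · rw [if_pos h0]
      have h3 := hbig x.1 (by omega)
      have h4 := InitT_K_le d m x.1
      have h5 : E * InitT_K d m x.1 ≤ E * m := Nat.mul_le_mul_left E h4
      have h6 : (m + 1) * E = E * m + E := by ring
      omega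
    · rw [if_neg h0, if_pos hxm]
  · intro j hj
    have hell : (0 : ℝ) ≤ (ell (a + b - 1) m : ℝ) := Nat.cast_nonneg _
    set L : ℝ := (ell (a + b - 1) m : ℝ) with hLdef
    have h3 := InitT_sum d m E N hK fun s => Gl d m s j * L
    have hc1 : ∑ x ∈ KK d, (InitT_c d m E N x : ℝ) = A := by
      have h3 := InitT_sum d m E N hK fun _ => 1
      simp only [mul_one] at h3
      rw [h3, ← Nat.cast_sum, hNsum]
    have h4 : |∑ x ∈ KK d, (InitT_c d m E N x : ℝ) * (Prw d m (W a b) x j : ℝ) -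
        ∑ x ∈ KK d, (InitT_c d m E N x : ℝ) * (Gl d m (st x) j * L)| ≤ δ * A * L := by
      rw [← sum_sub_distrib]
      calc |∑ x ∈ KK d, ((InitT_c d m E N x : ℝ) * (Prw d m (W a b) x j : ℝ) -
            (InitT_c d m E N x : ℝ) * (Gl d m (st x) j * L))|
          ≤ ∑ x ∈ KK d, |(InitT_c d m E N x : ℝ) * (Prw d m (W a b) x j : ℝ) -
            (InitT_c d m E N x : ℝ) * (Gl d m (st x) j * L)| := abs_sum_le_sum_abs _ _
        _ ≤ ∑ x ∈ KK d, (InitT_c d m E N x : ℝ) * (δ * L) := by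
            refine sum_le_sum fun x hx => ?_
            rw [← mul_sub, abs_mul, abs_of_nonneg (Nat.cast_nonneg (InitT_c d m E N x))]
            exact mul_le_mul_of_nonneg_left (hL x hx j hj) (Nat.cast_nonneg _)
        _ = δ * A * L := by
            rw [← sum_mul, hc1]
            ring
    have h5 : |∑ s ∈ range (d + 1), (N s : ℝ) * (Gl d m s j * L) - Phi d j * (A * L)| ≤
        (d + 1) ^ 2 * L := by
      rw [← hθΦ j hj, sum_mul, ← sum_sub_distrib]
      calc |∑ s ∈ range (d + 1), ((N s : ℝ) * (Gl d m s j * L) - θ s * Gl d m s j * (A * L))|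
          ≤ ∑ s ∈ range (d + 1), |(N s : ℝ) * (Gl d m s j * L) - θ s * Gl d m s j * (A * L)| :=
            abs_sum_le_sum_abs _ _
        _ ≤ ∑ s ∈ range (d + 1), ((d : ℝ) + 1) * L := by
            refine sum_le_sum fun s hs => ?_
            have hs' : s ≤ d := by
              rw [mem_range] at hs
              omega
            have h6 : (N s : ℝ) * (Gl d m s j * L) - θ s * Gl d m s j * (A * L) =
                ((N s : ℝ) - θ s * A) * (Gl d m s j * L) := by ring
            rw [h6, abs_mul, abs_of_nonneg (mul_nonneg (InitT_Gl_nonneg d m s j) hell)]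
            have h7 : Gl d m s j * L ≤ 1 * L :=
              mul_le_mul_of_nonneg_right (InitT_Gl_le d m s j hm) hell
            calc |(N s : ℝ) - θ s * A| * (Gl d m s j * L) ≤ ((d : ℝ) + 1) * (1 * L) :=
                  mul_le_mul (habs s hs') h7 (mul_nonneg (InitT_Gl_nonneg d m s j) hell)
                    (by positivity)
              _ = ((d : ℝ) + 1) * L := by ring
        _ = (d + 1) ^ 2 * L := by
            rw [sum_const, card_range, nsmul_eq_mul]
            push_cast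
            ring
    have h8 : ((∑ x ∈ KK d, InitT_c d m E N x * Prw d m (W a b) x j : ℕ) : ℝ) =
        ∑ x ∈ KK d, (InitT_c d m E N x : ℝ) * (Prw d m (W a b) x j : ℝ) := by
      push_cast
      rfl
    have h9 : ((A * ell (a + b - 1) m : ℕ) : ℝ) = A * L := by
      push_cast
      rfl
    rw [h8, h9]
    rw [h3] at h4
    have h10 := abs_sub_le (∑ x ∈ KK d, (InitT_c d m E N x : ℝ) * (Prw d m (W a b) x j : ℝ))
      (∑ s ∈ range (d + 1), (N s : ℝ) * (Gl d m s j * L)) (Phi d j * (A * L))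
    calc _ ≤ _ := h10
      _ ≤ δ * A * L + (d + 1) ^ 2 * L := add_le_add h4 h5
      _ = _ := by ring

end Pool.Agent.H21.TC
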