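import Pool.Agent.H21.TC.Tot
import Pool.Agent.H51.TB.Grow

/-!
# TC3: the leading part of the conditions, for general weights

As `Pool/Agent/H51/TB/Lead.lean` (complete; copy it).  Replace `wt a b`, `Eg a b`, `Pre a b` by `wtw`, `W a b`,
`Prw`, `asy` by `hW`, `asy'` by `hB`, and `1 ≤ a → 1 ≤ b` by `2 ≤ a → 2 ≤ b`.  The bound `Lead_small` (the `g` with
`|g| ≤ m - 2`): by `hle` it follows from the one for `Eg` (`sum_wt`) (or use `sum_wtw` and `lamw_le`).

`lam_lead`: `Prw d m w (0, 0) d = lamw m w` (`Prw_last`), `Gl d m (st (0, 0)) d = 1` for `1 ≤ m ≤ d` (all `i < m` satisfy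
the condition, `∑_{i < m} binom (m - 1, i) = 2^(m-1)`); `m = 0`: both sides are `0` (`lamw 0 w = 0`,
`ell r 0 = 0` for `r ≥ 1`).  Finitely many `m ≤ d` (`Lead_unif`).
`tot_lead`: `Phi d d = 1`.
-/

namespace Pool.Agent.H21.TC

open Finset Pool.Agent.H18.Ex Pool.Agent.H21.NX Pool.Agent.H18.Ta Pool.Agent.H51.TB

private theorem LeadT_unif (N : ℕ) (P : ℕ → ℕ → ℕ → Prop)
    (h : ∀ q < N, ∃ ε : ℝ, 0 < ε ∧ ∃ n₀ : ℕ, ∀ a b : ℕ, 2 ≤ a → 2 ≤ b → n₀ ≤ a + b →
      |(a : ℝ) - b| ≤ ε * (a + b : ℕ) → P q a b) :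
    ∃ ε : ℝ, 0 < ε ∧ ∃ n₀ : ℕ, ∀ a b : ℕ, 2 ≤ a → 2 ≤ b → n₀ ≤ a + b →
      |(a : ℝ) - b| ≤ ε * (a + b : ℕ) → ∀ q < N, P q a b := by
  induction N with
  | zero => exact ⟨1, one_pos, 0, fun a b _ _ _ _ q hq => absurd hq (by omega)⟩
  | succ N ih =>
    obtain ⟨ε₁, hε₁, n₁, h₁⟩ := ih fun q hq => h q (by omega)
    obtain ⟨ε₂, hε₂, n₂, h₂⟩ := h N (by omega)
    refine ⟨min ε₁ ε₂, lt_min hε₁ hε₂, max n₁ n₂, fun a b ha hb hn hab q hq => ?_⟩
    have hpos : (0 : ℝ) ≤ (a + b : ℕ) := Nat.cast_nonneg _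
    have e1 : |(a : ℝ) - b| ≤ ε₁ * (a + b : ℕ) :=
      hab.trans (mul_le_mul_of_nonneg_right (min_le_left _ _) hpos)
    have e2 : |(a : ℝ) - b| ≤ ε₂ * (a + b : ℕ) :=
      hab.trans (mul_le_mul_of_nonneg_right (min_le_right _ _) hpos)
    rcases Nat.lt_or_ge q N with hqN | hqN
    · exact h₁ a b ha hb (le_trans (le_max_left _ _) hn) e1 q hqN
    · have : q = N := by omega
      subst this
      exact h₂ a b ha hb (le_trans (le_max_right _ _) hn) e2

private theorem LeadT_swap (w : ℕ × ℕ → ℕ) (d m : ℕ) (c : ℕ × ℕ) (N : ℕ) :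
    ∑ i ∈ range N, wtw d m w c i =
      ∑ g ∈ range m ×ˢ range m, w g * ((range N).filter fun i => g ∈ Lam d m c i).card := by
  have h1 : ∀ i, wtw d m w c i = ∑ g ∈ range m ×ˢ range m, if g ∈ Lam d m c i then w g else 0 := by
    intro i
    unfold wtw
    rw [Finset.sum_ite_mem]
    congr 1
    refine (Finset.inter_eq_right.2 ?_).symm
    unfold Lam
    exact Finset.filter_subset _ _
  simp only [h1]
  rw [Finset.sum_comm]
  refine Finset.sum_congr rfl fun g _ => ?_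
  rw [← Finset.sum_filter, Finset.sum_const, smul_eq_mul, mul_comm]

private theorem LeadT_mem {d m : ℕ} {c g : ℕ × ℕ} {i : ℕ} : g ∈ Lam d m c i ↔
    g.2 ≤ i ∧ i + g.1 ≤ d ∧ g.1 + g.2 + wr d c g i < m := by
  unfold Lam
  rw [mem_filter, mem_product, mem_range, mem_range]
  constructor
  · exact fun h => h.2
  · exact fun h => ⟨⟨by omega, by omega⟩, h⟩

/-- the level with the smallest rank in a window -/
private theorem LeadT_min {d u ρ lo hi i : ℕ} (hc : u + ρ ≤ d) (hlh : lo ≤ hi) (hhi : hi ≤ d) (h1 : lo ≤ i)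
    (h2 : i ≤ hi) {x : ℕ} (hx : x = max lo (min (st (u, ρ)) hi)) :
    rk (d + 1) u ρ x ≤ rk (d + 1) u ρ i := by
  unfold st at hx
  unfold rk
  simp only at hx
  split_ifs at hx ⊢ <;> omega

private theorem LeadT_star {d m : ℕ} {c g : ℕ × ℕ} {i : ℕ} (hc : c.1 + c.2 ≤ d) (hm : m ≤ d)
    (hg : g.1 + g.2 + 1 = m) (hi : i ≤ d) :
    g ∈ Lam d m c i ↔ i = max g.2 (min (st c) (d - g.1)) := by
  rw [LeadT_mem]
  set x := max g.2 (min (st c) (d - g.1)) with hx
  have hx1 : g.2 ≤ x := le_max_left _ _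
  have hx2 : x + g.1 ≤ d := by
    have : x ≤ d - g.1 := max_le (by omega) (min_le_right _ _)
    omega
  have hmin : ∀ i', g.2 ≤ i' → i' + g.1 ≤ d → rk (d + 1) c.1 c.2 x ≤ rk (d + 1) c.1 c.2 i' := fun i' h1 h2 =>
    LeadT_min (lo := g.2) (hi := d - g.1) hc (by omega) (by omega) h1 (by omega) hx
  have hwr : ∀ i', wr d c g i' = 0 ↔ ∀ i'' ≤ d, g.2 ≤ i'' → i'' + g.1 ≤ d →
      ¬ rk (d + 1) c.1 c.2 i'' < rk (d + 1) c.1 c.2 i' := by
    intro i'
    unfold wr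
    rw [Finset.card_eq_zero, Finset.filter_eq_empty_iff]
    constructor
    · intro h i'' h1 h2 h3 h4
      exact h (mem_range.2 (by omega)) ⟨h2, h3, h4⟩
    · intro h i'' h1 h2
      exact h i'' (by rw [mem_range] at h1; omega) h2.1 h2.2.1 h2.2.2
  constructor
  · rintro ⟨h1, h2, h3⟩
    have h4 : wr d c g i = 0 := by omega
    have h5 := (hwr i).1 h4 x (by omega) hx1 hx2
    have h6 := hmin i h1 h2
    exact rk_inj (ℓ := d + 1) (u := c.1) (j := c.2) (by omega) (by omega) (by omega) (by omega)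
  · intro hix
    rw [hix]
    have h4 : wr d c g x = 0 := (hwr x).2 fun i'' _ h2 h3 h4 => by
      have := hmin i'' h2 h3
      omega
    exact ⟨hx1, hx2, by omega⟩

private theorem LeadT_card {d m j : ℕ} {c g : ℕ × ℕ} (hc : c.1 + c.2 ≤ d) (hm : m ≤ d)
    (hg : g.1 + g.2 + 1 = m) (hj : j ≤ d) :
    ((range (j + 1)).filter fun i => g ∈ Lam d m c i).card =
      if g.2 ≤ j ∧ (st c ≤ j ∨ g.2 + (d + 1) ≤ j + m) then 1 else 0 := by
  have h1 : ((range (j + 1)).filter fun i => g ∈ Lam d m c i) =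
      (range (j + 1)).filter fun i => i = max g.2 (min (st c) (d - g.1)) := by
    refine Finset.filter_congr fun i hi => ?_
    rw [mem_range] at hi
    exact LeadT_star hc hm hg (by omega)
  rw [h1, Finset.filter_eq']
  have h2 : (max g.2 (min (st c) (d - g.1)) ∈ range (j + 1)) ↔
      (g.2 ≤ j ∧ (st c ≤ j ∨ g.2 + (d + 1) ≤ j + m)) := by
    rw [mem_range, Nat.lt_succ_iff, max_le_iff, min_le_iff]
    have : d - g.1 ≤ j ↔ g.2 + (d + 1) ≤ j + m := by omega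
    rw [this]
  by_cases h3 : g.2 ≤ j ∧ (st c ≤ j ∨ g.2 + (d + 1) ≤ j + m)
  · rw [if_pos h3, if_pos (h2.2 h3), Finset.card_singleton]
  · rw [if_neg h3, if_neg fun h => h3 (h2.1 h), Finset.card_empty]

private theorem LeadT_ratio {n c : ℕ} (hn : 1 ≤ n) : ell n c * (c + n) = ell n (c + 1) * c := by
  rcases Nat.eq_zero_or_pos c with h | h
  · subst h
    rw [ell_zero hn]; simp
  · unfold ell
    have := Nat.choose_mul_succ_eq (c + n - 1) n
    rw [show c + n - 1 + 1 = c + n by omega, show c + n - n = c by omega] at this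
    rw [show c + 1 + n - 1 = c + n by omega]
    exact this

/-- the contribution of the bidegrees `g` with `|g| ≤ m - 2` -/
private theorem LeadT_small {a b d m j : ℕ} (ha : 1 ≤ a) (hb : 1 ≤ b) (hm : 1 ≤ m) (hmd : m ≤ d) (hj : j ≤ d)
    {c : ℕ × ℕ} (hc : c.1 + c.2 ≤ d) {w : ℕ × ℕ → ℕ} (hw : ∀ g, w g ≤ Eg a b g) :
    ∑ g ∈ (range m ×ˢ range m).filter (fun g => ¬ (g.1 + g.2 + 1 = m)),
      w g * ((range (j + 1)).filter fun i => g ∈ Lam d m c i).card ≤
      (d + 1) * ell (a + b - 1) (m - 1) := by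
  refine (Finset.sum_le_sum fun g _ => Nat.mul_le_mul_right _ (hw g)).trans ?_
  have h1 := sum_wt (d := d) (m := m - 1) ha hb (by omega) hc
  have h0 : ∑ j ∈ range (d + 1), wt a b d (m - 1) c j =
      ∑ j ∈ range (d + 1), wtw d (m - 1) (Eg a b) c j := rfl
  rw [h0, LeadT_swap] at h1
  rw [← h1, Finset.mul_sum]
  have h2 : ∑ g ∈ (range m ×ˢ range m).filter (fun g => ¬ (g.1 + g.2 + 1 = m)),
      Eg a b g * ((range (j + 1)).filter fun i => g ∈ Lam d m c i).card ≤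
      ∑ g ∈ (range (m - 1) ×ˢ range (m - 1)).filter (fun g => g.1 + g.2 < m - 1),
      (d + 1) * (Eg a b g * ((range (d + 1)).filter fun i => g ∈ Lam d (m - 1) c i).card) := by
    rw [← Finset.sum_filter_add_sum_filter_not _ (fun g : ℕ × ℕ => g.1 + g.2 < m - 1)]
    have e1 : ∑ g ∈ ((range m ×ˢ range m).filter (fun g => ¬ (g.1 + g.2 + 1 = m))).filter
        (fun g : ℕ × ℕ => ¬ (g.1 + g.2 < m - 1)),
        Eg a b g * ((range (j + 1)).filter fun i => g ∈ Lam d m c i).card = 0 := by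
      refine Finset.sum_eq_zero fun g hg => ?_
      simp only [mem_filter, mem_product, mem_range] at hg
      have : ((range (j + 1)).filter fun i => g ∈ Lam d m c i) = ∅ := by
        rw [Finset.filter_eq_empty_iff]
        intro i _ hi
        rw [LeadT_mem] at hi
        omega
      rw [this, Finset.card_empty, mul_zero]
    rw [e1, add_zero]
    have e2 : ((range m ×ˢ range m).filter (fun g => ¬ (g.1 + g.2 + 1 = m))).filter
        (fun g : ℕ × ℕ => g.1 + g.2 < m - 1) =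
        (range (m - 1) ×ˢ range (m - 1)).filter (fun g => g.1 + g.2 < m - 1) := by
      ext g
      simp only [mem_filter, mem_product, mem_range]
      omega
    rw [e2]
    refine Finset.sum_le_sum fun g hg => ?_
    simp only [mem_filter, mem_product, mem_range] at hg
    have e3 := card_levels (d := d) (m := m - 1) (by omega) hc g hg.2
    rw [e3]
    have e4 : ((range (j + 1)).filter fun i => g ∈ Lam d m c i).card ≤ d + 1 := by
      refine (Finset.card_filter_le _ _).trans ?_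
      rw [card_range]; omega
    have e5 : 1 ≤ m - 1 - (g.1 + g.2) := by omega
    calc Eg a b g * ((range (j + 1)).filter fun i => g ∈ Lam d m c i).card ≤ Eg a b g * (d + 1) :=
          Nat.mul_le_mul_left _ e4
      _ = (d + 1) * (Eg a b g * 1) := by ring
      _ ≤ (d + 1) * (Eg a b g * (m - 1 - (g.1 + g.2))) :=
          Nat.mul_le_mul_left _ (Nat.mul_le_mul_left _ e5)
  refine h2.trans (Finset.sum_le_sum_of_subset (Finset.filter_subset _ _))

private theorem LeadT_top (w : ℕ × ℕ → ℕ) {d m j : ℕ} (hmd : m ≤ d) (hj : j ≤ d)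
    {c : ℕ × ℕ} (hc : c.1 + c.2 ≤ d) :
    ∑ g ∈ (range m ×ˢ range m).filter (fun g => g.1 + g.2 + 1 = m),
      w g * ((range (j + 1)).filter fun i => g ∈ Lam d m c i).card =
      ∑ q ∈ range m, w (m - 1 - q, q) *
        (if q ≤ j ∧ (st c ≤ j ∨ q + (d + 1) ≤ j + m) then 1 else 0) := by
  refine Finset.sum_nbij' (fun g => g.2) (fun q => (m - 1 - q, q)) ?_ ?_ ?_ ?_ ?_
  · intro g hg
    simp only [mem_filter, mem_product, mem_range] at hg ⊢
    exact hg.1.2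
  · intro q hq
    simp only [mem_filter, mem_product, mem_range] at hq ⊢
    omega
  · rintro ⟨x, y⟩ hg
    simp only [mem_filter, mem_product, mem_range] at hg ⊢
    rw [Prod.mk.injEq]
    omega
  · intro q hq
    rfl
  · rintro ⟨x, y⟩ hg
    simp only [mem_filter, mem_product, mem_range] at hg
    have hx : x = m - 1 - y := by omega
    subst hx
    rw [LeadT_card hc hmd (by simp only; omega) hj]

private theorem LeadT_Gl {d m : ℕ} (hm : 1 ≤ m) (hmd : m ≤ d) :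
    Gl d m (st (0, 0)) d = 1 := by
  unfold Gl
  have h1 : ∑ i ∈ range m, (if i ≤ d ∧ (st (0, 0) ≤ d ∨ i + (d + 1) ≤ d + m) then
      ((m - 1).choose i : ℝ) else 0) = 2 ^ (m - 1) := by
    have h2 : ∑ i ∈ range m, (if i ≤ d ∧ (st (0, 0) ≤ d ∨ i + (d + 1) ≤ d + m) then
        ((m - 1).choose i : ℝ) else 0) = ∑ i ∈ range (m - 1 + 1), ((m - 1).choose i : ℝ) := by
      rw [show m - 1 + 1 = m by omega]
      refine Finset.sum_congr rfl fun i hi => ?_
      rw [mem_range] at hi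
      have h3 : st (0, 0) = 0 := rfl
      rw [if_pos ⟨by omega, Or.inl (by omega)⟩]
    rw [h2]
    exact_mod_cast Nat.sum_range_choose (m - 1)
  rw [h1, div_self (by positivity)]

theorem leadw (d m : ℕ) (hm : 1 ≤ m) (hmd : m ≤ d) (W : ℕ → ℕ → ℕ × ℕ → ℕ)
    (hle : ∀ a b, 2 ≤ a → 2 ≤ b → ∀ g, W a b g ≤ Eg a b g) (hW : AsyW W) (δ : ℝ) (hδ : 0 < δ) :
    ∃ ε : ℝ, 0 < ε ∧ ∃ n₀ : ℕ, ∀ a b : ℕ, 2 ≤ a → 2 ≤ b → n₀ ≤ a + b →
    |(a : ℝ) - b| ≤ ε * (a + b : ℕ) → ∀ c ∈ KK d, ∀ j ≤ d,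
    |(Prw d m (W a b) c j : ℝ) - Gl d m (st c) j * (ell (a + b - 1) m : ℝ)| ≤
      δ * (ell (a + b - 1) m : ℝ) := by
  have hm0 : (0 : ℝ) < m := by exact_mod_cast hm
  obtain ⟨ε, hε, n₀, h⟩ := LeadT_unif m (fun q a b =>
    |(W a b (m - 1 - q, q) : ℝ) - ((m - 1).choose q : ℝ) / 2 ^ (m - 1) * (ell (a + b - 1) m : ℝ)| ≤
      δ / (2 * m) * (ell (a + b - 1) m : ℝ)) (fun q hq => by
    obtain ⟨ε, hε, n₀, h⟩ := hW (m - 1 - q) q (δ / (2 * m)) (by positivity)
    refine ⟨ε, hε, n₀, fun a b ha hb hn hab => ?_⟩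
    have := h a b ha hb hn hab
    rw [show m - 1 - q + q = m - 1 by omega, show m - 1 + 1 = m by omega] at this
    exact this)
  obtain ⟨N, hN⟩ := exists_nat_ge (2 * (d + 1) * d / δ : ℝ)
  refine ⟨ε, hε, max n₀ (N + 2), fun a b ha hb hn hab c hc j hj => ?_⟩
  rw [mem_KK] at hc
  have hq := h a b ha hb (le_trans (le_max_left _ _) hn) hab
  have hn2 : N + 2 ≤ a + b := le_trans (le_max_right _ _) hn
  set n := a + b - 1 with hndef
  set L : ℝ := (ell n m : ℝ) with hL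
  have hL0 : 0 ≤ L := Nat.cast_nonneg _
  -- the decomposition
  have hPre : (Prw d m (W a b) c j : ℝ) =
      ((∑ q ∈ range m, W a b (m - 1 - q, q) *
        (if q ≤ j ∧ (st c ≤ j ∨ q + (d + 1) ≤ j + m) then 1 else 0) : ℕ) : ℝ) +
      ((∑ g ∈ (range m ×ˢ range m).filter (fun g => ¬ (g.1 + g.2 + 1 = m)),
        W a b g * ((range (j + 1)).filter fun i => g ∈ Lam d m c i).card : ℕ) : ℝ) := by
    unfold Prw
    rw [LeadT_swap, ← Finset.sum_filter_add_sum_filter_not _ (fun g : ℕ × ℕ => g.1 + g.2 + 1 = m),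
      LeadT_top (W a b) hmd hj hc, Nat.cast_add]
  have hsmall := LeadT_small (by omega) (by omega) hm hmd hj hc (hle a b ha hb)
  set Bn : ℕ := ∑ g ∈ (range m ×ˢ range m).filter (fun g => ¬ (g.1 + g.2 + 1 = m)),
        W a b g * ((range (j + 1)).filter fun i => g ∈ Lam d m c i).card with hBn
  have hB1 : (Bn : ℝ) ≤ (d + 1) * (ell n (m - 1) : ℝ) := by exact_mod_cast hsmall
  have hn1 : 1 ≤ n := by omega
  have hnR : (0 : ℝ) < n := by exact_mod_cast hn1
  have hratio : (ell n (m - 1) : ℝ) * n ≤ L * d := by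
    have h1 := LeadT_ratio (c := m - 1) hn1
    rw [show m - 1 + 1 = m by omega] at h1
    have h2 : ell n (m - 1) * n ≤ ell n m * d := by
      calc ell n (m - 1) * n ≤ ell n (m - 1) * (m - 1 + n) := Nat.mul_le_mul_left _ (by omega)
        _ = ell n m * (m - 1) := h1
        _ ≤ ell n m * d := Nat.mul_le_mul_left _ (by omega)
    rw [hL]
    exact_mod_cast h2
  have hNn : (2 * (d + 1) * d / δ : ℝ) ≤ n := by
    refine hN.trans ?_
    exact_mod_cast (by omega : N ≤ n)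
  have hB2 : (Bn : ℝ) ≤ δ / 2 * L := by
    rw [div_le_iff₀ hδ] at hNn
    have h1 : (d + 1) * (ell n (m - 1) : ℝ) * n ≤ δ / 2 * L * n := by
      calc (d + 1) * (ell n (m - 1) : ℝ) * n = (d + 1) * ((ell n (m - 1) : ℝ) * n) := by ring
        _ ≤ (d + 1) * (L * d) := by gcongr
        _ = L * (2 * (d + 1) * d) / 2 := by ring
        _ ≤ L * (n * δ) / 2 := by gcongr
        _ = δ / 2 * L * n := by ring
    have h2 : (d + 1) * (ell n (m - 1) : ℝ) ≤ δ / 2 * L := le_of_mul_le_mul_right h1 hnR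
    exact hB1.trans h2
  have hA : |((∑ q ∈ range m, W a b (m - 1 - q, q) *
        (if q ≤ j ∧ (st c ≤ j ∨ q + (d + 1) ≤ j + m) then 1 else 0) : ℕ) : ℝ) - Gl d m (st c) j * L| ≤
      δ / 2 * L := by
    have e1 : Gl d m (st c) j * L = ∑ q ∈ range m,
        (if q ≤ j ∧ (st c ≤ j ∨ q + (d + 1) ≤ j + m) then ((m - 1).choose q : ℝ) / 2 ^ (m - 1) * L else 0) := by
      unfold Gl
      rw [Finset.sum_div, Finset.sum_mul]
      refine Finset.sum_congr rfl fun q _ => ?_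
      split_ifs <;> simp
    rw [e1]
    push_cast
    rw [← Finset.sum_sub_distrib]
    refine (Finset.abs_sum_le_sum_abs _ _).trans ?_
    calc ∑ q ∈ range m, |(W a b (m - 1 - q, q) : ℝ) *
          (if q ≤ j ∧ (st c ≤ j ∨ q + (d + 1) ≤ j + m) then 1 else 0) -
          (if q ≤ j ∧ (st c ≤ j ∨ q + (d + 1) ≤ j + m) then ((m - 1).choose q : ℝ) / 2 ^ (m - 1) * L else 0)|
        ≤ ∑ q ∈ range m, δ / (2 * m) * L := by
          refine Finset.sum_le_sum fun q hq' => ?_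
          rw [mem_range] at hq'
          split_ifs
          · rw [mul_one]; exact hq q hq'
          · rw [mul_zero, sub_zero, abs_zero]; positivity
      _ = δ / 2 * L := by
          rw [Finset.sum_const, card_range, nsmul_eq_mul]
          field_simp
  rw [hPre, abs_le]
  rw [abs_le] at hA
  have hBn0 : (0 : ℝ) ≤ Bn := Nat.cast_nonneg _
  constructor <;> linarith

theorem leadB (d : ℕ) (B : ℕ → ℕ → ℕ → ℕ) (hB : AsyB d B) (δ : ℝ) (hδ : 0 < δ) :
    ∃ ε : ℝ, 0 < ε ∧ ∃ n₀ : ℕ, ∀ a b : ℕ, 2 ≤ a → 2 ≤ b → n₀ ≤ a + b →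
    |(a : ℝ) - b| ≤ ε * (a + b : ℕ) → ∀ j ≤ d,
    |((∑ i ∈ range (j + 1), B a b i : ℕ) : ℝ) - Phi d j * (ell (a + b - 1) (d + 1) : ℝ)| ≤
      δ * (ell (a + b - 1) (d + 1) : ℝ) := by
  obtain ⟨ε, hε, n₀, h⟩ := LeadT_unif (d + 1) (fun q a b =>
    |(B a b q : ℝ) - (d.choose q : ℝ) / 2 ^ d * (ell (a + b - 1) (d + 1) : ℝ)| ≤
      δ / (d + 1) * (ell (a + b - 1) (d + 1) : ℝ)) (fun q hq => by
    exact hB q (by omega) (δ / (d + 1)) (by positivity))
  refine ⟨ε, hε, n₀, fun a b ha hb hn hab j hj => ?_⟩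
  have hq := h a b ha hb hn hab
  set L : ℝ := (ell (a + b - 1) (d + 1) : ℝ) with hL
  have hL0 : 0 ≤ L := Nat.cast_nonneg _
  have e1 : Phi d j * L = ∑ i ∈ range (j + 1), (d.choose i : ℝ) / 2 ^ d * L := by
    unfold Phi
    rw [Finset.sum_div, Finset.sum_mul]
  rw [e1]
  push_cast
  rw [← Finset.sum_sub_distrib]
  refine (Finset.abs_sum_le_sum_abs _ _).trans ?_
  calc ∑ i ∈ range (j + 1), |(B a b i : ℝ) - (d.choose i : ℝ) / 2 ^ d * L|
      ≤ ∑ i ∈ range (j + 1), δ / (d + 1) * L := by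
        refine Finset.sum_le_sum fun i hi => ?_
        rw [mem_range] at hi
        exact hq i (by omega)
    _ = (j + 1 : ℕ) * (δ / (d + 1) * L) := by
        rw [Finset.sum_const, card_range, nsmul_eq_mul]
    _ ≤ (d + 1 : ℕ) * (δ / (d + 1) * L) := by
        refine mul_le_mul_of_nonneg_right ?_ (by positivity)
        exact_mod_cast (by omega : j + 1 ≤ d + 1)
    _ = δ * L := by push_cast; field_simp

theorem lam_lead (d : ℕ) (W : ℕ → ℕ → ℕ × ℕ → ℕ)
    (hle : ∀ a b, 2 ≤ a → 2 ≤ b → ∀ g, W a b g ≤ Eg a b g) (hW : AsyW W) (δ : ℝ) (hδ : 0 < δ) :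
    ∃ ε : ℝ, 0 < ε ∧ ∃ n₀ : ℕ, ∀ a b : ℕ, 2 ≤ a → 2 ≤ b → n₀ ≤ a + b →
    |(a : ℝ) - b| ≤ ε * (a + b : ℕ) → ∀ m ≤ d,
    |(lamw m (W a b) : ℝ) - (ell (a + b - 1) m : ℝ)| ≤ δ * (ell (a + b - 1) m : ℝ) := by
  have h0 : (0, 0) ∈ KK d := by
    rw [mem_KK]
    exact Nat.zero_le _
  obtain ⟨ε, hε, n₀, h⟩ := LeadT_unif (d + 1) (fun m a b =>
    |(lamw m (W a b) : ℝ) - (ell (a + b - 1) m : ℝ)| ≤ δ * (ell (a + b - 1) m : ℝ)) (fun m hm => by
    rcases Nat.eq_zero_or_pos m with h1 | h1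
    · subst h1
      refine ⟨1, one_pos, 0, fun a b ha hb _ _ => ?_⟩
      have e1 : lamw 0 (W a b) = 0 := by
        unfold lamw
        simp
      rw [e1, ell_zero (by omega)]
      simp
    · obtain ⟨ε, hε, n₀, h⟩ := leadw d m h1 (by omega) W hle hW δ hδ
      refine ⟨ε, hε, n₀, fun a b ha hb hn hab => ?_⟩
      have h2 := h a b ha hb hn hab (0, 0) h0 d le_rfl
      rw [Prw_last (by omega) (Nat.zero_le _), LeadT_Gl h1 (by omega), one_mul] at h2
      exact h2)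
  exact ⟨ε, hε, n₀, fun a b ha hb hn hab m hm => h a b ha hb hn hab m (by omega)⟩

theorem tot_lead (d : ℕ) (B : ℕ → ℕ → ℕ → ℕ) (hB : AsyB d B) (δ : ℝ) (hδ : 0 < δ) :
    ∃ ε : ℝ, 0 < ε ∧ ∃ n₀ : ℕ, ∀ a b : ℕ, 2 ≤ a → 2 ≤ b → n₀ ≤ a + b →
    |(a : ℝ) - b| ≤ ε * (a + b : ℕ) →
    |((∑ i ∈ range (d + 1), B a b i : ℕ) : ℝ) - (ell (a + b - 1) (d + 1) : ℝ)| ≤
      δ * (ell (a + b - 1) (d + 1) : ℝ) := by
  obtain ⟨ε, hε, n₀, h⟩ := leadB d B hB δ hδ
  refine ⟨ε, hε, n₀, fun a b ha hb hn hab => ?_⟩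
  have h1 := h a b ha hb hn hab d le_rfl
  have h2 : Phi d d = 1 := by
    unfold Phi
    have h3 : ∑ i ∈ range (d + 1), (d.choose i : ℝ) = 2 ^ d := by
      exact_mod_cast Nat.sum_range_choose d
    rw [h3, div_self (by positivity)]
  rw [h2, one_mul] at h1
  exact h1

end Pool.Agent.H21.TC
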