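import Pool.Agent.H21.TC.Init

/-!
# TC7: the initial distribution of all points, for general weights

As `Pool/Agent/H51/TB/Start.lean` (complete; copy it), with `Prw d m (W a b)`, `initw`, `leadB` instead of
`Pre a b d m`, `init`, `lead_bet`.  The only new point: the totals are now `N' = ∑_{i ≤ d} B a b i` and
`T' = ∑_m A m * lamw m (W a b)` instead of `N = ell (n - 1) (d + 1)` and `T = ∑_m A m * ell (n - 1) m`.  By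
`tot_lead` `|N' - N| ≤ δ' N`, by `lam_lead` (`lamw m ≥ (1 - δ') ell m`; all `m` with `A m ≠ 0` are `≤ d`) and `lamw_le`
`(1 - δ') T ≤ T' ≤ T`, so `|T - N| ≤ C (δ' N + ell (n - 1) d)` again.  (E.g. `T ≤ 2 T' ≤ 2 (N' + ell d) ≤ 6 N` first,
then `T - T' ≤ δ' T ≤ 6 δ' N`.)
-/

namespace Pool.Agent.H21.TC

open Finset Pool.Agent.H18.Ex Pool.Agent.H21.NX Pool.Agent.H18.Ta Pool.Agent.H51.TB

private theorem StartT_min (d : ℕ) (f : ℕ → ℝ) (hf : ∀ m, 0 < f m) : ∃ e : ℝ, 0 < e ∧ ∀ m ≤ d, e ≤ f m := by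
  obtain ⟨m, _, hm⟩ := Finset.exists_min_image (range (d + 1)) f ⟨0, mem_range.2 (by omega)⟩
  exact ⟨f m, hf m, fun k hk => hm k (mem_range.2 (by omega))⟩

private theorem StartT_max (d : ℕ) (f : ℕ → ℕ) : ∃ e : ℕ, ∀ m ≤ d, f m ≤ e :=
  ⟨∑ m ∈ range (d + 1), f m, fun m hm =>
    single_le_sum (f := f) (fun _ _ => Nat.zero_le _) (mem_range.2 (by omega))⟩

private theorem StartT_unif (d : ℕ) (W : ℕ → ℕ → ℕ × ℕ → ℕ)
    (hle : ∀ a b, 2 ≤ a → 2 ≤ b → ∀ g, W a b g ≤ Eg a b g) (hW : AsyW W) : ∃ e : ℝ, 0 < e ∧ ∀ δ : ℝ, 0 < δ →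
    ∃ ε : ℝ, 0 < ε ∧ ∃ n₀ : ℕ, ∀ a b : ℕ, 2 ≤ a → 2 ≤ b → n₀ ≤ a + b →
    |(a : ℝ) - b| ≤ ε * (a + b : ℕ) → ∀ m ≤ d, 1 ≤ m → 2 * m ≤ d + 1 → ∀ A E : ℕ, (E : ℝ) ≤ e * A →
    ∃ c₀ : ℕ × ℕ → ℕ, ∑ x ∈ KK d, c₀ x = A ∧ (∀ x ∈ KK d, x.2 ≤ m → E ≤ c₀ x) ∧
      ∀ j ≤ d, |((∑ x ∈ KK d, c₀ x * Prw d m (W a b) x j : ℕ) : ℝ) -
        Phi d j * ((A * ell (a + b - 1) m : ℕ) : ℝ)| ≤
        (δ * A + (d + 1) ^ 2) * (ell (a + b - 1) m : ℝ) := by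
  have h1 : ∀ m : ℕ, ∃ e : ℝ, 0 < e ∧ (1 ≤ m → 2 * m ≤ d + 1 → ∀ δ : ℝ, 0 < δ →
    ∃ ε : ℝ, 0 < ε ∧ ∃ n₀ : ℕ, ∀ a b : ℕ, 2 ≤ a → 2 ≤ b → n₀ ≤ a + b →
    |(a : ℝ) - b| ≤ ε * (a + b : ℕ) → ∀ A E : ℕ, (E : ℝ) ≤ e * A →
    ∃ c₀ : ℕ × ℕ → ℕ, ∑ x ∈ KK d, c₀ x = A ∧ (∀ x ∈ KK d, x.2 ≤ m → E ≤ c₀ x) ∧
      ∀ j ≤ d, |((∑ x ∈ KK d, c₀ x * Prw d m (W a b) x j : ℕ) : ℝ) -
        Phi d j * ((A * ell (a + b - 1) m : ℕ) : ℝ)| ≤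
        (δ * A + (d + 1) ^ 2) * (ell (a + b - 1) m : ℝ)) := by
    intro m
    by_cases hm : 1 ≤ m ∧ 2 * m ≤ d + 1
    · obtain ⟨e, he, H⟩ := initw d m hm.1 hm.2 W hle hW
      exact ⟨e, he, fun _ _ => H⟩
    · exact ⟨1, one_pos, fun ha hb => absurd ⟨ha, hb⟩ hm⟩
  choose f hf hF using h1
  obtain ⟨e, he, hef⟩ := StartT_min d f hf
  refine ⟨e, he, fun δ hδ => ?_⟩
  have h2 : ∀ m : ℕ, ∃ ε : ℝ, 0 < ε ∧ ∃ n₀ : ℕ, (1 ≤ m → 2 * m ≤ d + 1 → ∀ a b : ℕ, 2 ≤ a → 2 ≤ b →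
    n₀ ≤ a + b → |(a : ℝ) - b| ≤ ε * (a + b : ℕ) → ∀ A E : ℕ, (E : ℝ) ≤ f m * A →
    ∃ c₀ : ℕ × ℕ → ℕ, ∑ x ∈ KK d, c₀ x = A ∧ (∀ x ∈ KK d, x.2 ≤ m → E ≤ c₀ x) ∧
      ∀ j ≤ d, |((∑ x ∈ KK d, c₀ x * Prw d m (W a b) x j : ℕ) : ℝ) -
        Phi d j * ((A * ell (a + b - 1) m : ℕ) : ℝ)| ≤
        (δ * A + (d + 1) ^ 2) * (ell (a + b - 1) m : ℝ)) := by
    intro m
    by_cases hm : 1 ≤ m ∧ 2 * m ≤ d + 1
    · obtain ⟨ε, hε, n₀, H⟩ := hF m hm.1 hm.2 δ hδ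
      exact ⟨ε, hε, n₀, fun _ _ => H⟩
    · exact ⟨1, one_pos, 0, fun ha hb => absurd ⟨ha, hb⟩ hm⟩
  choose g hg k hk using h2
  obtain ⟨ε, hε, hεg⟩ := StartT_min d g hg
  obtain ⟨n₀, hn₀⟩ := StartT_max d k
  refine ⟨ε, hε, n₀, fun a b ha hb hn hab m hm h1m h2m A E hE => ?_⟩
  refine hk m h1m h2m a b ha hb ((hn₀ m hm).trans hn) (hab.trans ?_) A E (hE.trans ?_)
  · exact mul_le_mul_of_nonneg_right (hεg m hm) (Nat.cast_nonneg _)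
  · exact mul_le_mul_of_nonneg_right (hef m hm) (Nat.cast_nonneg _)

private theorem StartT_Phi (d j : ℕ) (hj : j ≤ d) : 0 ≤ Phi d j ∧ Phi d j ≤ 1 := by
  unfold Phi
  constructor
  · positivity
  · rw [div_le_one (by positivity)]
    have h1 : ∑ i ∈ range (j + 1), (d.choose i : ℝ) ≤ ∑ i ∈ range (d + 1), (d.choose i : ℝ) :=
      sum_le_sum_of_subset_of_nonneg (range_subset_range.2 (by omega)) fun i _ _ => Nat.cast_nonneg _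
    refine h1.trans (le_of_eq ?_)
    have h2 := Nat.sum_range_choose d
    exact_mod_cast h2

private theorem StartT_ell_le {n d : ℕ} (hn : 1 ≤ n) (hd : 1 ≤ d) : ell (n - 1) d ≤ ell n d := by
  obtain ⟨n', rfl⟩ : ∃ n', n = n' + 1 := ⟨n - 1, by omega⟩
  obtain ⟨d', rfl⟩ : ∃ d', d = d' + 1 := ⟨d - 1, by omega⟩
  rw [Nat.add_sub_cancel, ell_succ]
  exact Nat.le_add_left _ _

private theorem StartT_Prw {a b d m j : ℕ} {w : ℕ × ℕ → ℕ} (ha : 1 ≤ a) (hb : 1 ≤ b)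
    (hw : ∀ g, w g ≤ Eg a b g) (hm : m ≤ d) (hj : j ≤ d) :
    Prw d m w (0, 0) j ≤ ell (a + b - 1) d := by
  have h1 := Prw_last (d := d) (m := m) (by omega) (c := (0, 0)) (Nat.zero_le d) w
  have h2 := lamw_le (m := m) ha hb hw
  have h3 : Prw d m w (0, 0) j ≤ Prw d m w (0, 0) d := by
    unfold Prw
    exact sum_le_sum_of_subset (range_subset_range.2 (by omega))
  calc Prw d m w (0, 0) j ≤ Prw d m w (0, 0) d := h3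
    _ = lamw m w := h1
    _ ≤ ell (a + b - 1) m := h2
    _ ≤ ell (a + b - 1) d := ell_mono _ hm

theorem startw (d : ℕ) (W : ℕ → ℕ → ℕ × ℕ → ℕ)
    (hle : ∀ a b, 2 ≤ a → 2 ≤ b → ∀ g, W a b g ≤ Eg a b g) (hW : AsyW W)
    (B : ℕ → ℕ → ℕ → ℕ) (hB : AsyB d B) : ∃ e : ℝ, 0 < e ∧ ∀ δ : ℝ, 0 < δ →
    ∃ ε : ℝ, 0 < ε ∧ ∃ n₀ : ℕ, ∀ a b : ℕ, 2 ≤ a → 2 ≤ b → n₀ ≤ a + b →
    |(a : ℝ) - b| ≤ ε * (a + b : ℕ) → ∀ (M μ m₀ : ℕ) (A : ℕ → ℕ), 1 ≤ μ → μ ≤ M → μ + M ≤ d →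
    m₀ ≤ d → (∀ m, A m ≠ 0 → 1 ≤ m ∧ m ≤ M ∧ m + M ≤ d + 1) →
    ∑ i ∈ range (d + 1), B a b i ≤
      lamw m₀ (W a b) + ∑ m ∈ range (d + 1), A m * lamw m (W a b) →
    lamw m₀ (W a b) + ∑ m ∈ range (d + 1), A m * lamw m (W a b) ≤
      ∑ i ∈ range (d + 1), B a b i + ell (a + b - 1) d →
    ∀ E : ℕ, (E : ℝ) ≤ e * A μ →
    ∃ c₀ : ℕ → ℕ × ℕ → ℕ, (∀ m ∈ range (d + 1), ∑ x ∈ KK d, c₀ m x = A m) ∧
      (∀ x ∈ KK d, x.2 ≤ μ → E ≤ c₀ μ x) ∧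
      ∀ j ≤ d, |((Prw d m₀ (W a b) (0, 0) j +
        ∑ m ∈ range (d + 1), ∑ x ∈ KK d, c₀ m x * Prw d m (W a b) x j : ℕ) : ℝ) -
        ((∑ i ∈ range (j + 1), B a b i : ℕ) : ℝ)| ≤ δ * (ell (a + b - 1) (d + 1) : ℝ) := by
  obtain ⟨e, he, H⟩ := StartT_unif d W hle hW
  refine ⟨e, he, fun δ hδ => ?_⟩
  obtain ⟨δ', hδ'd⟩ : ∃ δ' : ℝ, δ' = min (δ / 16) (1 / 2) := ⟨_, rfl⟩
  have hδ' : 0 < δ' := by
    rw [hδ'd]
    exact lt_min (by linarith) (by norm_num)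
  have hδ1 : δ' ≤ δ / 16 := hδ'd ▸ min_le_left _ _
  have hδ2 : δ' ≤ 1 / 2 := hδ'd ▸ min_le_right _ _
  obtain ⟨ε1, hε1, n1, H1⟩ := H δ' hδ'
  obtain ⟨ε2, hε2, n2, H2⟩ := leadB d B hB δ' hδ'
  obtain ⟨ε4, hε4, n4, H4⟩ := lam_lead d W hle hW δ' hδ'
  obtain ⟨ε5, hε5, n5, H5⟩ := tot_lead d B hB δ' hδ'
  obtain ⟨n3, H3⟩ := grow_one d (2 * (5 + (d + 1) ^ 3) / δ)
  refine ⟨min (min ε1 ε2) (min ε4 ε5), lt_min (lt_min hε1 hε2) (lt_min hε4 hε5),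
    max (max n1 n2) (max n3 (max n4 n5)), ?_⟩
  intro a b ha hb hn hab M μ m₀ A hμ hμM hμd hm₀ hA hlo hhi E hE
  have hn1 : n1 ≤ a + b := by omega
  have hn2 : n2 ≤ a + b := by omega
  have hn3 : n3 ≤ a + b := by omega
  have hn4 : n4 ≤ a + b := by omega
  have hn5 : n5 ≤ a + b := by omega
  have hab1 : |(a : ℝ) - b| ≤ ε1 * (a + b : ℕ) :=
    hab.trans (mul_le_mul_of_nonneg_right ((min_le_left _ _).trans (min_le_left _ _))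
      (Nat.cast_nonneg _))
  have hab2 : |(a : ℝ) - b| ≤ ε2 * (a + b : ℕ) :=
    hab.trans (mul_le_mul_of_nonneg_right ((min_le_left _ _).trans (min_le_right _ _))
      (Nat.cast_nonneg _))
  have hab4 : |(a : ℝ) - b| ≤ ε4 * (a + b : ℕ) :=
    hab.trans (mul_le_mul_of_nonneg_right ((min_le_right _ _).trans (min_le_left _ _))
      (Nat.cast_nonneg _))
  have hab5 : |(a : ℝ) - b| ≤ ε5 * (a + b : ℕ) :=
    hab.trans (mul_le_mul_of_nonneg_right ((min_le_right _ _).trans (min_le_right _ _))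
      (Nat.cast_nonneg _))
  have hc : ∀ m, ∃ c : ℕ × ℕ → ℕ, m ≤ d → (∑ x ∈ KK d, c x = A m ∧
      (∀ x ∈ KK d, x.2 ≤ μ → m = μ → E ≤ c x) ∧
      ∀ j ≤ d, |((∑ x ∈ KK d, c x * Prw d m (W a b) x j : ℕ) : ℝ) -
        Phi d j * ((A m * ell (a + b - 1) m : ℕ) : ℝ)| ≤
        (δ' * A m + (d + 1) ^ 2) * (ell (a + b - 1) m : ℝ)) := by
    intro m
    by_cases hAm : A m = 0
    · refine ⟨fun _ => 0, fun _ => ⟨by simp [hAm], ?_, ?_⟩⟩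
      · intro x _ _ hmμ
        rw [← hmμ, hAm, Nat.cast_zero, mul_zero] at hE
        have : (E : ℝ) = 0 := le_antisymm hE (Nat.cast_nonneg _)
        have : E = 0 := by exact_mod_cast this
        exact this.le
      · intro j _
        rw [hAm]
        simp only [zero_mul, sum_const_zero, Nat.cast_zero, mul_zero, sub_zero, abs_zero, zero_add]
        positivity
    · obtain ⟨h1, h2, h3⟩ := hA m hAm
      have hmd : m ≤ d := by omega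
      have hEm : (((if m = μ then E else 0 : ℕ)) : ℝ) ≤ e * A m := by
        split_ifs with h
        · rw [h]
          exact hE
        · rw [Nat.cast_zero]
          positivity
      obtain ⟨c, hc1, hc2, hc3⟩ := H1 a b ha hb hn1 hab1 m hmd h1 (by omega) (A m)
        (if m = μ then E else 0) hEm
      refine ⟨c, fun _ => ⟨hc1, ?_, hc3⟩⟩
      intro x hx hxμ hmμ
      have h4 := hc2 x hx (by omega)
      rwa [if_pos hmμ] at h4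
  choose c hc using hc
  refine ⟨c, fun m hm => (hc m (by rw [mem_range] at hm; omega)).1,
    fun x hx hxμ => (hc μ (by omega)).2.1 x hx hxμ rfl, ?_⟩
  intro j hj
  obtain ⟨hΦ0, hΦ1⟩ := StartT_Phi d j hj
  obtain ⟨l, hl⟩ : ∃ l : ℝ, l = (ell (a + b - 1) d : ℝ) := ⟨_, rfl⟩
  obtain ⟨N, hN⟩ : ∃ N : ℝ, N = (ell (a + b - 1) (d + 1) : ℝ) := ⟨_, rfl⟩
  obtain ⟨N', hN'⟩ : ∃ N' : ℕ, N' = ∑ i ∈ range (d + 1), B a b i := ⟨_, rfl⟩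
  obtain ⟨T, hT⟩ : ∃ T : ℕ, T = ∑ m ∈ range (d + 1), A m * ell (a + b - 1) m := ⟨_, rfl⟩
  obtain ⟨T', hT'⟩ : ∃ T' : ℕ, T' = ∑ m ∈ range (d + 1), A m * lamw m (W a b) := ⟨_, rfl⟩
  obtain ⟨S, hS⟩ : ∃ S : ℕ, S = ∑ m ∈ range (d + 1), ∑ x ∈ KK d, c m x * Prw d m (W a b) x j :=
    ⟨_, rfl⟩
  obtain ⟨Q, hQ⟩ : ∃ Q : ℕ, Q = ∑ i ∈ range (j + 1), B a b i := ⟨_, rfl⟩
  have hl0 : 0 ≤ l := hl ▸ Nat.cast_nonneg _
  have hN0 : 0 ≤ N := hN ▸ Nat.cast_nonneg _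
  have hT0 : (0 : ℝ) ≤ (T : ℝ) := Nat.cast_nonneg _
  have hB2 : |(Q : ℝ) - Phi d j * N| ≤ δ' * N := by
    rw [hQ, hN]
    exact H2 a b ha hb hn2 hab2 j hj
  have hlN : (5 + ((d : ℝ) + 1) ^ 3) * l ≤ δ / 2 * N := by
    have h1 := H3 (a + b) hn3 d le_rfl
    have h2 : ell (a + b - 1) d ≤ ell (a + b) d := StartT_ell_le (by omega) (by omega)
    have h3 : l ≤ (ell (a + b) d : ℝ) := by
      rw [hl]
      exact_mod_cast h2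
    have h4 : 2 * (5 + ((d : ℝ) + 1) ^ 3) / δ * l ≤ N := by
      rw [hN]
      refine le_trans ?_ h1
      exact mul_le_mul_of_nonneg_left h3 (by positivity)
    have h5 := mul_le_mul_of_nonneg_left h4 (by positivity : (0 : ℝ) ≤ δ / 2)
    refine le_trans (le_of_eq ?_) h5
    field_simp
  have hlm : ∀ m ≤ d, (ell (a + b - 1) m : ℝ) ≤ l := by
    intro m hm
    rw [hl]
    exact_mod_cast ell_mono _ hm
  have hP : ((Prw d m₀ (W a b) (0, 0) j : ℕ) : ℝ) ≤ l := by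
    rw [hl]
    exact_mod_cast StartT_Prw (by omega) (by omega) (hle a b ha hb) hm₀ hj
  have hP0 : (0 : ℝ) ≤ ((Prw d m₀ (W a b) (0, 0) j : ℕ) : ℝ) := Nat.cast_nonneg _
  have hL0 : (lamw m₀ (W a b) : ℝ) ≤ l := by
    have h1 : lamw m₀ (W a b) ≤ ell (a + b - 1) m₀ :=
      lamw_le (by omega) (by omega) (hle a b ha hb)
    refine le_trans ?_ (hlm m₀ hm₀)
    exact_mod_cast h1
  have hN1 : |(N' : ℝ) - N| ≤ δ' * N := by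
    rw [hN', hN]
    exact H5 a b ha hb hn5 hab5
  have hT1 : (N' : ℝ) - l ≤ (T' : ℝ) := by
    have h2 : (N' : ℝ) ≤ (lamw m₀ (W a b) : ℝ) + (T' : ℝ) := by
      rw [hN', hT']
      exact_mod_cast hlo
    linarith
  have hT2 : (T' : ℝ) ≤ N' + l := by
    have h1 : (0 : ℝ) ≤ (lamw m₀ (W a b) : ℝ) := Nat.cast_nonneg _
    have h2 : (lamw m₀ (W a b) : ℝ) + (T' : ℝ) ≤ N' + l := by
      rw [hN', hT', hl]
      exact_mod_cast hhi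
    linarith
  have hTT : |(T' : ℝ) - T| ≤ δ' * T := by
    have h1 : (T' : ℝ) - T = ∑ m ∈ range (d + 1),
        (A m : ℝ) * ((lamw m (W a b) : ℝ) - (ell (a + b - 1) m : ℝ)) := by
      rw [hT', hT]
      push_cast
      rw [← sum_sub_distrib]
      refine sum_congr rfl fun m _ => ?_
      ring
    rw [h1]
    refine (abs_sum_le_sum_abs _ _).trans ?_
    rw [hT]
    push_cast
    rw [mul_sum]
    refine sum_le_sum fun m hm => ?_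
    rw [mem_range] at hm
    rw [abs_mul, abs_of_nonneg (Nat.cast_nonneg (A m))]
    have h2 := mul_le_mul_of_nonneg_left (H4 a b ha hb hn4 hab4 m (by omega))
      (Nat.cast_nonneg (α := ℝ) (A m))
    refine h2.trans (le_of_eq ?_)
    ring
  have b1 := abs_le.1 hN1
  have b2 := abs_le.1 hTT
  have e1 : δ' * (T : ℝ) ≤ 1 / 2 * T := mul_le_mul_of_nonneg_right hδ2 hT0
  have e2 : δ' * N ≤ 1 / 2 * N := mul_le_mul_of_nonneg_right hδ2 hN0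
  have hT3 : (T : ℝ) ≤ 3 * N + 2 * l := by linarith [b1.2, b2.1]
  have e3 : δ' * (T : ℝ) ≤ δ' * (3 * N + 2 * l) := mul_le_mul_of_nonneg_left hT3 hδ'.le
  have e4 : δ' * l ≤ 1 / 2 * l := mul_le_mul_of_nonneg_right hδ2 hl0
  have hTN : |(T : ℝ) - N| ≤ 4 * (δ' * N) + 2 * l := by
    rw [abs_le]
    constructor <;> linarith [b1.1, b1.2, b2.1, b2.2]
  have hSer : |(S : ℝ) - Phi d j * T| ≤ δ' * T + ((d : ℝ) + 1) ^ 3 * l := by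
    have h1 : (S : ℝ) - Phi d j * T = ∑ m ∈ range (d + 1),
        (((∑ x ∈ KK d, c m x * Prw d m (W a b) x j : ℕ) : ℝ) -
          Phi d j * ((A m * ell (a + b - 1) m : ℕ) : ℝ)) := by
      rw [sum_sub_distrib, ← mul_sum, hS, hT, Nat.cast_sum, Nat.cast_sum]
    rw [h1]
    refine (abs_sum_le_sum_abs _ _).trans ?_
    have h2 : ∀ m ∈ range (d + 1), |((∑ x ∈ KK d, c m x * Prw d m (W a b) x j : ℕ) : ℝ) -
          Phi d j * ((A m * ell (a + b - 1) m : ℕ) : ℝ)| ≤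
        δ' * ((A m * ell (a + b - 1) m : ℕ) : ℝ) + ((d : ℝ) + 1) ^ 2 * l := by
      intro m hm
      rw [mem_range] at hm
      have h3 := (hc m (by omega)).2.2 j hj
      refine h3.trans ?_
      have h4 := mul_le_mul_of_nonneg_left (hlm m (by omega)) (by positivity : (0 : ℝ) ≤ ((d : ℝ) + 1) ^ 2)
      rw [add_mul, Nat.cast_mul]
      linarith
    refine (sum_le_sum h2).trans (le_of_eq ?_)
    rw [sum_add_distrib, ← mul_sum, ← Nat.cast_sum, ← hT, sum_const, card_range, nsmul_eq_mul]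
    push_cast
    ring
  have hΦT : |Phi d j * T - Phi d j * N| ≤ 4 * (δ' * N) + 2 * l := by
    rw [← mul_sub, abs_mul, abs_of_nonneg hΦ0]
    calc Phi d j * |(T : ℝ) - N| ≤ 1 * (4 * (δ' * N) + 2 * l) :=
          mul_le_mul hΦ1 hTN (abs_nonneg _) zero_le_one
      _ = 4 * (δ' * N) + 2 * l := one_mul _
  rw [← hS, ← hQ, ← hN]
  have hfin : (((Prw d m₀ (W a b) (0, 0) j + S : ℕ)) : ℝ) - (Q : ℝ) =
      ((Prw d m₀ (W a b) (0, 0) j : ℕ) : ℝ) + ((S : ℝ) - Phi d j * T) +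
        (Phi d j * T - Phi d j * N) - ((Q : ℝ) - Phi d j * N) := by
    push_cast
    ring
  rw [hfin]
  have e5 : δ' * N ≤ δ / 16 * N := mul_le_mul_of_nonneg_right hδ1 hN0
  have a1 := abs_le.1 hSer
  have a2 := abs_le.1 hΦT
  have a3 := abs_le.1 hB2
  have e6 : δ' * (T : ℝ) ≤ 3 * (δ' * N) + l := by linarith
  have e7 : (5 + ((d : ℝ) + 1) ^ 3) * l = 5 * l + ((d : ℝ) + 1) ^ 3 * l := by ring
  rw [e7] at hlN
  rw [abs_le]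
  constructor
  · linarith [a1.1, a2.1, a3.2]
  · linarith [a1.2, a2.2, a3.1]

end Pool.Agent.H21.TC
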