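import Pool.Agent.H21.TC.Defs

/-!
# TC1: the total number of conditions for a general weight

`sum_wtw`: the first part (`e1`, `e2`) of the proof of `sum_wt` in `Pool/Agent/H51/TB/Tot.lean` (with
`card_levels`, which is public).  `lamw_le`: `lamw m w ≤ lamw m (Eg a b)` and
`lamw m (Eg a b) = ∑_{j ≤ m} wtw m m (Eg a b) (0, 0) j = ∑ wt a b m m (0, 0) j = ell (a + b - 1) m` (`sum_wt`;
`wtw d m (Eg a b) = wt a b d m` by `rfl`).
-/

namespace Pool.Agent.H21.TC

open Finset Pool.Agent.H18.Ex Pool.Agent.H21.NX Pool.Agent.H18.Ta Pool.Agent.H51.TB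

theorem sum_wtw {d m : ℕ} (hm : m ≤ d + 1) {c : ℕ × ℕ} (hc : c.1 + c.2 ≤ d) (w : ℕ × ℕ → ℕ) :
    ∑ j ∈ range (d + 1), wtw d m w c j = lamw m w := by
  classical
  have hLam : ∀ j, Lam d m c j ⊆ range m ×ˢ range m := fun j => Finset.filter_subset _ _
  have e1 : ∀ j, wtw d m w c j = ∑ g ∈ range m ×ˢ range m, if g ∈ Lam d m c j then w g else 0 := by
    intro j
    unfold wtw
    rw [← Finset.sum_filter]
    refine Finset.sum_congr ?_ (fun _ _ => rfl)
    ext g
    rw [Finset.mem_filter]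
    exact ⟨fun h => ⟨hLam j h, h⟩, fun h => h.2⟩
  unfold lamw
  rw [Finset.sum_congr rfl (fun j _ => e1 j), Finset.sum_comm]
  refine Finset.sum_congr rfl (fun g _ => ?_)
  rw [← Finset.sum_filter, Finset.sum_const, smul_eq_mul]
  by_cases hg : g.1 + g.2 < m
  · rw [card_levels hm hc g hg]
  · have e3 : (range (d + 1)).filter (fun j => g ∈ Lam d m c j) = ∅ := by
      refine Finset.filter_eq_empty_iff.2 ?_
      intro j _ h
      unfold Lam at h
      rw [Finset.mem_filter] at h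
      omega
    rw [e3, Finset.card_empty, Nat.zero_mul, show m - (g.1 + g.2) = 0 by omega, Nat.zero_mul]

theorem Prw_last {d m : ℕ} (hm : m ≤ d + 1) {c : ℕ × ℕ} (hc : c.1 + c.2 ≤ d) (w : ℕ × ℕ → ℕ) :
    Prw d m w c d = lamw m w := sum_wtw hm hc w

theorem lamw_le {a b m : ℕ} (ha : 1 ≤ a) (hb : 1 ≤ b) {w : ℕ × ℕ → ℕ}
    (hw : ∀ g, w g ≤ Eg a b g) : lamw m w ≤ ell (a + b - 1) m := by
  have h1 : lamw m w ≤ lamw m (Eg a b) :=
    Finset.sum_le_sum fun g _ => Nat.mul_le_mul_left _ (hw g)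
  have h2 : lamw m (Eg a b) = ell (a + b - 1) m := by
    rw [← sum_wtw (d := m) (m := m) (by omega) (c := (0, 0)) (by simp) (Eg a b)]
    exact sum_wt ha hb (by omega) (by simp)
  exact h1.trans h2.le

end Pool.Agent.H21.TC
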